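import Mathlib
import Pool.Agent.Results.MP_6cbfb8_an.RidgeDensities
set_option autoImplicit false

/-! Elementary facts on the extension operator. -/

namespace Pool.Agent.X93.ST

open MeasureTheory Set Metric Complex
open scoped ENNReal NNReal RealInnerProductSpace
open Pool.Agent.Results.MP_6cbfb8_an.RidgeDensities (sigma ft)
open Pool.Agent.H789R2.FR (E)

instance sig_fin (n : ℕ) : IsFiniteMeasure (sigma n) := by
  unfold sigma; infer_instance

theorem ker_cont {n : ℕ} : Continuous fun y : (sphere (0 : E n) 1) × E n =>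
    Complex.exp (-(2 * Real.pi * ⟪(y.1 : E n), y.2⟫ : ℝ) * I) := by fun_prop

theorem ker_norm {n : ℕ} (x ξ : E n) :
    ‖Complex.exp (-(2 * Real.pi * ⟪x, ξ⟫ : ℝ) * I)‖ = 1 := by
  have h : (-(2 * Real.pi * ⟪x, ξ⟫ : ℝ) * I : ℂ) = ((-(2 * Real.pi * ⟪x, ξ⟫) : ℝ) : ℂ) * I := by
    push_cast; ring
  rw [h, Complex.norm_exp_ofReal_mul_I]

theorem ker_int {n : ℕ} {g : sphere (0 : E n) 1 → ℂ} (hg : Integrable g (sigma n)) (ξ : E n) :
    Integrable (fun x : sphere (0 : E n) 1 =>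
      Complex.exp (-(2 * Real.pi * ⟪(x : E n), ξ⟫ : ℝ) * I) * g x) (sigma n) := by
  refine hg.bdd_mul (c := 1) ?_ ?_
  · have : Continuous fun x : sphere (0 : E n) 1 =>
      Complex.exp (-(2 * Real.pi * ⟪(x : E n), ξ⟫ : ℝ) * I) := by fun_prop
    exact this.aestronglyMeasurable
  · exact Filter.Eventually.of_forall fun x => (ker_norm _ _).le

theorem ft_norm_le {n : ℕ} (g : sphere (0 : E n) 1 → ℂ) (ξ : E n) :
    ‖ft g ξ‖ ≤ ∫ x, ‖g x‖ ∂(sigma n) := by
  unfold ft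
  refine (norm_integral_le_integral_norm _).trans (le_of_eq ?_)
  refine integral_congr_ae (Filter.Eventually.of_forall fun x => ?_)
  simp only [norm_mul]
  rw [ker_norm, one_mul]

theorem ft_cont {n : ℕ} {g : sphere (0 : E n) 1 → ℂ} (hg : Integrable g (sigma n)) :
    Continuous (ft g) := by
  unfold ft
  refine continuous_of_dominated (bound := fun x => ‖g x‖) ?_ ?_ hg.norm ?_
  · exact fun ξ => (ker_int hg ξ).aestronglyMeasurable
  · intro ξ
    refine Filter.Eventually.of_forall fun x => ?_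
    rw [norm_mul, ker_norm, one_mul]
  · refine Filter.Eventually.of_forall fun x => ?_
    fun_prop

theorem ft_add {n : ℕ} {f g : sphere (0 : E n) 1 → ℂ} (hf : Integrable f (sigma n))
    (hg : Integrable g (sigma n)) (ξ : E n) : ft (fun x => f x + g x) ξ = ft f ξ + ft g ξ := by
  unfold ft
  rw [← integral_add (ker_int hf ξ) (ker_int hg ξ)]
  congr 1
  ext x
  ring

theorem ft_sub {n : ℕ} {f g : sphere (0 : E n) 1 → ℂ} (hf : Integrable f (sigma n))
    (hg : Integrable g (sigma n)) (ξ : E n) : ft (fun x => f x - g x) ξ = ft f ξ - ft g ξ := by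
  unfold ft
  rw [← integral_sub (ker_int hf ξ) (ker_int hg ξ)]
  congr 1
  ext x
  ring

theorem ft_smul {n : ℕ} (g : sphere (0 : E n) 1 → ℂ) (c : ℂ) (ξ : E n) :
    ft (fun x => c * g x) ξ = c * ft g ξ := by
  unfold ft
  rw [← integral_const_mul]
  congr 1
  ext x
  ring

theorem ft_sum {n : ℕ} {ι : Type} (s : Finset ι) {f : ι → sphere (0 : E n) 1 → ℂ}
    (hf : ∀ i ∈ s, Integrable (f i) (sigma n)) (ξ : E n) :
    ft (fun x => ∑ i ∈ s, f i x) ξ = ∑ i ∈ s, ft (f i) ξ := by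
  unfold ft
  rw [← integral_finset_sum s fun i hi => ker_int (hf i hi) ξ]
  congr 1
  ext x
  rw [Finset.mul_sum]

theorem ft_lip {n : ℕ} {g : sphere (0 : E n) 1 → ℂ} (hg : Integrable g (sigma n)) (ξ ξ' : E n) :
    ‖ft g ξ - ft g ξ'‖ ≤ 2 * Real.pi * (∫ x, ‖g x‖ ∂(sigma n)) * ‖ξ - ξ'‖ := by
  unfold ft
  rw [← integral_sub (ker_int hg ξ) (ker_int hg ξ'),
    show 2 * Real.pi * (∫ x, ‖g x‖ ∂(sigma n)) * ‖ξ - ξ'‖ =
      ∫ x, (2 * Real.pi * ‖ξ - ξ'‖) * ‖g x‖ ∂(sigma n) by rw [integral_const_mul]; ring]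
  refine norm_integral_le_of_norm_le (hg.norm.const_mul _)
    (Filter.Eventually.of_forall fun x => ?_)
  rw [← sub_mul, norm_mul]
  refine mul_le_mul_of_nonneg_right ?_ (norm_nonneg _)
  have h1 : ∀ s t : ℝ, ‖Complex.exp (-(s : ℝ) * I) - Complex.exp (-(t : ℝ) * I)‖ ≤ |s - t| := by
    intro s t
    have e1 : Complex.exp (-(s : ℝ) * I) - Complex.exp (-(t : ℝ) * I) =
        Complex.exp (-(t : ℝ) * I) * (Complex.exp (I * ((t - s : ℝ) : ℂ)) - 1) := by
      rw [mul_sub, ← Complex.exp_add, mul_one]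
      congr 2
      push_cast; ring
    rw [e1, norm_mul]
    have e2 : ‖Complex.exp (-(t : ℝ) * I)‖ = 1 := by
      rw [show (-(t : ℝ) * I : ℂ) = ((-t : ℝ) : ℂ) * I by push_cast; ring,
        Complex.norm_exp_ofReal_mul_I]
    rw [e2, one_mul]
    have e3 := Real.norm_exp_I_mul_ofReal_sub_one_le (x := t - s)
    rw [Real.norm_eq_abs] at e3
    rw [abs_sub_comm]
    exact e3
  refine (h1 _ _).trans ?_
  rw [← mul_sub, ← inner_sub_right, abs_mul, abs_of_pos (by positivity : 0 < 2 * Real.pi)]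
  have h2 : |⟪(x : E n), ξ - ξ'⟫| ≤ ‖ξ - ξ'‖ := by
    refine (abs_real_inner_le_norm _ _).trans ?_
    have : ‖(x : E n)‖ = 1 := mem_sphere_zero_iff_norm.1 x.2
    rw [this, one_mul]
  exact mul_le_mul_of_nonneg_left h2 (by positivity)

theorem int_of_bdd {n : ℕ} {g : sphere (0 : E n) 1 → ℂ} (hg : Measurable g) {M : ℝ}
    (hM : ∀ x, ‖g x‖ ≤ M) : Integrable g (sigma n) :=
  Integrable.of_bound hg.aestronglyMeasurable M (Filter.Eventually.of_forall hM)

theorem int_norm_le {n : ℕ} {g : sphere (0 : E n) 1 → ℂ} (hg : Measurable g) {M : ℝ}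
    (hM : ∀ x, ‖g x‖ ≤ M) : ∫ x, ‖g x‖ ∂(sigma n) ≤ M * (sigma n).real univ := by
  calc ∫ x, ‖g x‖ ∂(sigma n) ≤ ∫ _x, M ∂(sigma n) :=
        integral_mono (int_of_bdd hg hM).norm (integrable_const _) hM
    _ = _ := by rw [integral_const, smul_eq_mul, mul_comm]

end Pool.Agent.X93.ST
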