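import Mathlib
import Pool.Agent.Results.MP_6cbfb8_an.RidgeDensities
set_option autoImplicit false

/-! Trigonometric polynomials times a rough function of one coordinate. -/

namespace Pool.Agent.X93.ST

open MeasureTheory Set Metric Complex
open scoped ENNReal NNReal RealInnerProductSpace
open Pool.Agent.Results.MP_6cbfb8_an.RidgeDensities (sigma ft Holds Rough)

abbrev E (n : ℕ) := EuclideanSpace ℝ (Fin n)

/-- trigonometric polynomial -/
noncomputable def trig {n N : ℕ} (c : Fin N → ℂ) (η : Fin N → E n) (x : E n) : ℂ :=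
  ∑ j, c j * Complex.exp ((⟪η j, x⟫ : ℝ) * I)

/-- trigonometric polynomial times a ridge function -/
noncomputable def tr {n N : ℕ} (c : Fin N → ℂ) (η : Fin N → E n) (e : E n) (F : ℝ → ℂ)
    (x : sphere (0 : E n) 1) : ℂ := trig c η x * F ⟪e, (x : E n)⟫

theorem trig_cont {n N : ℕ} (c : Fin N → ℂ) (η : Fin N → E n) : Continuous (trig c η) := by
  unfold trig
  fun_prop

theorem trig_le {n N : ℕ} (c : Fin N → ℂ) (η : Fin N → E n) (x : E n) :
    ‖trig c η x‖ ≤ ∑ j, ‖c j‖ := by
  unfold trig
  refine (norm_sum_le _ _).trans (Finset.sum_le_sum fun j _ => ?_)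
  rw [norm_mul, Complex.norm_exp_ofReal_mul_I, mul_one]

theorem ridge (n : ℕ) (hn : 3 ≤ n) (q : ℝ) (hq : 2 * (n : ℝ) / (n - 1) < q) :
    ∃ C : ℝ, 0 < C ∧ ∀ (N : ℕ) (c : Fin N → ℂ) (η : Fin N → E n) (e : E n), ‖e‖ = 1 →
      ∀ F : ℝ → ℂ, Measurable F → ∀ K : ℝ, (∀ t, ‖F t‖ ≤ K) →
      MemLp (ft (tr c η e F)) (ENNReal.ofReal q) ∧
      eLpNorm (ft (tr c η e F)) (ENNReal.ofReal q) ≤ ENNReal.ofReal (C * (K * ∑ j, ‖c j‖)) := by
  obtain ⟨C, hC, h⟩ := Pool.Agent.Results.MP_6cbfb8_an.RidgeDensities.result n 1 le_rfl (by omega) q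
    (Or.inl ⟨rfl, hq⟩)
  refine ⟨C, hC, ?_⟩
  intro N c η e he F hF K hK
  have hK0 : 0 ≤ K := (norm_nonneg _).trans (hK 0)
  set M : ℕ → ℝ := fun j => if h : j < N then K * ‖c ⟨j, h⟩‖ else 0 with hM
  have hfin : ∀ j ∉ Finset.range N, M j = 0 := by
    intro j hj
    rw [Finset.mem_range] at hj
    simp [hM, hj]
  have hsum : Summable M := summable_of_ne_finset_zero hfin
  have htsum : ∑' j, M j = K * ∑ j, ‖c j‖ := by
    rw [tsum_eq_sum hfin, Finset.sum_range, Finset.mul_sum]
    refine Finset.sum_congr rfl fun j _ => ?_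
    simp [hM]
  have h2 := h M hsum (tr c η e F) ?_
  · rw [htsum] at h2
    exact h2
  · refine ⟨fun _ => Submodule.span ℝ {e}, fun j => if h : j < N then η ⟨j, h⟩ else 0,
      fun j => if h : j < N then fun y => c ⟨j, h⟩ * F ⟪e, y⟫ else fun _ => 0, ?_, ?_, ?_, ?_⟩
    · intro j
      apply finrank_span_singleton
      intro h0
      rw [h0, norm_zero] at he
      exact zero_ne_one he
    · intro j
      by_cases hj : j < N
      · simp only [hj, dif_pos]
        have h1 : Measurable fun y : E n => (⟪e, y⟫ : ℝ) := by fun_prop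
        exact (hF.comp h1).const_mul _
      · simp only [hj, dif_neg, not_false_iff]
        exact measurable_const
    · intro j y
      by_cases hj : j < N
      · simp only [hj, dif_pos, hM]
        rw [norm_mul, mul_comm]
        exact mul_le_mul_of_nonneg_right (hK _) (norm_nonneg _)
      · simp [hj, hM]
    · refine Filter.Eventually.of_forall fun x => ?_
      rw [tsum_eq_sum (s := Finset.range N), Finset.sum_range]
      · unfold tr trig
        rw [Finset.sum_mul]
        refine Finset.sum_congr rfl fun j _ => ?_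
        simp only [Fin.is_lt, dif_pos]
        rw [Submodule.starProjection_unit_singleton ℝ he, inner_smul_right,
          real_inner_self_eq_norm_sq, he]
        simp only [Fin.eta]
        norm_num
        ring
      · intro j hj
        rw [Finset.mem_range] at hj
        simp [hj]

end Pool.Agent.X93.ST
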