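import Mathlib
import Pool.Agent.X93.ST.Ridge
import Pool.Agent.X93.ST.Base
set_option autoImplicit false

/-! Approximation by trigonometric polynomials. -/

namespace Pool.Agent.X93.ST

open MeasureTheory Set Metric Complex Algebra
open scoped ENNReal NNReal RealInnerProductSpace
open Pool.Agent.Results.MP_6cbfb8_an.RidgeDensities (sigma ft)

variable {n : ℕ}

instance : CompactSpace (sphere (0 : E n) 1) := isCompact_iff_compactSpace.1 (isCompact_sphere _ _)

/-- exponentials on the sphere -/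
noncomputable def ex (η : E n) : C(sphere (0 : E n) 1, ℂ) :=
  ⟨fun x => Complex.exp ((⟪η, (x : E n)⟫ : ℝ) * I), by fun_prop⟩

theorem ex_apply (η : E n) (x : sphere (0 : E n) 1) :
    ex η x = Complex.exp ((⟪η, (x : E n)⟫ : ℝ) * I) := rfl

/-- star algebra of trigonometric polynomials -/
noncomputable def TA (n : ℕ) : StarSubalgebra ℂ C(sphere (0 : E n) 1, ℂ) where
  toSubalgebra := Algebra.adjoin ℂ (range (ex (n := n)))
  star_mem' := by
    change Algebra.adjoin ℂ (range (ex (n := n))) ≤ star (Algebra.adjoin ℂ (range (ex (n := n))))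
    refine adjoin_le ?_
    rintro - ⟨η, rfl⟩
    refine subset_adjoin ⟨-η, ?_⟩
    ext x
    rw [ContinuousMap.star_apply, ex_apply, ex_apply, ← starRingEnd_apply, ← Complex.exp_conj,
      map_mul, Complex.conj_ofReal, Complex.conj_I, inner_neg_left]
    congr 1
    push_cast; ring

theorem TA_coe : Subalgebra.toSubmodule (TA n).toSubalgebra =
    Submodule.span ℂ (range (ex (n := n))) := by
  apply adjoin_eq_span_of_subset
  refine Subset.trans ?_ Submodule.subset_span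
  intro x hx
  refine Submonoid.closure_induction (fun _ => id) ⟨0, ?_⟩ ?_ hx
  · ext1 z; rw [ex_apply]; simp
  · rintro - - - - ⟨m, rfl⟩ ⟨k, rfl⟩
    refine ⟨m + k, ?_⟩
    ext1 z
    rw [ContinuousMap.mul_apply, ex_apply, ex_apply, ex_apply, ← Complex.exp_add, inner_add_left]
    congr 1
    push_cast; ring

theorem TA_sep : (TA n).SeparatesPoints := by
  intro x y hxy
  have hxy' : (x : E n) - y ≠ 0 := by
    rw [sub_ne_zero]; exact fun h => hxy (Subtype.ext h)
  have hn : ‖(x : E n) - y‖ ≠ 0 := norm_ne_zero_iff.2 hxy'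
  refine ⟨_, ⟨ex ((‖(x : E n) - y‖ ^ 2)⁻¹ • ((x : E n) - y)), subset_adjoin ⟨_, rfl⟩, rfl⟩, ?_⟩
  dsimp only
  rw [ex_apply, ex_apply]
  intro h
  set η := (‖(x : E n) - y‖ ^ 2)⁻¹ • ((x : E n) - y) with hη
  have h1 : (⟪η, (x : E n)⟫ : ℝ) = ⟪η, (y : E n)⟫ + 1 := by
    have : (⟪η, (x : E n) - y⟫ : ℝ) = 1 := by
      rw [hη, real_inner_smul_left, real_inner_self_eq_norm_sq]
      field_simp
    rw [inner_sub_right] at this
    linarith
  rw [h1] at h
  have h2 : ((⟪η, (y : E n)⟫ + 1 : ℝ) : ℂ) * I = ((⟪η, (y : E n)⟫ : ℝ) : ℂ) * I + I := by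
    push_cast; ring
  rw [h2, Complex.exp_add] at h
  have h3 : Complex.exp I = 1 := by
    have h4 := Complex.exp_ne_zero (((⟪η, (y : E n)⟫ : ℝ) : ℂ) * I)
    have h5 : Complex.exp (((⟪η, (y : E n)⟫ : ℝ) : ℂ) * I) * Complex.exp I =
        Complex.exp (((⟪η, (y : E n)⟫ : ℝ) : ℂ) * I) * 1 := by rw [mul_one]; exact h
    exact mul_left_cancel₀ h4 h5
  rw [Complex.exp_eq_one_iff] at h3
  obtain ⟨k, hk⟩ := h3
  have h6 := congrArg Complex.im hk
  simp at h6
  have h7 : (1 : ℝ) = (k : ℝ) * (2 * Real.pi) := h6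
  rcases le_or_gt k 0 with hk0 | hk0
  · have : (k : ℝ) ≤ 0 := by exact_mod_cast hk0
    nlinarith [Real.pi_pos]
  · have : (1 : ℝ) ≤ k := by exact_mod_cast hk0
    nlinarith [Real.pi_gt_three]

theorem trig_dense (ψ : C(sphere (0 : E n) 1, ℂ)) (δ : ℝ) (hδ : 0 < δ) :
    ∃ (L : ℕ) (c : Fin L → ℂ) (η : Fin L → E n), ∀ x : sphere (0 : E n) 1,
      ‖ψ x - trig c η x‖ ≤ δ := by
  have h1 : (TA n).topologicalClosure = ⊤ :=
    ContinuousMap.starSubalgebra_topologicalClosure_eq_top_of_separatesPoints (TA n) TA_sep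
  have h2 : (Submodule.span ℂ (range (ex (n := n)))).topologicalClosure = ⊤ := by
    rw [← TA_coe]
    exact congr_arg (Subalgebra.toSubmodule <| StarSubalgebra.toSubalgebra ·) h1
  have h3 : ψ ∈ closure (Submodule.span ℂ (range (ex (n := n))) :
      Set C(sphere (0 : E n) 1, ℂ)) := by
    rw [← Submodule.topologicalClosure_coe, h2]; trivial
  rw [Metric.mem_closure_iff] at h3
  obtain ⟨t, ht, hd⟩ := h3 δ hδ
  obtain ⟨L, c, η, hc⟩ : ∃ (L : ℕ) (c : Fin L → ℂ) (η : Fin L → E n),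
      ∀ x : sphere (0 : E n) 1, t x = trig c η x := by
    have ht' : t ∈ Submodule.span ℂ (range (ex (n := n))) := ht
    rw [Finsupp.mem_span_range_iff_exists_finsupp] at ht'
    obtain ⟨c, hc⟩ := ht'
    refine ⟨c.support.card, fun i => c (c.support.equivFin.symm i),
      fun i => c.support.equivFin.symm i, fun x => ?_⟩
    rw [← hc]
    have e1 : trig (fun i => c (c.support.equivFin.symm i)) (fun i => c.support.equivFin.symm i)
        (x : E n) = ∑ j : c.support, c j * Complex.exp ((⟪(j : E n), (x : E n)⟫ : ℝ) * I) :=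
      c.support.equivFin.symm.sum_comp
        (fun j : c.support => c j * Complex.exp ((⟪(j : E n), (x : E n)⟫ : ℝ) * I))
    rw [e1, Finset.sum_coe_sort c.support (fun j : E n => c j *
        Complex.exp ((⟪(j : E n), (x : E n)⟫ : ℝ) * I))]
    unfold Finsupp.sum
    rw [ContinuousMap.sum_apply]
    refine Finset.sum_congr rfl fun j _ => ?_
    simp only
    rw [ContinuousMap.smul_apply, ex_apply, smul_eq_mul]
  refine ⟨L, c, η, fun x => ?_⟩
  rw [← hc x, ← dist_eq_norm]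
  exact (ContinuousMap.dist_apply_le_dist x).trans hd.le

theorem approx (φ : sphere (0 : E n) 1 → ℂ) (hφ : Measurable φ) (M : ℝ) (hM : 0 < M)
    (hb : ∀ x, ‖φ x‖ ≤ M) (ρ : ℝ) (hρ : 0 < ρ) (ε : ℝ) (hε : 0 < ε) :
    ∃ (L : ℕ) (c : Fin L → ℂ) (η : Fin L → E n),
      (∀ x : sphere (0 : E n) 1, ‖trig c η x‖ ≤ 2 * M) ∧
      sigma n {x | ρ < ‖φ x - trig c η x‖} ≤ ENNReal.ofReal ε := by
  have hint := int_of_bdd hφ hb
  obtain ⟨ψ, hψ, hψi⟩ := hint.exists_boundedContinuous_integral_sub_le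
    (show 0 < ε * (ρ / 4) by positivity)
  set ψ' : C(sphere (0 : E n) 1, ℂ) := ⟨fun x => ((M / max M ‖ψ x‖ : ℝ) : ℂ) * ψ x, by
    have h1 : Continuous fun x => M / max M ‖ψ x‖ :=
      continuous_const.div (by fun_prop) fun x => (lt_of_lt_of_le hM (le_max_left _ _)).ne'
    exact (Complex.continuous_ofReal.comp h1).mul ψ.continuous⟩ with hψ'
  have hap : ∀ x, ψ' x = ((M / max M ‖ψ x‖ : ℝ) : ℂ) * ψ x := fun x => rfl
  have hb' : ∀ x, ‖ψ' x‖ ≤ M := by
    intro x
    have hm : 0 < max M ‖ψ x‖ := lt_of_lt_of_le hM (le_max_left _ _)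
    rw [hap, norm_mul, Complex.norm_real, Real.norm_eq_abs, abs_of_nonneg (by positivity),
      div_mul_eq_mul_div, div_le_iff₀ hm]
    exact mul_le_mul_of_nonneg_left (le_max_right _ _) hM.le
  have hdiff : ∀ x, ‖φ x - ψ' x‖ ≤ 2 * ‖φ x - ψ x‖ := by
    intro x
    have hm : 0 < max M ‖ψ x‖ := lt_of_lt_of_le hM (le_max_left _ _)
    have h1 : ‖ψ x - ψ' x‖ ≤ ‖φ x - ψ x‖ := by
      have h2 : ψ x - ψ' x = ((1 - M / max M ‖ψ x‖ : ℝ) : ℂ) * ψ x := by
        rw [hap]; push_cast; ring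
      rw [h2, norm_mul, Complex.norm_real, Real.norm_eq_abs]
      rcases le_total ‖ψ x‖ M with h | h
      · rw [max_eq_left h, div_self hM.ne', sub_self, abs_zero, zero_mul]
        exact norm_nonneg _
      · rw [max_eq_right h]
        have hp : 0 < ‖ψ x‖ := lt_of_lt_of_le hM h
        rw [abs_of_nonneg (by rw [sub_nonneg, div_le_one hp]; exact h), sub_mul, one_mul,
          div_mul_cancel₀ _ hp.ne']
        have := norm_sub_norm_le (ψ x) (φ x)
        rw [norm_sub_rev] at this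
        linarith [hb x]
    calc ‖φ x - ψ' x‖ = ‖(φ x - ψ x) + (ψ x - ψ' x)‖ := by congr 1; ring
      _ ≤ ‖φ x - ψ x‖ + ‖ψ x - ψ' x‖ := norm_add_le _ _
      _ ≤ _ := by linarith
  obtain ⟨L, c, η, ht⟩ := trig_dense ψ' (min M (ρ / 2)) (lt_min hM (by positivity))
  refine ⟨L, c, η, fun x => ?_, ?_⟩
  · have h1 := (ht x).trans (min_le_left _ _)
    have h2 := norm_sub_norm_le (trig c η x) (ψ' x)
    rw [norm_sub_rev] at h2
    linarith [hb' x]
  · have hsub : {x | ρ < ‖φ x - trig c η x‖} ⊆ {x | ρ / 4 ≤ ‖φ x - ψ x‖} := by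
      intro x hx
      rw [mem_ofPred_eq] at hx ⊢
      have h1 := (ht x).trans (min_le_right _ _)
      have h2 : ‖φ x - trig c η x‖ ≤ ‖φ x - ψ' x‖ + ‖ψ' x - trig c η x‖ := by
        calc _ = ‖(φ x - ψ' x) + (ψ' x - trig c η x)‖ := by congr 1; ring
          _ ≤ _ := norm_add_le _ _
      linarith [hdiff x]
    refine (measure_mono hsub).trans ?_
    have h3 := mul_meas_ge_le_integral_of_nonneg
      (μ := sigma n) (f := fun x => ‖φ x - ψ x‖)
      (Filter.Eventually.of_forall fun x => norm_nonneg _) ((hint.sub hψi).norm) (ρ / 4)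
    rw [← ENNReal.ofReal_toReal (measure_ne_top (sigma n) {x | ρ / 4 ≤ ‖φ x - ψ x‖})]
    apply ENNReal.ofReal_le_ofReal
    have h4 : ρ / 4 * (sigma n).real {x | ρ / 4 ≤ ‖φ x - ψ x‖} ≤ ρ / 4 * ε := by
      calc _ ≤ _ := h3
        _ ≤ _ := hψ
        _ = _ := by ring
    exact le_of_mul_le_mul_left h4 (by positivity)

end Pool.Agent.X93.ST
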