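import Mathlib
set_option autoImplicit false

/-! Moments of random sums with independent mean-zero coefficients (finite probability spaces). -/

namespace Pool.Agent.X93.ST

open Finset
open scoped BigOperators

variable {Ω : Type} [Fintype Ω]

/-- the random sum -/
noncomputable def RS {N : ℕ} (ζ : Ω → ℝ) (a : Fin N → ℂ) (z : Fin N → Ω) : ℂ :=
  ∑ i, (ζ (z i) : ℂ) * a i

/-- the square function -/
noncomputable def A2 {N : ℕ} (a : Fin N → ℂ) : ℝ := ∑ i, ‖a i‖ ^ 2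

theorem A2_nonneg {N : ℕ} (a : Fin N → ℂ) : 0 ≤ A2 a := by unfold A2; positivity

theorem sum_fin_succ {N : ℕ} (f : (Fin (N + 1) → Ω) → ℝ) :
    ∑ z, f z = ∑ z : Fin N → Ω, ∑ w : Ω, f (Fin.cons w z) := by
  rw [← Fintype.sum_prod_type' (f := fun (z : Fin N → Ω) (w : Ω) => f (Fin.cons w z))]
  rw [← (Equiv.prodComm _ _).sum_comp]
  rw [← (Fin.consEquiv (fun _ : Fin (N + 1) => Ω)).sum_comp]
  rfl

omit [Fintype Ω] in
theorem RS_cons {N : ℕ} (ζ : Ω → ℝ) (a : Fin (N + 1) → ℂ) (w : Ω) (z : Fin N → Ω) :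
    RS ζ a (Fin.cons w z) = RS ζ (fun i => a i.succ) z + (ζ w : ℂ) * a 0 := by
  unfold RS
  rw [Fin.sum_univ_succ]
  simp only [Fin.cons_zero, Fin.cons_succ]
  ring

theorem A2_succ {N : ℕ} (a : Fin (N + 1) → ℂ) : A2 a = A2 (fun i => a i.succ) + ‖a 0‖ ^ 2 := by
  unfold A2
  rw [Fin.sum_univ_succ]
  ring

theorem sq_expand (S a : ℂ) (t : ℝ) :
    ‖S + (t : ℂ) * a‖ ^ 2 = ‖S‖ ^ 2 + 2 * t * (S.re * a.re + S.im * a.im) + t ^ 2 * ‖a‖ ^ 2 := by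
  rw [Complex.sq_norm, Complex.sq_norm, Complex.sq_norm, Complex.normSq_apply, Complex.normSq_apply,
    Complex.normSq_apply]
  simp only [Complex.add_re, Complex.add_im, Complex.mul_re, Complex.mul_im, Complex.ofReal_re,
    Complex.ofReal_im]
  ring

theorem cs (S a : ℂ) : |S.re * a.re + S.im * a.im| ≤ ‖S‖ * ‖a‖ := by
  apply abs_le_of_sq_le_sq _ (by positivity)
  rw [mul_pow, Complex.sq_norm, Complex.sq_norm, Complex.normSq_apply, Complex.normSq_apply]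
  nlinarith [sq_nonneg (S.re * a.im - S.im * a.re)]

theorem second {N : ℕ} (ζ : Ω → ℝ) (h0 : ∑ w, ζ w = 0) (a : Fin N → ℂ) :
    ∑ z, ‖RS ζ a z‖ ^ 2 * (Fintype.card Ω : ℝ) =
      (Fintype.card Ω : ℝ) ^ N * (∑ w, ζ w ^ 2) * A2 a := by
  induction N with
  | zero => simp [RS, A2]
  | succ N ih =>
    rw [sum_fin_succ, A2_succ, mul_add, pow_succ]
    have h1 : ∀ z : Fin N → Ω, ∑ w : Ω, ‖RS ζ a (Fin.cons w z)‖ ^ 2 * (Fintype.card Ω : ℝ) =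
        (‖RS ζ (fun i => a i.succ) z‖ ^ 2 * (Fintype.card Ω : ℝ)) * (Fintype.card Ω : ℝ) +
          (∑ w, ζ w ^ 2) * ‖a 0‖ ^ 2 * (Fintype.card Ω : ℝ) := by
      intro z
      simp only [RS_cons, sq_expand]
      rw [← Finset.sum_mul, Finset.sum_add_distrib, Finset.sum_add_distrib, ← Finset.sum_mul,
        ← Finset.sum_mul, ← Finset.mul_sum, h0, Finset.sum_const, Finset.card_univ, nsmul_eq_mul]
      ring
    rw [Finset.sum_congr rfl fun z _ => h1 z, Finset.sum_add_distrib, ← Finset.sum_mul, ih,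
      Finset.sum_const, Finset.card_univ, nsmul_eq_mul, Fintype.card_pi]
    simp only [Finset.prod_const, Finset.card_univ, Fintype.card_fin]
    push_cast
    ring

theorem fourth_pt (S a : ℂ) (K t : ℝ) (hK : 1 ≤ K) (ht : |t| ≤ K) :
    ‖S + (t : ℂ) * a‖ ^ 4 ≤ ‖S‖ ^ 4 + 4 * t * (‖S‖ ^ 2 * (S.re * a.re + S.im * a.im)) +
      8 * K ^ 3 * ‖S‖ ^ 2 * ‖a‖ ^ 2 + 3 * K ^ 4 * ‖a‖ ^ 4 := by
  have h1 : ‖S + (t : ℂ) * a‖ ^ 4 = (‖S + (t : ℂ) * a‖ ^ 2) ^ 2 := by ring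
  rw [h1, sq_expand]
  set r := S.re * a.re + S.im * a.im with hr
  have hr1 : |r| ≤ ‖S‖ * ‖a‖ := cs S a
  have hr2 : r ^ 2 ≤ ‖S‖ ^ 2 * ‖a‖ ^ 2 := by
    rw [← sq_abs, ← mul_pow]
    exact pow_le_pow_left₀ (abs_nonneg _) hr1 2
  have ht2 : t ^ 2 ≤ K ^ 2 := by
    rw [← sq_abs]; exact pow_le_pow_left₀ (abs_nonneg _) ht 2
  have ht3 : |t ^ 3| ≤ K ^ 3 := by
    rw [abs_pow]; exact pow_le_pow_left₀ (abs_nonneg _) ht 3
  have ht4 : t ^ 4 ≤ K ^ 4 := by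
    have : t ^ 4 = |t| ^ 4 := by rw [← abs_pow]; exact (abs_of_nonneg (by positivity)).symm
    rw [this]; exact pow_le_pow_left₀ (abs_nonneg _) ht 4
  have hK3 : K ^ 2 ≤ K ^ 3 := pow_le_pow_right₀ hK (by norm_num)
  have hK4 : K ^ 3 ≤ K ^ 4 := pow_le_pow_right₀ hK (by norm_num)
  have hn1 : 0 ≤ ‖S‖ := norm_nonneg _
  have hn2 : 0 ≤ ‖a‖ := norm_nonneg _
  -- cubic term
  have hc : t ^ 3 * r * ‖a‖ ^ 2 * 4 ≤ 2 * K ^ 3 * (‖S‖ ^ 2 * ‖a‖ ^ 2 + ‖a‖ ^ 4) := by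
    have e1 : t ^ 3 * r ≤ K ^ 3 * (‖S‖ * ‖a‖) := by
      refine (le_abs_self _).trans ?_
      rw [abs_mul]
      exact mul_le_mul ht3 hr1 (abs_nonneg _) (by positivity)
    have e2 : t ^ 3 * r * ‖a‖ ^ 2 * 4 ≤ K ^ 3 * (‖S‖ * ‖a‖) * ‖a‖ ^ 2 * 4 := by gcongr
    refine e2.trans ?_
    have e3 : 2 * (‖S‖ * ‖a‖) ≤ ‖S‖ ^ 2 + ‖a‖ ^ 2 := by nlinarith [sq_nonneg (‖S‖ - ‖a‖)]
    have e4 : 0 ≤ K ^ 3 * ‖a‖ ^ 2 := by positivity
    nlinarith [mul_le_mul_of_nonneg_left e3 e4]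
  have hd : t ^ 2 * r ^ 2 ≤ K ^ 3 * (‖S‖ ^ 2 * ‖a‖ ^ 2) :=
    mul_le_mul (ht2.trans hK3) hr2 (by positivity) (by positivity)
  have he : t ^ 2 * (‖S‖ ^ 2 * ‖a‖ ^ 2) ≤ K ^ 3 * (‖S‖ ^ 2 * ‖a‖ ^ 2) :=
    mul_le_mul_of_nonneg_right (ht2.trans hK3) (by positivity)
  have hf : t ^ 4 * ‖a‖ ^ 4 ≤ K ^ 4 * ‖a‖ ^ 4 := mul_le_mul_of_nonneg_right ht4 (by positivity)
  have hg : K ^ 3 * ‖a‖ ^ 4 ≤ K ^ 4 * ‖a‖ ^ 4 := mul_le_mul_of_nonneg_right hK4 (by positivity)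
  nlinarith

theorem fourth {N : ℕ} (ζ : Ω → ℝ) (h0 : ∑ w, ζ w = 0) (K : ℝ) (hK : 1 ≤ K) (hζ : ∀ w, |ζ w| ≤ K)
    (a : Fin N → ℂ) :
    ∑ z, ‖RS ζ a z‖ ^ 4 ≤ (Fintype.card Ω : ℝ) ^ N * (4 * K ^ 5) * A2 a ^ 2 := by
  rcases isEmpty_or_nonempty Ω with hΩ | hΩ
  · cases N with
    | zero => simp [RS, A2]
    | succ N =>
      have : IsEmpty (Fin (N + 1) → Ω) := inferInstance
      simp
  have hc : (0 : ℝ) < Fintype.card Ω := by exact_mod_cast Fintype.card_pos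
  induction N with
  | zero => simp [RS, A2]
  | succ N ih =>
    rw [sum_fin_succ, A2_succ, pow_succ]
    set a' : Fin N → ℂ := fun i => a i.succ with ha'
    have h1 : ∀ z : Fin N → Ω, ∑ w : Ω, ‖RS ζ a (Fin.cons w z)‖ ^ 4 ≤
        (Fintype.card Ω : ℝ) * (‖RS ζ a' z‖ ^ 4 + 8 * K ^ 3 * ‖a 0‖ ^ 2 * ‖RS ζ a' z‖ ^ 2
          + 3 * K ^ 4 * ‖a 0‖ ^ 4) := by
      intro z
      set S := RS ζ a' z
      calc ∑ w : Ω, ‖RS ζ a (Fin.cons w z)‖ ^ 4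
          ≤ ∑ w : Ω, (‖S‖ ^ 4 + 4 * ζ w * (‖S‖ ^ 2 * (S.re * (a 0).re + S.im * (a 0).im)) +
              8 * K ^ 3 * ‖S‖ ^ 2 * ‖a 0‖ ^ 2 + 3 * K ^ 4 * ‖a 0‖ ^ 4) := by
            refine Finset.sum_le_sum fun w _ => ?_
            rw [RS_cons]
            exact fourth_pt _ _ K _ hK (hζ w)
        _ = _ := by
            simp only [Finset.sum_add_distrib, ← Finset.sum_mul, ← Finset.mul_sum, h0,
              Finset.sum_const, Finset.card_univ, nsmul_eq_mul]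
            ring
    have h2 := second ζ h0 a'
    rw [← Finset.sum_mul] at h2
    have h3 : ∑ w, ζ w ^ 2 ≤ (Fintype.card Ω : ℝ) * K ^ 2 := by
      calc ∑ w, ζ w ^ 2 ≤ ∑ w : Ω, K ^ 2 := by
            refine Finset.sum_le_sum fun w _ => ?_
            rw [← sq_abs]; exact pow_le_pow_left₀ (abs_nonneg _) (hζ w) 2
        _ = _ := by rw [Finset.sum_const, Finset.card_univ, nsmul_eq_mul]
    have hA := A2_nonneg a'
    have h4 : ∑ z, ‖RS ζ a' z‖ ^ 2 ≤ (Fintype.card Ω : ℝ) ^ N * K ^ 2 * A2 a' := by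
      have : (∑ z, ‖RS ζ a' z‖ ^ 2) * (Fintype.card Ω : ℝ) ≤
          ((Fintype.card Ω : ℝ) ^ N * K ^ 2 * A2 a') * (Fintype.card Ω : ℝ) := by
        rw [h2]
        calc (Fintype.card Ω : ℝ) ^ N * (∑ w, ζ w ^ 2) * A2 a'
            ≤ (Fintype.card Ω : ℝ) ^ N * ((Fintype.card Ω : ℝ) * K ^ 2) * A2 a' := by gcongr
          _ = _ := by ring
      exact le_of_mul_le_mul_right this hc
    have hK5 : K ^ 4 ≤ K ^ 5 := pow_le_pow_right₀ hK (by norm_num)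
    calc ∑ z : Fin N → Ω, ∑ w : Ω, ‖RS ζ a (Fin.cons w z)‖ ^ 4
        ≤ ∑ z : Fin N → Ω, (Fintype.card Ω : ℝ) * (‖RS ζ a' z‖ ^ 4 +
          8 * K ^ 3 * ‖a 0‖ ^ 2 * ‖RS ζ a' z‖ ^ 2 + 3 * K ^ 4 * ‖a 0‖ ^ 4) :=
          Finset.sum_le_sum fun z _ => h1 z
      _ = (Fintype.card Ω : ℝ) * (∑ z, ‖RS ζ a' z‖ ^ 4 +
          8 * K ^ 3 * ‖a 0‖ ^ 2 * ∑ z, ‖RS ζ a' z‖ ^ 2 +
          (Fintype.card Ω : ℝ) ^ N * (3 * K ^ 4 * ‖a 0‖ ^ 4)) := by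
          rw [← Finset.mul_sum, Finset.sum_add_distrib, Finset.sum_add_distrib, ← Finset.mul_sum,
            Finset.sum_const, Finset.card_univ, nsmul_eq_mul, Fintype.card_pi]
          simp only [Finset.prod_const, Finset.card_univ, Fintype.card_fin]
          push_cast
          ring
      _ ≤ (Fintype.card Ω : ℝ) * ((Fintype.card Ω : ℝ) ^ N * (4 * K ^ 5) * A2 a' ^ 2 +
          8 * K ^ 3 * ‖a 0‖ ^ 2 * ((Fintype.card Ω : ℝ) ^ N * K ^ 2 * A2 a') +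
          (Fintype.card Ω : ℝ) ^ N * (4 * K ^ 5 * ‖a 0‖ ^ 4)) := by
          have hK0 : (0:ℝ) ≤ K := by linarith
          have e1 : 3 * K ^ 4 * ‖a 0‖ ^ 4 ≤ 4 * K ^ 5 * ‖a 0‖ ^ 4 := by
            apply mul_le_mul_of_nonneg_right _ (by positivity)
            have : (0:ℝ) ≤ K ^ 4 := by positivity
            linarith
          have e2 : 0 ≤ 8 * K ^ 3 * ‖a 0‖ ^ 2 := by positivity
          apply mul_le_mul_of_nonneg_left _ hc.le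
          apply add_le_add
          · exact add_le_add (ih a') (mul_le_mul_of_nonneg_left h4 e2)
          · exact mul_le_mul_of_nonneg_left e1 (by positivity)
      _ = _ := by ring

end Pool.Agent.X93.ST
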