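import Mathlib
import Pool.Agent.X93.ST.Rand
set_option autoImplicit false

/-! Khintchine-type inequalities from the second and the fourth moment. -/

namespace Pool.Agent.X93.ST

open Finset
open scoped BigOperators

variable {Ω : Type} [Fintype Ω] [Nonempty Ω]

theorem upper {N : ℕ} (ζ : Ω → ℝ) (h0 : ∑ w, ζ w = 0) (K : ℝ) (hK : 1 ≤ K) (hζ : ∀ w, |ζ w| ≤ K)
    (a : Fin N → ℂ) (p : ℝ) (hp0 : 0 < p) (hp : p ≤ 4) :
    ∑ z, ‖RS ζ a z‖ ^ p ≤
      (Fintype.card Ω : ℝ) ^ N * ((4 * K ^ 5) ^ (p / 4) * (A2 a) ^ (p / 2)) := by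
  have hc : (0 : ℝ) < Fintype.card Ω := by exact_mod_cast Fintype.card_pos
  set M : ℝ := (Fintype.card Ω : ℝ) ^ N with hM
  have hM0 : 0 < M := by positivity
  have hcard : (Fintype.card (Fin N → Ω) : ℝ) = M := by
    rw [Fintype.card_pi]
    simp [hM]
  have h1 := Real.rpow_arith_mean_le_arith_mean_rpow (univ : Finset (Fin N → Ω))
    (fun _ => 1 / M) (fun z => ‖RS ζ a z‖ ^ p) (fun _ _ => by positivity) (by
      rw [Finset.sum_const, Finset.card_univ, nsmul_eq_mul, hcard]; field_simp)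
    (fun z _ => by positivity) (p := 4 / p) (by rw [le_div_iff₀ hp0]; linarith)
  rw [← Finset.mul_sum, ← Finset.mul_sum] at h1
  have h2 : ∀ z : Fin N → Ω, (‖RS ζ a z‖ ^ p) ^ (4 / p) = ‖RS ζ a z‖ ^ 4 := by
    intro z
    rw [← Real.rpow_mul (norm_nonneg _), mul_div_cancel₀ _ hp0.ne']
    norm_cast
  rw [Finset.sum_congr rfl fun z _ => h2 z] at h1
  have h3 := fourth ζ h0 K hK hζ a
  have hA := A2_nonneg a
  have h4 : (1 / M * ∑ z, ‖RS ζ a z‖ ^ p) ^ (4 / p) ≤ 4 * K ^ 5 * A2 a ^ 2 := by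
    refine h1.trans ?_
    rw [div_mul_eq_mul_div, one_mul, div_le_iff₀ hM0]
    calc _ ≤ M * (4 * K ^ 5) * A2 a ^ 2 := h3
      _ = _ := by ring
  have hs : 0 ≤ ∑ z, ‖RS ζ a z‖ ^ p := Finset.sum_nonneg fun z _ => by positivity
  have h5 := Real.rpow_le_rpow (by positivity) h4 (show 0 ≤ p / 4 by positivity)
  rw [← Real.rpow_mul (by positivity), div_mul_div_comm, mul_comm 4 p, div_self (by positivity),
    Real.rpow_one, Real.mul_rpow (by positivity) (by positivity), ← Real.rpow_natCast (A2 a) 2,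
    ← Real.rpow_mul hA] at h5
  rw [div_mul_eq_mul_div, one_mul, div_le_iff₀ hM0] at h5
  calc _ ≤ _ := h5
    _ = _ := by
      rw [show ((2 : ℕ) : ℝ) * (p / 4) = p / 2 by push_cast; ring]
      ring

theorem lower {N : ℕ} (ζ : Ω → ℝ) (h0 : ∑ w, ζ w = 0) (hv : (Fintype.card Ω : ℝ) ≤ ∑ w, ζ w ^ 2)
    (a : Fin N → ℂ) (q : ℝ) (hq : 2 ≤ q) :
    (Fintype.card Ω : ℝ) ^ N * (A2 a) ^ (q / 2) ≤ ∑ z, ‖RS ζ a z‖ ^ q := by
  have hc : (0 : ℝ) < Fintype.card Ω := by exact_mod_cast Fintype.card_pos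
  set M : ℝ := (Fintype.card Ω : ℝ) ^ N with hM
  have hM0 : 0 < M := by positivity
  have hcard : (Fintype.card (Fin N → Ω) : ℝ) = M := by
    rw [Fintype.card_pi]
    simp [hM]
  have h1 := Real.rpow_arith_mean_le_arith_mean_rpow (univ : Finset (Fin N → Ω))
    (fun _ => 1 / M) (fun z => ‖RS ζ a z‖ ^ 2) (fun _ _ => by positivity) (by
      rw [Finset.sum_const, Finset.card_univ, nsmul_eq_mul, hcard]; field_simp)
    (fun z _ => by positivity) (p := q / 2) (by linarith)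
  rw [← Finset.mul_sum, ← Finset.mul_sum] at h1
  have h2 : ∀ z : Fin N → Ω, (‖RS ζ a z‖ ^ 2) ^ (q / 2) = ‖RS ζ a z‖ ^ q := by
    intro z
    rw [← Real.rpow_natCast, ← Real.rpow_mul (norm_nonneg _)]
    congr 1
    push_cast; ring
  rw [Finset.sum_congr rfl fun z _ => h2 z] at h1
  have hA := A2_nonneg a
  have h3 := second ζ h0 a
  rw [← Finset.sum_mul, ← hM] at h3
  have h4 : A2 a ≤ 1 / M * ∑ z, ‖RS ζ a z‖ ^ 2 := by
    rw [div_mul_eq_mul_div, one_mul, le_div_iff₀ hM0]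
    have : A2 a * M * (Fintype.card Ω : ℝ) ≤ (∑ z, ‖RS ζ a z‖ ^ 2) * (Fintype.card Ω : ℝ) := by
      rw [h3]
      calc A2 a * M * (Fintype.card Ω : ℝ) = M * (Fintype.card Ω : ℝ) * A2 a := by ring
        _ ≤ _ := by gcongr
    exact le_of_mul_le_mul_right this hc
  have h5 : (A2 a) ^ (q / 2) ≤ 1 / M * ∑ z, ‖RS ζ a z‖ ^ q :=
    (Real.rpow_le_rpow hA h4 (by positivity)).trans h1
  rw [div_mul_eq_mul_div, one_mul, le_div_iff₀ hM0] at h5
  linarith

end Pool.Agent.X93.ST
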