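import Mathlib
import Pool.Agent.Results.MP_6cbfb8_an.RidgeDensities
import Pool.Agent.H438R2.BR.T10
set_option autoImplicit false

/-! Partition of the sphere into slabs of small measure. -/

namespace Pool.Agent.X93.ST.Slab

open MeasureTheory Set Metric Complex
open scoped ENNReal NNReal RealInnerProductSpace
open Pool.Agent.Results.MP_6cbfb8_an.RidgeDensities (sigma ft)
open Pool.Agent.H789R2.FR (E sg sg_finite)
open Pool.Agent.H438R2.BR.T10 (e0 e0_norm rho map_coord meas_dens)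
open Pool.Agent.H438R2.BR (J)

theorem J_norm (m : ℕ) : ‖J e0 (0 : E m)‖ = 1 := by
  have h : ‖J e0 (0 : E m)‖ ^ 2 = 1 := by
    rw [EuclideanSpace.norm_sq_eq, Fin.sum_univ_add]
    simp [J, e0]
  nlinarith [norm_nonneg (J e0 (0 : E m)), sq_nonneg (‖J e0 (0 : E m)‖ - 1)]

theorem rho_fin (m : ℕ) (hm : 2 ≤ m) : IsFiniteMeasure (rho m) := by
  refine ⟨?_⟩
  have h := congrArg (fun μ : Measure ℝ => μ univ) (map_coord m (by omega))
  simp only [Measure.smul_apply, smul_eq_mul] at h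
  rw [Measure.map_apply (by fun_prop) MeasurableSet.univ, preimage_univ] at h
  have h1 : sg (1 + m) univ < ⊤ := by
    have : IsFiniteMeasure (sg (1 + m)) := sg_finite _
    exact measure_lt_top _ _
  rw [h] at h1
  have h2 : sg m univ ≠ 0 := (Pool.Agent.H438R2.BR.T7.sg_pos (n := m) (by omega)) |> fun h => by
    intro h0
    have : (sg m).real univ = 0 := by simp [Measure.real, h0]
    linarith
  by_contra h3
  push Not at h3
  rw [top_le_iff] at h3
  rw [h3, ENNReal.mul_top h2] at h1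
  exact lt_irrefl _ h1

/-- the index function of the uniform partition -/
noncomputable def kap (N : ℕ) (t : ℝ) : Fin (N + 1) :=
  ⟨min (⌊(t + 1) * (N + 1) / 2⌋₊) N, by omega⟩

theorem kap_meas (N : ℕ) : Measurable (kap N) := by
  have h1 : Measurable fun t : ℝ => ⌊(t + 1) * (N + 1) / 2⌋₊ :=
    Nat.measurable_floor.comp (by fun_prop)
  have h2 : Measurable fun k : ℕ => (⟨min k N, by omega⟩ : Fin (N + 1)) := measurable_from_top
  exact h2.comp h1

theorem kap_sub (N : ℕ) (i : Fin (N + 1)) : kap N ⁻¹' {i} ∩ Ioo (-1 : ℝ) 1 ⊆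
    Icc (-1 + 2 * (i : ℝ) / (N + 1)) (-1 + 2 * ((i : ℝ) + 1) / (N + 1)) := by
  rintro t ⟨h1, h2, h3⟩
  rw [mem_preimage, mem_singleton_iff] at h1
  have hN : (0 : ℝ) < N + 1 := by positivity
  have h4 : min (⌊(t + 1) * (N + 1) / 2⌋₊) N = (i : ℕ) := congrArg Fin.val h1
  have h5 : 0 ≤ (t + 1) * (N + 1) / 2 := by
    have : 0 < t + 1 := by linarith
    positivity
  have h6 : ⌊(t + 1) * (N + 1) / 2⌋₊ ≤ N := by
    have : ⌊(t + 1) * (N + 1) / 2⌋₊ < N + 1 := by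
      rw [Nat.floor_lt h5]
      push_cast
      rw [div_lt_iff₀ two_pos]
      nlinarith
    omega
  rw [min_eq_left h6] at h4
  have h7 : ((i : ℕ) : ℝ) ≤ (t + 1) * (N + 1) / 2 := by rw [← h4]; exact Nat.floor_le h5
  have h8 : (t + 1) * (N + 1) / 2 < (i : ℕ) + 1 := by rw [← h4]; exact Nat.lt_floor_add_one _
  constructor
  · have : 2 * ((i : ℕ) : ℝ) / (N + 1) ≤ t + 1 := by
      rw [div_le_iff₀ hN]; linarith
    linarith
  · have : t + 1 ≤ 2 * (((i : ℕ) : ℝ) + 1) / (N + 1) := by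
      rw [le_div_iff₀ hN]; linarith
    linarith

theorem rho_small (m : ℕ) (hm : 2 ≤ m) (δ : ℝ≥0∞) (hδ : δ ≠ 0) : ∃ N : ℕ, ∀ i : Fin (N + 1),
    rho m (kap N ⁻¹' {i}) ≤ δ := by
  have hf := rho_fin m hm
  have h0 : ∫⁻ x, ENNReal.ofReal ((1 - x ^ 2) ^ (((m : ℝ) - 2) / 2))
      ∂(volume.restrict (Ioo (-1 : ℝ) 1)) ≠ ⊤ := by
    have h1 : rho m univ ≠ ⊤ := measure_ne_top _ _
    unfold rho at h1
    rwa [withDensity_apply _ MeasurableSet.univ, Measure.restrict_univ] at h1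
  obtain ⟨d, hd, h⟩ := exists_pos_setLIntegral_lt_of_measure_lt h0 hδ
  obtain ⟨N, hN⟩ : ∃ N : ℕ, ENNReal.ofReal (2 / ((N : ℝ) + 1)) < d := by
    rcases eq_or_ne d ⊤ with rfl | hd'
    · exact ⟨0, ENNReal.ofReal_lt_top⟩
    · have hd1 : 0 < d.toReal := ENNReal.toReal_pos hd.ne' hd'
      obtain ⟨N, hN⟩ := exists_nat_gt (2 / d.toReal)
      refine ⟨N, ?_⟩
      rw [ENNReal.ofReal_lt_iff_lt_toReal (by positivity) hd']
      rw [div_lt_iff₀ hd1] at hN
      rw [div_lt_iff₀ (by positivity)]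
      nlinarith
  refine ⟨N, fun i => ?_⟩
  have hm1 : MeasurableSet (kap N ⁻¹' {i}) := kap_meas N (measurableSet_singleton i)
  unfold rho
  rw [withDensity_apply _ hm1]
  refine (h _ ?_).le
  rw [Measure.restrict_apply hm1]
  refine lt_of_le_of_lt (measure_mono (kap_sub N i)) ?_
  rw [Real.volume_Icc]
  convert hN using 2
  ring

theorem slabs (n : ℕ) (hn : 3 ≤ n) : ∃ e : E n, ‖e‖ = 1 ∧ ∀ δ : ℝ≥0∞, δ ≠ 0 →
    ∃ N : ℕ, ∀ i : Fin (N + 1),
      sigma n {x | kap N (⟪e, (x : E n)⟫ : ℝ) = i} ≤ δ := by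
  obtain ⟨m, rfl⟩ : ∃ m, n = 1 + m := ⟨n - 1, by omega⟩
  refine ⟨J e0 (0 : E m), J_norm m, fun δ hδ => ?_⟩
  have f1 : IsFiniteMeasure (sg m) := sg_finite _
  have hS : sg m univ ≠ ⊤ := measure_ne_top _ _
  obtain ⟨N, hN⟩ := rho_small m (by omega) (δ / (sg m univ + 1)) (by
    simp only [ne_eq, ENNReal.div_eq_zero_iff, hδ, false_or]
    exact ENNReal.add_ne_top.2 ⟨hS, ENNReal.one_ne_top⟩)
  refine ⟨N, fun i => ?_⟩
  have hm1 : MeasurableSet (kap N ⁻¹' {i}) := kap_meas N (measurableSet_singleton i)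
  have hmeas : Measurable (fun z : E (1 + m) => (⟪J e0 (0 : E m), z⟫ : ℝ)) := by fun_prop
  have h1 : sigma (1 + m) {x | kap N (⟪J e0 (0 : E m), (x : E (1 + m))⟫ : ℝ) = i} =
      Measure.map (fun z : E (1 + m) => (⟪J e0 (0 : E m), z⟫ : ℝ)) (sg (1 + m))
        (kap N ⁻¹' {i}) := by
    rw [Measure.map_apply hmeas hm1]
    unfold sg
    rw [Measure.map_apply measurable_subtype_coe (hmeas hm1)]
    rfl
  rw [h1, map_coord m (by omega), Measure.smul_apply, smul_eq_mul]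
  calc sg m univ * rho m (kap N ⁻¹' {i}) ≤ (sg m univ + 1) * (δ / (sg m univ + 1)) :=
        mul_le_mul' le_self_add (hN i)
    _ ≤ δ := ENNReal.mul_div_le

end Pool.Agent.X93.ST.Slab
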