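import Mathlib
import Pool.Agent.X93.ST.Corr
set_option autoImplicit false

/-! Choice of the multiplier. -/

namespace Pool.Agent.X93.ST

open MeasureTheory Set Metric Complex
open scoped ENNReal NNReal RealInnerProductSpace
open Pool.Agent.Results.MP_6cbfb8_an.RidgeDensities (sigma ft)
open Slab (kap kap_meas slabs)

theorem sum_coord {Ω : Type} [Fintype Ω] {N : ℕ} (ζ : Ω → ℝ) (h0 : ∑ w, ζ w = 0) (i : Fin N) :
    ∑ z : Fin N → Ω, ζ (z i) = 0 := by
  classical
  have h := Finset.prod_univ_sum (fun _ : Fin N => (Finset.univ : Finset Ω))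
    (fun k w => if k = i then ζ w else 1)
  rw [Finset.prod_eq_zero (Finset.mem_univ i) (by simpa using h0), Fintype.piFinset_univ] at h
  rw [h]
  refine Finset.sum_congr rfl fun z _ => ?_
  rw [Finset.prod_ite_eq' Finset.univ i (fun k => ζ (z k))]
  simp

theorem sig_pos (n : ℕ) (hn : 1 ≤ n) : 0 < (sigma n).real univ := by
  have h := Pool.Agent.Helper36.SphMeas.toSphere_univ_ne_zero (d := n) (by omega)
  exact ENNReal.toReal_pos h (measure_ne_top _ _)

theorem pick (n : ℕ) (hn : 3 ≤ n) (p : ℝ) (hp1 : 2 * (n : ℝ) / (n - 1) < p) (hp2 : p ≤ 4)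
    (e : E n) (he : ‖e‖ = 1)
    (hs : ∀ δ : ℝ≥0∞, δ ≠ 0 → ∃ N : ℕ, ∀ i : Fin (N + 1),
      sigma n {x | kap N (⟪e, (x : E n)⟫ : ℝ) = i} ≤ δ)
    {L : ℕ} (c : Fin L → ℂ) (η : Fin L → E n) (m : ℕ) (hm : 2 ≤ m) (τ : ℝ) (hτ : 0 < τ) :
    ∃ F : ℝ → ℂ, Measurable F ∧ (∀ t, ‖F t‖ ≤ m) ∧
      sigma n {x | F (⟪e, (x : E n)⟫ : ℝ) ≠ 1} ≤ ENNReal.ofReal (2 * (sigma n).real univ / m) ∧
      ∫⁻ ξ, ‖ft (tr c η e F) ξ‖ₑ ^ p ≤ ENNReal.ofReal τ := by
  obtain ⟨N, hN⟩ := average n hn p hp1 hp2 e he hs c η m hm (τ / 2) (by positivity)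
  set S : ℝ := (sigma n).real univ with hS
  have hS0 : 0 < S := sig_pos n (by omega)
  have hmR : (2 : ℝ) ≤ m := by exact_mod_cast hm
  have hM0 : (0 : ℝ) < (m : ℝ) ^ (N + 1) := by positivity
  set v : (Fin (N + 1) → Fin m) → ℝ := fun z =>
    (∫⁻ ξ, ‖ft (tr c η e (Fz m N z)) ξ‖ₑ ^ p).toReal with hv
  set s : Fin (N + 1) → ℝ := fun i =>
    (sigma n).real {x | kap N (⟪e, (x : E n)⟫ : ℝ) = i} with hs'
  set u : (Fin (N + 1) → Fin m) → ℝ := fun z => ∑ i, s i * ((1 - zet m (z i)) / m) with hu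
  have hmsi : ∀ i : Fin (N + 1),
      MeasurableSet {x : sphere (0 : E n) 1 | kap N (⟪e, (x : E n)⟫ : ℝ) = i} := by
    intro i
    have h2 : Measurable fun x : sphere (0 : E n) 1 => (⟪e, (x : E n)⟫ : ℝ) := by fun_prop
    exact ((kap_meas N).comp h2) (measurableSet_singleton i)
  have hsumS : ∑ i : Fin (N + 1), s i = S := by
    rw [hS, hs']
    simp only
    rw [← measureReal_biUnion_finset]
    · congr 1
      ext x
      simp
    · intro i _ j _ hij
      refine Set.disjoint_left.2 fun x h1 h2 => hij ?_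
      rw [mem_ofPred_eq] at h1 h2
      rw [← h1, ← h2]
    · exact fun i _ => hmsi i
  have hcardz : ((Finset.univ : Finset (Fin (N + 1) → Fin m)).card : ℝ) = (m : ℝ) ^ (N + 1) := by
    rw [Finset.card_univ, Fintype.card_pi]
    simp
  have hne : Nonempty (Fin m) := ⟨⟨0, by omega⟩⟩
  have hfin : ∀ z : Fin (N + 1) → Fin m, ∫⁻ ξ, ‖ft (tr c η e (Fz m N z)) ξ‖ₑ ^ p ≠ ⊤ := by
    intro z
    have h1 : ∫⁻ ξ, ‖ft (tr c η e (Fz m N z)) ξ‖ₑ ^ p ≤
        ∑ z : Fin (N + 1) → Fin m, ∫⁻ ξ, ‖ft (tr c η e (Fz m N z)) ξ‖ₑ ^ p :=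
      Finset.single_le_sum (f := fun z : Fin (N + 1) → Fin m =>
        ∫⁻ ξ, ‖ft (tr c η e (Fz m N z)) ξ‖ₑ ^ p) (fun _ _ => zero_le) (Finset.mem_univ z)
    exact ne_top_of_le_ne_top ENNReal.ofReal_ne_top (h1.trans hN)
  have hsv : ∑ z, v z ≤ (m : ℝ) ^ (N + 1) * (τ / 2) := by
    rw [hv]
    simp only
    rw [← ENNReal.toReal_sum fun z _ => hfin z]
    exact ENNReal.toReal_le_of_le_ofReal (by positivity) hN
  have hsu : ∑ z, u z = (m : ℝ) ^ (N + 1) * (S / m) := by
    rw [hu]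
    simp only
    rw [Finset.sum_comm]
    have h1 : ∀ i : Fin (N + 1), ∑ z : Fin (N + 1) → Fin m, s i * ((1 - zet m (z i)) / m) =
        s i * ((m : ℝ) ^ (N + 1) / m) := by
      intro i
      rw [← Finset.mul_sum, ← Finset.sum_div, Finset.sum_sub_distrib,
        sum_coord (zet m) (zet_sum m (by omega)) i, Finset.sum_const, nsmul_eq_mul, hcardz]
      ring
    rw [Finset.sum_congr rfl fun i _ => h1 i, ← Finset.sum_mul, hsumS]
    ring
  obtain ⟨z, -, hz⟩ := Finset.exists_le_of_sum_le (s := (Finset.univ :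
    Finset (Fin (N + 1) → Fin m))) (f := fun z => u z * (m / (2 * S)) + v z / τ)
    (g := fun _ => (1 : ℝ)) Finset.univ_nonempty (by
      rw [Finset.sum_add_distrib, ← Finset.sum_mul, ← Finset.sum_div, hsu, Finset.sum_const,
        nsmul_eq_mul, hcardz]
      have h2 : (∑ z, v z) / τ ≤ (m : ℝ) ^ (N + 1) / 2 := by
        rw [div_le_iff₀ hτ]
        calc _ ≤ _ := hsv
          _ = _ := by ring
      have h3 : (m : ℝ) ^ (N + 1) * (S / m) * (m / (2 * S)) = (m : ℝ) ^ (N + 1) / 2 := by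
        field_simp
      rw [h3]
      linarith)
  have hsi0 : ∀ i, 0 ≤ s i := fun i => measureReal_nonneg
  have hfac : ∀ w : Fin m, 0 ≤ (1 - zet m w) / m := by
    intro w
    unfold zet
    split_ifs
    · apply div_nonneg <;> linarith
    · simp
  have hu0 : 0 ≤ u z := Finset.sum_nonneg fun i _ => mul_nonneg (hsi0 i) (hfac _)
  have hv0 : 0 ≤ v z := ENNReal.toReal_nonneg
  have hu1 : u z * (m / (2 * S)) ≤ 1 := by
    have : 0 ≤ v z / τ := by positivity
    linarith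
  have hv1 : v z / τ ≤ 1 := by
    have : 0 ≤ u z * (m / (2 * S)) := by positivity
    linarith
  refine ⟨Fz m N z, Fz_meas m N z, Fz_le m N hm z, ?_, ?_⟩
  · have h1 : {x : sphere (0 : E n) 1 | Fz m N z (⟪e, (x : E n)⟫ : ℝ) ≠ 1} ⊆
        ⋃ i ∈ (Finset.univ.filter fun i => ((z i : Fin m) : ℕ) = 0),
          {x : sphere (0 : E n) 1 | kap N (⟪e, (x : E n)⟫ : ℝ) = i} := by
      intro x hx
      rw [mem_ofPred_eq] at hx
      simp only [mem_iUnion, Finset.mem_filter, Finset.mem_univ, true_and, mem_ofPred_eq,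
        exists_prop]
      refine ⟨kap N ⟪e, (x : E n)⟫, ?_, rfl⟩
      by_contra h
      apply hx
      unfold Fz zet
      rw [if_neg h]
      simp
    have h2 : (sigma n).real {x : sphere (0 : E n) 1 | Fz m N z (⟪e, (x : E n)⟫ : ℝ) ≠ 1} ≤
        u z := by
      refine (measureReal_mono h1 (measure_ne_top _ _)).trans ?_
      refine (measureReal_biUnion_finset_le _ _).trans ?_
      rw [hu]
      simp only
      rw [Finset.sum_filter]
      refine Finset.sum_le_sum fun i _ => ?_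
      split_ifs with h
      · have : (1 - zet m (z i)) / m = 1 := by
          unfold zet
          rw [if_pos h]
          field_simp
          ring
        rw [this, mul_one]
      · exact mul_nonneg (hsi0 i) (hfac _)
    have h3 : u z ≤ 2 * S / m := by
      rw [le_div_iff₀ (by positivity)]
      have h4 : u z * (m / (2 * S)) * (2 * S) ≤ 1 * (2 * S) := by gcongr
      rw [mul_assoc, div_mul_cancel₀ _ (by positivity), one_mul] at h4
      exact h4
    rw [← ENNReal.ofReal_toReal (measure_ne_top (sigma n)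
      {x : sphere (0 : E n) 1 | Fz m N z (⟪e, (x : E n)⟫ : ℝ) ≠ 1})]
    exact ENNReal.ofReal_le_ofReal (h2.trans h3)
  · rw [← ENNReal.ofReal_toReal (hfin z)]
    apply ENNReal.ofReal_le_ofReal
    rw [div_le_iff₀ hτ, one_mul] at hv1
    exact hv1

end Pool.Agent.X93.ST
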