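import Mathlib
import Pool.Agent.X93.ST.Pick
import Pool.Agent.X93.ST.Dense
set_option autoImplicit false

/-! One step of the correction. -/

namespace Pool.Agent.X93.ST

open MeasureTheory Set Metric Complex
open scoped ENNReal NNReal RealInnerProductSpace
open Pool.Agent.Results.MP_6cbfb8_an.RidgeDensities (sigma ft)
open Slab (kap kap_meas slabs)

theorem sup_small {n : ℕ} (u : E n → ℂ) (Λ : ℝ) (hΛ : 0 < Λ)
    (hu : ∀ ξ ξ', ‖u ξ - u ξ'‖ ≤ Λ * ‖ξ - ξ'‖) (p : ℝ) (hp : 0 < p) (s : ℝ) (hs : 0 < s)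
    (h : ∫⁻ ξ, ‖u ξ‖ₑ ^ p < ENNReal.ofReal ((s / 2) ^ p) *
      volume (ball (0 : E n) (s / (2 * Λ)))) (ξ : E n) : ‖u ξ‖ ≤ s := by
  by_contra hc
  push Not at hc
  apply absurd h
  push Not
  have hvol : volume (ball (0 : E n) (s / (2 * Λ))) = volume (ball ξ (s / (2 * Λ))) := by
    rw [Measure.addHaar_ball_center, ← Measure.addHaar_ball_center volume ξ]
  rw [hvol, ← setLIntegral_const]
  calc ∫⁻ _x in ball ξ (s / (2 * Λ)), ENNReal.ofReal ((s / 2) ^ p)
      ≤ ∫⁻ x in ball ξ (s / (2 * Λ)), ‖u x‖ₑ ^ p := by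
        refine setLIntegral_mono' measurableSet_ball fun x hx => ?_
        rw [enorm_rpow _ hp.le]
        apply ENNReal.ofReal_le_ofReal
        refine Real.rpow_le_rpow (by positivity) ?_ hp.le
        rw [mem_ball, dist_eq_norm] at hx
        have h1 := hu ξ x
        have h2 : ‖u ξ‖ - ‖u x‖ ≤ ‖u ξ - u x‖ := norm_sub_norm_le _ _
        have h3 : Λ * ‖ξ - x‖ ≤ s / 2 := by
          rw [norm_sub_rev] at hx
          calc Λ * ‖ξ - x‖ ≤ Λ * (s / (2 * Λ)) := by gcongr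
            _ = s / 2 := by field_simp
        linarith
    _ ≤ _ := setLIntegral_le_lintegral _ _

theorem lp_all {n : ℕ} (u : E n → ℂ) (p : ℝ) (hp : 0 < p) (δ : ℝ) (hδ : 0 < δ)
    (hb : ∀ ξ, ‖u ξ‖ ≤ δ) (h : ∫⁻ ξ, ‖u ξ‖ₑ ^ p ≤ ENNReal.ofReal (δ ^ p))
    (r : ℝ≥0∞) (hr : ENNReal.ofReal p ≤ r) : eLpNorm u r volume ≤ ENNReal.ofReal δ := by
  rcases eq_or_ne r ⊤ with rfl | hr'
  · rw [eLpNorm_exponent_top]
    exact eLpNormEssSup_le_of_ae_bound (Filter.Eventually.of_forall hb)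
  have hr1 : p ≤ r.toReal := by
    rw [← ENNReal.ofReal_le_ofReal_iff ENNReal.toReal_nonneg, ENNReal.ofReal_toReal hr']
    exact hr
  have hr0 : r ≠ 0 := by
    intro h0
    rw [h0, ENNReal.toReal_zero] at hr1
    linarith
  rw [eLpNorm_eq_lintegral_rpow_enorm_toReal hr0 hr']
  have hR : 0 < r.toReal := by linarith
  have h1 : ∫⁻ ξ, ‖u ξ‖ₑ ^ r.toReal ≤ ENNReal.ofReal (δ ^ r.toReal) := by
    calc ∫⁻ ξ, ‖u ξ‖ₑ ^ r.toReal ≤ ∫⁻ ξ, ENNReal.ofReal (δ ^ (r.toReal - p)) * ‖u ξ‖ₑ ^ p := by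
          refine lintegral_mono fun ξ => ?_
          simp only
          rw [enorm_rpow _ hR.le, enorm_rpow _ hp.le, ← ENNReal.ofReal_mul (by positivity)]
          apply ENNReal.ofReal_le_ofReal
          calc ‖u ξ‖ ^ r.toReal = ‖u ξ‖ ^ (r.toReal - p) * ‖u ξ‖ ^ p := by
                rw [← Real.rpow_add_of_nonneg (norm_nonneg _) (by linarith) hp.le]
                congr 1; ring
            _ ≤ _ := by
                refine mul_le_mul_of_nonneg_right ?_ (by positivity)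
                exact Real.rpow_le_rpow (norm_nonneg _) (hb ξ) (by linarith)
      _ = ENNReal.ofReal (δ ^ (r.toReal - p)) * ∫⁻ ξ, ‖u ξ‖ₑ ^ p :=
          lintegral_const_mul' _ _ ENNReal.ofReal_ne_top
      _ ≤ ENNReal.ofReal (δ ^ (r.toReal - p)) * ENNReal.ofReal (δ ^ p) := by gcongr
      _ = _ := by
          rw [← ENNReal.ofReal_mul (by positivity), ← Real.rpow_add hδ]
          congr 2; ring
  calc (∫⁻ ξ, ‖u ξ‖ₑ ^ r.toReal) ^ (1 / r.toReal)
      ≤ (ENNReal.ofReal (δ ^ r.toReal)) ^ (1 / r.toReal) :=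
        ENNReal.rpow_le_rpow h1 (by positivity)
    _ = _ := by
        rw [ENNReal.ofReal_rpow_of_nonneg (by positivity) (by positivity),
          ← Real.rpow_mul hδ.le, mul_one_div_cancel hR.ne', Real.rpow_one]

theorem one_step (n : ℕ) (hn : 3 ≤ n) : ∃ C : ℝ, 0 < C ∧ ∀ p : ℝ, 2 * (n : ℝ) / (n - 1) < p →
    p ≤ 4 → ∀ M : ℝ, 0 < M → ∀ φ : sphere (0 : E n) 1 → ℂ, Measurable φ → (∀ x, ‖φ x‖ ≤ M) →
    ∀ ε : ℝ, 0 < ε → ε ≤ 1 → ∀ ρ : ℝ, 0 < ρ → ∀ δ : ℝ, 0 < δ →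
    ∃ h : sphere (0 : E n) 1 → ℂ, Measurable h ∧ (∀ x, ‖h x‖ ≤ C * M / ε) ∧
      sigma n {x | ρ < ‖φ x - h x‖} ≤ ENNReal.ofReal ε ∧
      (∀ r : ℝ, 2 * (n : ℝ) / (n - 1) < r → MemLp (ft h) (ENNReal.ofReal r)) ∧
      ∀ r : ℝ≥0∞, ENNReal.ofReal p ≤ r → eLpNorm (ft h) r volume ≤ ENNReal.ofReal δ := by
  obtain ⟨e, he, hs⟩ := slabs n hn
  set S : ℝ := (sigma n).real univ with hS
  have hS0 : 0 < S := sig_pos n (by omega)
  refine ⟨2 * (4 * S + 3), by positivity, ?_⟩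
  intro p hp1 hp2 M hM φ hφ hb ε hε hε1 ρ hρ δ hδ
  have hn1 : (1 : ℝ) < n := by exact_mod_cast (by omega : 1 < n)
  have hpc : 2 < 2 * (n : ℝ) / (n - 1) := by
    rw [lt_div_iff₀ (by linarith)]; linarith
  obtain ⟨L, c, η, hc1, hc2⟩ := approx φ hφ M hM hb ρ hρ (ε / 2) (by positivity)
  set m : ℕ := ⌈4 * S / ε⌉₊ + 2 with hm
  have hm2 : 2 ≤ m := by omega
  have hmR : (2 : ℝ) ≤ m := by exact_mod_cast hm2
  have hm3 : 4 * S / ε ≤ m := by
    rw [hm]; push_cast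
    linarith [Nat.le_ceil (4 * S / ε)]
  have hm4 : (m : ℝ) ≤ (4 * S + 3) / ε := by
    rw [hm]; push_cast
    have h1 := (Nat.ceil_lt_add_one (show 0 ≤ 4 * S / ε by positivity)).le
    have h2 : (3 : ℝ) ≤ 3 / ε := by
      rw [le_div_iff₀ hε]; linarith
    rw [add_div]
    linarith
  set B : ℝ := 2 * M * m with hB
  have hB0 : 0 < B := by positivity
  set Λ : ℝ := 2 * Real.pi * (B * S) with hΛ
  have hΛ0 : 0 < Λ := by positivity
  -- the size of the norm
  set s : ℝ := δ with hs'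
  have hv : 0 < (ENNReal.ofReal ((s / 2) ^ p) * volume (ball (0 : E n) (s / (2 * Λ)))).toReal := by
    apply ENNReal.toReal_pos
    · apply mul_ne_zero
      · simp; positivity
      · exact (measure_ball_pos volume _ (by positivity)).ne'
    · exact ENNReal.mul_ne_top ENNReal.ofReal_ne_top measure_ball_lt_top.ne
  set V : ℝ := (ENNReal.ofReal ((s / 2) ^ p) * volume (ball (0 : E n) (s / (2 * Λ)))).toReal
    with hV
  obtain ⟨F, hF, hFb, hF1, hF2⟩ := pick n hn p hp1 hp2 e he hs c η m hm2 (min (δ ^ p) (V / 2))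
    (lt_min (by positivity) (by positivity))
  have hmeas := tr_meas c η e hF
  have hbd : ∀ x, ‖tr c η e F x‖ ≤ B := by
    intro x
    unfold tr
    rw [norm_mul]
    exact mul_le_mul (hc1 x) (hFb _) (norm_nonneg _) (by positivity)
  have hint := int_of_bdd hmeas hbd
  refine ⟨tr c η e F, hmeas, ?_, ?_, ?_, ?_⟩
  · intro x
    refine (hbd x).trans ?_
    rw [hB]
    calc 2 * M * m ≤ 2 * M * ((4 * S + 3) / ε) := by gcongr
      _ = _ := by ring
  · have hsub : {x | ρ < ‖φ x - tr c η e F x‖} ⊆ {x | ρ < ‖φ x - trig c η x‖} ∪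
        {x | F (⟪e, (x : E n)⟫ : ℝ) ≠ 1} := by
      intro x hx
      rw [mem_union, mem_ofPred_eq, mem_ofPred_eq]
      rw [mem_ofPred_eq] at hx
      by_cases h1 : F (⟪e, (x : E n)⟫ : ℝ) = 1
      · left
        unfold tr at hx
        rw [h1, mul_one] at hx
        exact hx
      · right; exact h1
    refine (measure_mono hsub).trans ((measure_union_le _ _).trans ?_)
    have h3 : ENNReal.ofReal (2 * S / m) ≤ ENNReal.ofReal (ε / 2) := by
      apply ENNReal.ofReal_le_ofReal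
      rw [div_le_div_iff₀ (by positivity) (by positivity)]
      rw [div_le_iff₀ hε] at hm3
      linarith
    calc _ ≤ ENNReal.ofReal (ε / 2) + ENNReal.ofReal (ε / 2) := add_le_add hc2 (hF1.trans h3)
      _ = ENNReal.ofReal ε := by
        rw [← ENNReal.ofReal_add (by positivity) (by positivity)]
        congr 1; ring
  · intro r hr
    obtain ⟨C, hC, h⟩ := ridge n hn r hr
    exact (h L c η e he F hF m hFb).1
  · have hlip : ∀ ξ ξ', ‖ft (tr c η e F) ξ - ft (tr c η e F) ξ'‖ ≤ Λ * ‖ξ - ξ'‖ := by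
      intro ξ ξ'
      refine (ft_lip hint ξ ξ').trans ?_
      have h1 := int_norm_le hmeas hbd
      rw [hΛ]
      gcongr
    have hsup := sup_small (ft (tr c η e F)) Λ hΛ0 hlip p (by linarith) s hδ (by
      refine lt_of_le_of_lt hF2 ?_
      rw [← ENNReal.ofReal_toReal (a := ENNReal.ofReal ((s / 2) ^ p) *
        volume (ball (0 : E n) (s / (2 * Λ)))) (ENNReal.mul_ne_top ENNReal.ofReal_ne_top
          measure_ball_lt_top.ne), ← hV]
      rw [ENNReal.ofReal_lt_ofReal_iff hv]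
      refine lt_of_le_of_lt (min_le_right _ _) ?_
      linarith)
    intro r hr
    exact lp_all _ p (by linarith) δ hδ hsup
      (hF2.trans (ENNReal.ofReal_le_ofReal (min_le_left _ _))) r hr

end Pool.Agent.X93.ST
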