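import Mathlib
import Pool.Agent.X93.ST.Base
import Pool.Agent.X93.ST.Ridge
import Pool.Agent.H789R2.FR.L2
set_option autoImplicit false

/-! The Agmon-Hormander bound for square integrable densities. -/

namespace Pool.Agent.X93.ST

open MeasureTheory Set Metric Complex Filter Topology
open scoped ENNReal NNReal RealInnerProductSpace
open Pool.Agent.Results.MP_6cbfb8_an.RidgeDensities (sigma ft ft_eq scale)
open Pool.Agent.H789R2.FR (sg T sg_finite L2_bound)

theorem sq_enorm (z : ℂ) : ‖z‖ₑ ^ (2 : ℝ) = ENNReal.ofReal (‖z‖ ^ 2) := by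
  rw [← ofReal_norm, ENNReal.ofReal_rpow_of_nonneg (norm_nonneg _) (by norm_num)]
  norm_num

theorem AH_bdd (n : ℕ) (hn : 2 ≤ n) : ∃ C : ℝ, 0 < C ∧ ∀ g : sphere (0 : E n) 1 → ℂ,
    Measurable g → (∃ M : ℝ, ∀ x, ‖g x‖ ≤ M) → ∀ R : ℝ, 0 < R →
    ∫⁻ ξ in ball (0 : E n) R, ‖ft g ξ‖ₑ ^ (2 : ℝ) ≤
      ENNReal.ofReal (C * R) * ∫⁻ x, ‖g x‖ₑ ^ (2 : ℝ) ∂(sigma n) := by
  obtain ⟨C, hC, h⟩ := L2_bound n hn
  have hsf : IsFiniteMeasure (sg n) := sg_finite n
  refine ⟨Real.exp 1 * (C * (2 * Real.pi)), by positivity, ?_⟩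
  rintro g hg ⟨M, hM⟩ R hR
  set G : E n → ℂ := Function.extend Subtype.val g 0 with hG
  have hemb : MeasurableEmbedding (Subtype.val : sphere (0 : E n) 1 → E n) :=
    MeasurableEmbedding.subtype_coe Metric.isClosed_sphere.measurableSet
  have hGm : Measurable G := hemb.measurable_extend hg measurable_const
  have hGe : ∀ x : sphere (0 : E n) 1, G (x : E n) = g x := fun x =>
    Subtype.val_injective.extend_apply g 0 x
  have hGb : ∀ w, ‖G w‖ ≤ M := by
    intro w
    by_cases hw : ∃ x : sphere (0 : E n) 1, (x : E n) = w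
    · obtain ⟨x, rfl⟩ := hw
      rw [hGe]; exact hM x
    · rw [hG, Function.extend_apply' _ _ _ hw]
      simp only [Pi.zero_apply, norm_zero]
      rcases isEmpty_or_nonempty (sphere (0 : E n) 1) with he | ⟨⟨x⟩⟩
      · exfalso
        have : Nonempty (Fin n) := ⟨⟨0, by omega⟩⟩
        have h1 : (sphere (0 : E n) 1).Nonempty :=
          NormedSpace.sphere_nonempty.2 zero_le_one
        exact he.elim ⟨h1.some, h1.some_mem⟩
      · exact (norm_nonneg _).trans (hM x)
  have hft : ∀ ξ, ft g ξ = T G ((2 * Real.pi) • ξ) := fun ξ =>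
    ft_eq g G hGm (LinearIsometryEquiv.refl ℝ (E n))
      (Eventually.of_forall fun x => (hGe x).symm) ξ
  set l : ℝ := 2 * Real.pi * R with hl
  have hpi := Real.pi_pos
  have hl0 : 0 < l := by positivity
  set f : E n → ℝ≥0∞ := fun x => ENNReal.ofReal (Real.exp (-‖x - 0‖ ^ 2 / l ^ 2) * ‖T G x‖ ^ 2)
    with hf
  have hTm : Measurable (T G) := Pool.Agent.H438R2.PD.T_meas' G hGm
  have hfm : Measurable f := by
    refine Measurable.ennreal_ofReal (Measurable.mul ?_ (hTm.norm.pow_const 2))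
    fun_prop
  have hT : ∀ x, ‖T G x‖ ≤ M * (sg n).real univ := fun x =>
    Pool.Agent.H789R2.FR.L2.norm_T_le G M hGb x
  calc ∫⁻ ξ in ball (0 : E n) R, ‖ft g ξ‖ₑ ^ (2 : ℝ)
      ≤ ∫⁻ ξ in ball (0 : E n) R, ENNReal.ofReal (Real.exp 1) * f ((2 * Real.pi) • ξ) := by
        refine setLIntegral_mono' measurableSet_ball fun ξ hξ => ?_
        rw [sq_enorm, hft, hf]
        simp only
        rw [← ENNReal.ofReal_mul (by positivity)]
        apply ENNReal.ofReal_le_ofReal
        rw [mem_ball_zero_iff] at hξ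
        have h1 : ‖(2 * Real.pi) • ξ - 0‖ ^ 2 / l ^ 2 ≤ 1 := by
          rw [sub_zero, norm_smul, Real.norm_eq_abs, abs_of_pos (by positivity), hl]
          rw [div_le_one (by positivity)]
          gcongr
        have h2 : 1 ≤ Real.exp 1 * Real.exp (-‖(2 * Real.pi) • ξ - 0‖ ^ 2 / l ^ 2) := by
          rw [← Real.exp_add]
          apply Real.one_le_exp
          rw [neg_div]
          linarith
        rw [← mul_assoc]
        exact le_mul_of_one_le_left (by positivity) h2
    _ ≤ ∫⁻ ξ, ENNReal.ofReal (Real.exp 1) * f ((2 * Real.pi) • ξ) := setLIntegral_le_lintegral _ _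
    _ = ENNReal.ofReal (Real.exp 1) * (ENNReal.ofReal ((2 * Real.pi) ^ n)⁻¹ * ∫⁻ z, f z) := by
        rw [lintegral_const_mul' _ _ ENNReal.ofReal_ne_top, scale f hfm]
    _ ≤ ENNReal.ofReal (Real.exp 1) * (1 * ∫⁻ z, f z) := by
        gcongr
        rw [ENNReal.ofReal_le_one]
        apply inv_le_one_of_one_le₀
        apply one_le_pow₀
        linarith [Real.pi_gt_three]
    _ ≤ ENNReal.ofReal (Real.exp 1) * ENNReal.ofReal (C * l * ∫ w, ‖G w‖ ^ 2 ∂(sg n)) := by
        rw [one_mul]
        gcongr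
        rw [hf, ← ofReal_integral_eq_lintegral_ofReal]
        · exact ENNReal.ofReal_le_ofReal (h G hGm ⟨M, hGb⟩ l hl0 0)
        · have hW := Pool.Agent.H789R2.FR.L2.integrable_W (n := n) hl0
          have h1 : Integrable (fun x : E n => Real.exp (-‖x - 0‖ ^ 2 / l ^ 2)) := by
            refine hW.congr (Eventually.of_forall fun x => ?_)
            simp only [Pool.Agent.H789R2.FR.L2.W, sub_zero]
          refine h1.mul_bdd (c := (M * (sg n).real univ) ^ 2)
            (hTm.norm.pow_const 2).aestronglyMeasurable (Eventually.of_forall fun x => ?_)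
          rw [Real.norm_eq_abs, abs_of_nonneg (by positivity)]
          exact pow_le_pow_left₀ (norm_nonneg _) (hT x) 2
        · exact Eventually.of_forall fun x => by positivity
    _ = _ := by
        have h3 : ∫ w, ‖G w‖ ^ 2 ∂(sg n) = ∫ x, ‖g x‖ ^ 2 ∂(sigma n) := by
          unfold sg
          rw [integral_map measurable_subtype_coe.aemeasurable
            (hGm.norm.pow_const 2).aestronglyMeasurable]
          refine integral_congr_ae (Eventually.of_forall fun x => ?_)
          simp only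
          rw [hGe]
        have h4 : ENNReal.ofReal (∫ x, ‖g x‖ ^ 2 ∂(sigma n)) =
            ∫⁻ x, ‖g x‖ₑ ^ (2 : ℝ) ∂(sigma n) := by
          rw [ofReal_integral_eq_lintegral_ofReal]
          · refine lintegral_congr fun x => ?_
            rw [sq_enorm]
          · refine Integrable.of_bound (hg.norm.pow_const 2).aestronglyMeasurable (M ^ 2)
              (Eventually.of_forall fun x => ?_)
            rw [Real.norm_eq_abs, abs_of_nonneg (by positivity)]
            exact pow_le_pow_left₀ (norm_nonneg _) (hM x) 2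
          · exact Eventually.of_forall fun x => by positivity
        rw [h3, ← h4, ← ENNReal.ofReal_mul (by positivity), ← ENNReal.ofReal_mul (by positivity)]
        congr 1
        rw [hl]; ring

theorem ft_congr {n : ℕ} {g g' : sphere (0 : E n) 1 → ℂ} (h : g =ᵐ[sigma n] g') : ft g = ft g' := by
  funext ξ
  unfold ft
  refine integral_congr_ae ?_
  filter_upwards [h] with x hx
  rw [hx]

theorem AH (n : ℕ) (hn : 2 ≤ n) : ∃ C : ℝ, 0 < C ∧ ∀ g : sphere (0 : E n) 1 → ℂ,
    MemLp g 2 (sigma n) → ∀ R : ℝ, 0 < R →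
    ∫⁻ ξ in ball (0 : E n) R, ‖ft g ξ‖ₑ ^ (2 : ℝ) ≤
      ENNReal.ofReal (C * R) * ∫⁻ x, ‖g x‖ₑ ^ (2 : ℝ) ∂(sigma n) := by
  obtain ⟨C, hC, h⟩ := AH_bdd n hn
  refine ⟨C, hC, fun g0 hg0 R hR => ?_⟩
  -- measurable representative
  set g := hg0.1.mk g0 with hgdef
  have hgm : Measurable g := hg0.1.stronglyMeasurable_mk.measurable
  have hae : g0 =ᵐ[sigma n] g := hg0.1.ae_eq_mk
  have hg : MemLp g 2 (sigma n) := hg0.ae_eq hae
  rw [ft_congr hae]
  have hint0 : ∫⁻ x, ‖g0 x‖ₑ ^ (2 : ℝ) ∂(sigma n) = ∫⁻ x, ‖g x‖ₑ ^ (2 : ℝ) ∂(sigma n) := by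
    refine lintegral_congr_ae ?_
    filter_upwards [hae] with x hx
    rw [hx]
  rw [hint0]
  have hgi : Integrable g (sigma n) := hg.integrable (by norm_num)
  set gk : ℕ → sphere (0 : E n) 1 → ℂ := fun k x => if ‖g x‖ ≤ k then g x else 0 with hgk
  have hgkm : ∀ k, Measurable (gk k) := fun k =>
    Measurable.ite (measurableSet_le hgm.norm measurable_const) hgm measurable_const
  have hgkb : ∀ k x, ‖gk k x‖ ≤ k := by
    intro k x
    simp only [hgk]
    split_ifs with h
    · exact h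
    · rw [norm_zero]; positivity
  have hgkle : ∀ k x, ‖gk k x‖ ≤ ‖g x‖ := by
    intro k x
    simp only [hgk]
    split_ifs with h
    · exact le_rfl
    · rw [norm_zero]; positivity
  have hlim : ∀ x, Tendsto (fun k => gk k x) atTop (𝓝 (g x)) := by
    intro x
    refine tendsto_const_nhds.congr' ?_
    obtain ⟨K, hK⟩ := exists_nat_ge ‖g x‖
    filter_upwards [eventually_ge_atTop K] with k hk
    simp only [hgk]
    rw [if_pos (hK.trans (by exact_mod_cast hk))]
  have hlimft : ∀ ξ, Tendsto (fun k => ft (gk k) ξ) atTop (𝓝 (ft g ξ)) := by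
    intro ξ
    unfold ft
    refine tendsto_integral_of_dominated_convergence (fun x => ‖g x‖) ?_ hgi.norm ?_ ?_
    · intro k
      exact (ker_int (int_of_bdd (hgkm k) (hgkb k)) ξ).aestronglyMeasurable
    · intro k
      refine Eventually.of_forall fun x => ?_
      rw [norm_mul, ker_norm, one_mul]
      exact hgkle k x
    · refine Eventually.of_forall fun x => ?_
      exact (hlim x).const_mul _
  have hcont : ∀ k, Continuous (ft (gk k)) := fun k => ft_cont (int_of_bdd (hgkm k) (hgkb k))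
  calc ∫⁻ ξ in ball (0 : E n) R, ‖ft g ξ‖ₑ ^ (2 : ℝ)
      = ∫⁻ ξ in ball (0 : E n) R, liminf (fun k => ‖ft (gk k) ξ‖ₑ ^ (2 : ℝ)) atTop := by
        refine lintegral_congr fun ξ => ?_
        have h1 : Tendsto (fun k => ‖ft (gk k) ξ‖ₑ ^ (2 : ℝ)) atTop (𝓝 (‖ft g ξ‖ₑ ^ (2 : ℝ))) :=
          ((ENNReal.continuous_rpow_const.tendsto _).comp
            ((continuous_enorm.tendsto _).comp (hlimft ξ)))
        exact h1.liminf_eq.symm
    _ ≤ liminf (fun k => ∫⁻ ξ in ball (0 : E n) R, ‖ft (gk k) ξ‖ₑ ^ (2 : ℝ)) atTop :=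
        lintegral_liminf_le fun k => (hcont k).measurable.enorm.pow_const _
    _ ≤ _ := by
        refine liminf_le_of_frequently_le' ?_
        refine (Eventually.of_forall fun k => ?_).frequently
        refine (h (gk k) (hgkm k) ⟨k, hgkb k⟩ R hR).trans ?_
        gcongr with x
        rw [← ofReal_norm, ← ofReal_norm]
        exact ENNReal.ofReal_le_ofReal (hgkle k x)

end Pool.Agent.X93.ST
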