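import Mathlib
set_option autoImplicit false

/-! The dimension of a limsup set by counting separated points. -/

namespace Pool.Agent.X93.ST

open MeasureTheory Set Metric Filter Topology
open scoped ENNReal NNReal

/-- separated finite sets -/
def SepF {X : Type} [MetricSpace X] (ρ : ℝ) (F : Finset X) : Prop :=
  ∀ x ∈ F, ∀ y ∈ F, x ≠ y → ρ ≤ dist x y

theorem exists_net {X : Type} [MetricSpace X] (S : Set X) (ρ : ℝ) (hρ : 0 ≤ ρ) (N : ℝ)
    (h : ∀ F : Finset X, ↑F ⊆ S → SepF ρ F → (F.card : ℝ) ≤ N) :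
    ∃ F : Finset X, (F.card : ℝ) ≤ N ∧ S ⊆ ⋃ x ∈ F, closedBall x ρ := by
  classical
  set A : Set ℕ := {k | ∃ F : Finset X, ↑F ⊆ S ∧ SepF ρ F ∧ F.card = k} with hA
  have hne : A.Nonempty := ⟨0, ∅, by simp, by intro x hx; simp at hx, rfl⟩
  have hbd : BddAbove A := by
    refine ⟨⌊N⌋₊, ?_⟩
    rintro k ⟨F, h1, h2, h3⟩
    have h4 := h F h1 h2
    rw [h3] at h4
    exact Nat.le_floor h4
  obtain ⟨F, h1, h2, h3⟩ := Nat.sSup_mem hne hbd
  refine ⟨F, h F h1 h2, fun x hx => ?_⟩
  by_contra hc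
  simp only [mem_iUnion, mem_closedBall, not_exists, not_le] at hc
  have hxF : x ∉ F := by
    intro hxF
    have := hc x hxF
    rw [dist_self] at this
    linarith
  have h4 : (insert x F).card ∈ A := by
    refine ⟨insert x F, ?_, ?_, rfl⟩
    · rw [Finset.coe_insert]
      exact insert_subset hx h1
    · intro a ha b hb hab
      rw [Finset.mem_insert] at ha hb
      rcases ha with rfl | ha <;> rcases hb with rfl | hb
      · exact absurd rfl hab
      · exact (hc b hb).le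
      · rw [dist_comm]; exact (hc a ha).le
      · exact h2 a ha b hb hab
  have h5 := le_csSup hbd h4
  rw [Finset.card_insert_of_notMem hxF, h3] at h5
  omega

theorem dim_sep {X : Type} [MetricSpace X] [MeasurableSpace X] [BorelSpace X]
    (S : ℕ → Set X) (C e : ℝ) (he : 0 ≤ e)
    (h : ∀ j, ∀ F : Finset X, ↑F ⊆ S j → SepF ((1 / 2) ^ j) F →
      (F.card : ℝ) ≤ C * (2 ^ j) ^ e) :
    dimH {x | ∃ᶠ j in atTop, x ∈ S j} ≤ ENNReal.ofReal e := by
  refine ENNReal.le_of_forall_pos_le_add fun ε hε _ => ?_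
  set s : ℝ≥0 := Real.toNNReal e + ε with hs
  have hsR : (s : ℝ) = e + ε := by
    rw [hs, NNReal.coe_add, Real.coe_toNNReal _ he]
  have hε' : (0 : ℝ) < ε := hε
  have hs0 : 0 < (s : ℝ) := by rw [hsR]; linarith
  have e1 : ENNReal.ofReal e + ε = (s : ℝ≥0∞) := by
    rw [hs, ENNReal.coe_add]; rfl
  rw [e1]
  apply dimH_le_of_hausdorffMeasure_ne_top
  have hC : 0 ≤ C := by
    have h1 := h 0 ∅ (by simp) (by intro x hx; simp at hx)
    simpa using h1
  have hnet : ∀ j, ∃ F : Finset X, (F.card : ℝ) ≤ C * (2 ^ j) ^ e ∧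
      S j ⊆ ⋃ x ∈ F, closedBall x ((1 / 2) ^ j) := fun j =>
    exists_net (S j) _ (by positivity) _ (h j)
  choose F hF1 hF2 using hnet
  set t : ∀ _n : ℕ, (Σ j : ℕ, F j) → Set X := fun n p =>
    if n ≤ p.1 then closedBall (p.2 : X) ((1 / 2) ^ p.1) else ∅ with ht
  have hdiam : ∀ (j : ℕ) (x : X), ediam (closedBall x ((1 / 2 : ℝ) ^ j)) ≤
      ENNReal.ofReal (2 * (1 / 2) ^ j) := by
    intro j x
    refine Metric.ediam_le fun a ha b hb => ?_
    rw [edist_dist]
    apply ENNReal.ofReal_le_ofReal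
    rw [mem_closedBall] at ha hb
    have h1 := dist_triangle_right a b x
    linarith
  have hcov : ∀ n, {x | ∃ᶠ j in atTop, x ∈ S j} ⊆ ⋃ p, t n p := by
    intro n x hx
    obtain ⟨j, hj, hxj⟩ := frequently_atTop.1 hx n
    obtain ⟨y, hy⟩ := mem_iUnion.1 (hF2 j hxj)
    obtain ⟨hyF, hxy⟩ := mem_iUnion.1 hy
    refine mem_iUnion.2 ⟨⟨j, ⟨y, hyF⟩⟩, ?_⟩
    simp only [ht]
    rw [if_pos hj]
    exact hxy
  have hH := Measure.hausdorffMeasure_le_liminf_tsum (s : ℝ) {x | ∃ᶠ j in atTop, x ∈ S j}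
    (l := atTop) (fun n : ℕ => ENNReal.ofReal (2 * (1 / 2) ^ n)) ?_ t ?_
    (Eventually.of_forall hcov)
  · refine ne_top_of_le_ne_top ?_ hH
    set ρ : ℝ := (1 / 2) ^ (ε : ℝ) with hρ
    have hρ0 : 0 < ρ := by positivity
    have hρ1 : ρ < 1 := Real.rpow_lt_one (by norm_num) (by norm_num) hε'
    set K : ℝ≥0∞ := ∑' j : ℕ, ENNReal.ofReal (C * 2 ^ (s : ℝ) * ρ ^ j) with hK
    have hKt : K ≠ ⊤ := by
      rw [hK, ← ENNReal.ofReal_tsum_of_nonneg (fun j => by positivity)
        ((summable_geometric_of_lt_one hρ0.le hρ1).mul_left _)]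
      exact ENNReal.ofReal_ne_top
    refine ne_top_of_le_ne_top hKt ?_
    refine liminf_le_of_frequently_le' (Eventually.of_forall fun n => ?_).frequently
    rw [ENNReal.tsum_sigma']
    refine ENNReal.tsum_le_tsum fun j => ?_
    have h1 : ∀ x : F j, ediam (t n ⟨j, x⟩) ^ (s : ℝ) ≤
        ENNReal.ofReal ((2 * (1 / 2) ^ j) ^ (s : ℝ)) := by
      intro x
      rw [← ENNReal.ofReal_rpow_of_nonneg (by positivity) hs0.le]
      apply ENNReal.rpow_le_rpow _ hs0.le
      simp only [ht]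
      split_ifs
      · exact hdiam j x
      · rw [Metric.ediam_empty]; exact zero_le
    calc ∑' x : F j, ediam (t n ⟨j, x⟩) ^ (s : ℝ)
        ≤ ∑' _x : F j, ENNReal.ofReal ((2 * (1 / 2) ^ j) ^ (s : ℝ)) :=
          ENNReal.tsum_le_tsum h1
      _ = (F j).card * ENNReal.ofReal ((2 * (1 / 2) ^ j) ^ (s : ℝ)) := by
          rw [tsum_fintype, Finset.sum_const, Finset.card_univ, nsmul_eq_mul, Fintype.card_coe]
      _ = ENNReal.ofReal ((F j).card * (2 * (1 / 2) ^ j) ^ (s : ℝ)) := by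
          rw [ENNReal.ofReal_mul (by positivity), ENNReal.ofReal_natCast]
      _ ≤ _ := by
          apply ENNReal.ofReal_le_ofReal
          calc ((F j).card : ℝ) * (2 * (1 / 2) ^ j) ^ (s : ℝ)
              ≤ (C * (2 ^ j) ^ e) * (2 * (1 / 2) ^ j) ^ (s : ℝ) := by
                gcongr; exact hF1 j
            _ = C * 2 ^ (s : ℝ) * ρ ^ j := by
                rw [Real.mul_rpow (by norm_num) (by positivity), hρ, hsR]
                have h2 : ((2 : ℝ) ^ j) ^ e * ((1 / 2 : ℝ) ^ j) ^ (e + (ε : ℝ)) =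
                    ((1 / 2 : ℝ) ^ (ε : ℝ)) ^ j := by
                  rw [Real.rpow_add (by positivity), ← mul_assoc,
                    ← Real.mul_rpow (by positivity) (by positivity), ← mul_pow]
                  norm_num
                  rw [← Real.rpow_natCast, ← Real.rpow_natCast, ← Real.rpow_mul (by norm_num),
                    ← Real.rpow_mul (by norm_num), mul_comm]
                calc _ = C * 2 ^ (e + (ε : ℝ)) *
                      (((2 : ℝ) ^ j) ^ e * ((1 / 2 : ℝ) ^ j) ^ (e + (ε : ℝ))) := by ring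
                  _ = _ := by rw [h2]
  · have h1 : Tendsto (fun n : ℕ => (2 : ℝ) * (1 / 2) ^ n) atTop (𝓝 (2 * 0)) :=
      (tendsto_pow_atTop_nhds_zero_of_lt_one (by norm_num) (by norm_num)).const_mul 2
    rw [mul_zero] at h1
    have h2 := (ENNReal.continuous_ofReal.tendsto 0).comp h1
    rw [ENNReal.ofReal_zero] at h2
    exact h2
  · refine Eventually.of_forall fun n p => ?_
    simp only [ht]
    split_ifs with hn
    · refine (hdiam _ _).trans ?_
      apply ENNReal.ofReal_le_ofReal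
      have : (1 / 2 : ℝ) ^ p.1 ≤ (1 / 2) ^ n :=
        pow_le_pow_of_le_one (by norm_num) (by norm_num) hn
      linarith
    · rw [Metric.ediam_empty]; exact zero_le

end Pool.Agent.X93.ST
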