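import Mathlib
import Pool.Agent.X93.ST.Base
import Pool.Agent.X93.ST.Ridge
set_option autoImplicit false

/-! The mean value inequality for Fourier transforms of densities on the sphere. -/

namespace Pool.Agent.X93.ST

open MeasureTheory Set Metric Complex Filter Topology
open scoped ENNReal NNReal RealInnerProductSpace
open Pool.Agent.Results.MP_6cbfb8_an.RidgeDensities (sigma ft)

/-- the multiplier of the ball average -/
noncomputable def kap2 {n : ℕ} (r : ℝ) (y : E n) : ℂ :=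
  ∫ z in ball (0 : E n) r, Complex.exp (-(2 * Real.pi * ⟪y, z⟫ : ℝ) * I)

theorem kap2_rot {n : ℕ} (r : ℝ) (y y' : E n) (h : ‖y‖ = ‖y'‖) : kap2 r y = kap2 r y' := by
  set Λ : E n ≃ₗᵢ[ℝ] E n := (Submodule.span ℝ {y - y'})ᗮ.reflection with hΛ
  have h1 : Λ y = y' := Submodule.reflection_sub h
  unfold kap2
  have h2 := Λ.measurePreserving.setIntegral_preimage_emb
    Λ.toHomeomorph.measurableEmbedding
    (fun z => Complex.exp (-(2 * Real.pi * ⟪y', z⟫ : ℝ) * I)) (ball (0 : E n) r)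
  have h3 : Λ ⁻¹' ball (0 : E n) r = ball (0 : E n) r := by
    ext z; simp
  rw [h3] at h2
  rw [← h2]
  refine setIntegral_congr_fun measurableSet_ball fun z _ => ?_
  rw [← h1, Λ.inner_map_map]

theorem kap2_re {n : ℕ} (y : E n) (hy : ‖y‖ = 1) :
    0 < ‖kap2 (1 / 8) y‖ := by
  have hfin : volume (ball (0 : E n) (1 / 8)) < ⊤ := measure_ball_lt_top
  have hfinm : IsFiniteMeasure (volume.restrict (ball (0 : E n) (1 / 8))) :=
    ⟨by rw [Measure.restrict_apply_univ]; exact hfin⟩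
  have hint : IntegrableOn (fun z : E n => Complex.exp (-(2 * Real.pi * ⟪y, z⟫ : ℝ) * I))
      (ball (0 : E n) (1 / 8)) := by
    refine Integrable.of_bound (C := 1) ?_ (Eventually.of_forall fun z => (ker_norm y z).le)
    exact (by fun_prop : Continuous fun z : E n =>
      Complex.exp (-(2 * Real.pi * ⟪y, z⟫ : ℝ) * I)).aestronglyMeasurable
  have h1 : (kap2 (1 / 8) y).re = ∫ z in ball (0 : E n) (1 / 8),
      Real.cos (2 * Real.pi * ⟪y, z⟫) := by
    unfold kap2
    have h2 := reCLM.integral_comp_comm hint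
    rw [← Complex.reCLM_apply, ← h2]
    refine setIntegral_congr_fun measurableSet_ball fun z _ => ?_
    simp only [reCLM_apply]
    rw [show (-((2 * Real.pi * ⟪y, z⟫ : ℝ) : ℂ) * I) =
      (((-(2 * Real.pi * ⟪y, z⟫) : ℝ) : ℂ)) * I by push_cast; ring, Complex.exp_ofReal_mul_I_re,
      Real.cos_neg]
  have h2 : 1 / 2 * volume.real (ball (0 : E n) (1 / 8)) ≤ (kap2 (1 / 8) y).re := by
    rw [h1]
    have h3 : ∫ _z in ball (0 : E n) (1 / 8), (1 / 2 : ℝ) =
        1 / 2 * volume.real (ball (0 : E n) (1 / 8)) := by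
      rw [setIntegral_const, smul_eq_mul, mul_comm]
    rw [← h3]
    refine setIntegral_mono_on ?_ ?_ measurableSet_ball fun z hz => ?_
    · exact integrableOn_const hfin.ne
    · refine Integrable.of_bound (C := 1) ?_ (Eventually.of_forall fun z => ?_)
      · exact (by fun_prop : Continuous fun z : E n =>
          Real.cos (2 * Real.pi * ⟪y, z⟫)).aestronglyMeasurable
      · rw [Real.norm_eq_abs]; exact Real.abs_cos_le_one _
    · rw [mem_ball_zero_iff] at hz
      have h4 : |2 * Real.pi * (⟪y, z⟫ : ℝ)| ≤ Real.pi / 3 := by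
        rw [abs_mul, abs_of_pos (by positivity : 0 < 2 * Real.pi)]
        have h5 : |(⟪y, z⟫ : ℝ)| ≤ 1 / 8 := by
          refine (abs_real_inner_le_norm _ _).trans ?_
          rw [hy, one_mul]; exact hz.le
        calc 2 * Real.pi * |(⟪y, z⟫ : ℝ)| ≤ 2 * Real.pi * (1 / 8) := by gcongr
          _ ≤ _ := by linarith [Real.pi_pos]
      rw [← Real.cos_abs, ← Real.cos_pi_div_three]
      exact Real.cos_le_cos_of_nonneg_of_le_pi (abs_nonneg _) (by linarith [Real.pi_pos]) h4
  have h3 : 0 < volume.real (ball (0 : E n) (1 / 8)) :=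
    ENNReal.toReal_pos (measure_ball_pos volume _ (by norm_num)).ne' hfin.ne
  have h4 := Complex.re_le_norm (kap2 (1 / 8) y)
  linarith

theorem mv_eq {n : ℕ} (e : E n) (he : ‖e‖ = 1) {g : sphere (0 : E n) 1 → ℂ}
    (hg : Integrable g (sigma n)) (x : E n) :
    ∫ z in ball (0 : E n) (1 / 8), ft g (x + z) = kap2 (1 / 8) e * ft g x := by
  have hfin : volume (ball (0 : E n) (1 / 8)) < ⊤ := measure_ball_lt_top
  have hfinm : IsFiniteMeasure (volume.restrict (ball (0 : E n) (1 / 8))) :=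
    ⟨by rw [Measure.restrict_apply_univ]; exact hfin⟩
  unfold ft
  rw [integral_integral_swap]
  · rw [← integral_const_mul]
    refine integral_congr_ae (Eventually.of_forall fun y => ?_)
    simp only
    have h1 : kap2 (1 / 8) e = kap2 (1 / 8) (y : E n) :=
      kap2_rot _ _ _ (by rw [he]; exact (mem_sphere_zero_iff_norm.1 y.2).symm)
    rw [h1]
    unfold kap2
    rw [← integral_mul_const]
    refine integral_congr_ae (Eventually.of_forall fun z => ?_)
    simp only
    rw [← mul_assoc, ← Complex.exp_add, inner_add_right]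
    congr 2
    push_cast; ring
  · have h1 : Integrable (fun p : E n × (sphere (0 : E n) 1) => (1 : ℂ) * g p.2)
        ((volume.restrict (ball (0 : E n) (1 / 8))).prod (sigma n)) :=
      (integrable_const (1 : ℂ)).mul_prod hg
    have h2 : Continuous fun p : E n × (sphere (0 : E n) 1) =>
        Complex.exp (-(2 * Real.pi * ⟪(p.2 : E n), x + p.1⟫ : ℝ) * I) := by fun_prop
    have h3 := h1.bdd_mul (c := 1) h2.aestronglyMeasurable
      (Eventually.of_forall fun p => (ker_norm _ _).le)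
    refine h3.congr (Eventually.of_forall fun p => ?_)
    simp only [Function.uncurry, one_mul]

theorem MV (n : ℕ) (hn : 1 ≤ n) : ∃ C : ℝ, 0 < C ∧ ∀ g : sphere (0 : E n) 1 → ℂ,
    Integrable g (sigma n) → ∀ x : E n, ‖ft g x‖ₑ ^ (2 : ℝ) ≤
      ENNReal.ofReal C * ∫⁻ ξ in ball x (1 / 8), ‖ft g ξ‖ₑ ^ (2 : ℝ) := by
  set e : E n := EuclideanSpace.single ⟨0, by omega⟩ 1 with he0
  have he : ‖e‖ = 1 := by rw [he0]; simp
  have hfin : volume (ball (0 : E n) (1 / 8)) < ⊤ := measure_ball_lt_top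
  have hk := kap2_re e he
  set κ := ‖kap2 (1 / 8) e‖ with hκ
  set V := volume.real (ball (0 : E n) (1 / 8)) with hV
  have hV0 : 0 < V := ENNReal.toReal_pos (measure_ball_pos volume _ (by norm_num)).ne' hfin.ne
  refine ⟨V / κ ^ 2, by positivity, fun g hg x => ?_⟩
  have hc := ft_cont hg
  have h1 := mv_eq e he hg x
  have h2 : ENNReal.ofReal κ * ‖ft g x‖ₑ ≤ ∫⁻ z in ball (0 : E n) (1 / 8), ‖ft g (x + z)‖ₑ := by
    have h3 := enorm_integral_le_lintegral_enorm (μ := volume.restrict (ball (0 : E n) (1 / 8)))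
      (fun z => ft g (x + z))
    rw [h1, enorm_mul, ← ofReal_norm (kap2 (1 / 8) e)] at h3
    exact h3
  have h3 : ∫⁻ z in ball (0 : E n) (1 / 8), ‖ft g (x + z)‖ₑ ≤
      (∫⁻ z in ball (0 : E n) (1 / 8), ‖ft g (x + z)‖ₑ ^ (2 : ℝ)) ^ (1 / 2 : ℝ) *
        (ENNReal.ofReal V) ^ (1 / 2 : ℝ) := by
    have hm : Measurable fun z => ‖ft g (x + z)‖ₑ :=
      (hc.comp (by fun_prop)).measurable.enorm
    have h4 := ENNReal.lintegral_mul_le_Lp_mul_Lq (volume.restrict (ball (0 : E n) (1 / 8)))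
      Real.HolderConjugate.two_two hm.aemeasurable (g := fun _ => 1) aemeasurable_const
    simp only [Pi.mul_apply, mul_one, ENNReal.one_rpow, lintegral_const, one_mul,
      Measure.restrict_apply_univ] at h4
    rw [hV, Measure.real, ENNReal.ofReal_toReal hfin.ne]
    exact h4
  have h5 : ∫⁻ z in ball (0 : E n) (1 / 8), ‖ft g (x + z)‖ₑ ^ (2 : ℝ) =
      ∫⁻ ξ in ball x (1 / 8), ‖ft g ξ‖ₑ ^ (2 : ℝ) := by
    rw [← lintegral_indicator measurableSet_ball, ← lintegral_indicator measurableSet_ball,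
      ← lintegral_add_left_eq_self ((ball x (1 / 8)).indicator
        (fun ξ => ‖ft g ξ‖ₑ ^ (2 : ℝ))) x]
    refine lintegral_congr fun z => ?_
    by_cases hz : z ∈ ball (0 : E n) (1 / 8)
    · have hz' : x + z ∈ ball x (1 / 8) := by
        rw [mem_ball, dist_eq_norm, add_sub_cancel_left]
        exact mem_ball_zero_iff.1 hz
      rw [indicator_of_mem hz, indicator_of_mem hz']
    · have hz' : x + z ∉ ball x (1 / 8) := by
        rw [mem_ball, dist_eq_norm, add_sub_cancel_left]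
        exact fun h => hz (mem_ball_zero_iff.2 h)
      rw [indicator_of_notMem hz, indicator_of_notMem hz']
  rw [h5] at h3
  set J := ∫⁻ ξ in ball x (1 / 8), ‖ft g ξ‖ₑ ^ (2 : ℝ) with hJ
  have h6 : (ENNReal.ofReal κ * ‖ft g x‖ₑ) ^ (2 : ℝ) ≤ J * ENNReal.ofReal V := by
    calc (ENNReal.ofReal κ * ‖ft g x‖ₑ) ^ (2 : ℝ)
        ≤ (J ^ (1 / 2 : ℝ) * (ENNReal.ofReal V) ^ (1 / 2 : ℝ)) ^ (2 : ℝ) :=
          ENNReal.rpow_le_rpow (h2.trans h3) (by norm_num)
      _ = _ := by
          rw [ENNReal.mul_rpow_of_nonneg _ _ (by norm_num), ← ENNReal.rpow_mul,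
            ← ENNReal.rpow_mul]
          norm_num
  rw [ENNReal.mul_rpow_of_nonneg _ _ (by norm_num), ENNReal.ofReal_rpow_of_pos hk] at h6
  have h7 : ENNReal.ofReal (V / κ ^ 2) * J = ENNReal.ofReal (κ ^ 2)⁻¹ * (J * ENNReal.ofReal V) := by
    rw [div_eq_inv_mul, ENNReal.ofReal_mul (by positivity)]
    ring
  rw [h7]
  calc ‖ft g x‖ₑ ^ (2 : ℝ) = ENNReal.ofReal (κ ^ 2)⁻¹ *
        (ENNReal.ofReal (κ ^ (2 : ℝ)) * ‖ft g x‖ₑ ^ (2 : ℝ)) := by
        rw [← mul_assoc, ← ENNReal.ofReal_mul (by positivity)]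
        have : (κ ^ 2)⁻¹ * κ ^ (2 : ℝ) = 1 := by
          rw [Real.rpow_two, inv_mul_cancel₀ (by positivity)]
        rw [this, ENNReal.ofReal_one, one_mul]
    _ ≤ _ := by gcongr

end Pool.Agent.X93.ST
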