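import Mathlib
import Pool.Agent.X93.ST.AH
import Pool.Agent.X93.ST.MV
import Pool.Agent.X93.ST.DimSep
set_option autoImplicit false

/-! The Fourier transform of a density along rays. -/

namespace Pool.Agent.X93.ST

open MeasureTheory Set Metric Complex Filter Topology
open scoped ENNReal NNReal RealInnerProductSpace
open Pool.Agent.Results.MP_6cbfb8_an.RidgeDensities (sigma ft)

variable {n : ℕ}

/-- the neighbourhood of a segment of a ray -/
def seg (R : ℝ) (ω : E n) : Set (E n) := {x | ∃ r ∈ Icc R (2 * R), dist x (r • ω) < 1 / 8}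

theorem seg_eq (R : ℝ) (ω : E n) : seg R ω = ⋃ r ∈ Icc R (2 * R), ball (r • ω) (1 / 8) := by
  ext x
  simp [seg]

theorem seg_open (R : ℝ) (ω : E n) : IsOpen (seg R ω) := by
  rw [seg_eq]
  exact isOpen_biUnion fun r _ => isOpen_ball

theorem sub_seg {R r : ℝ} (hr : r ∈ Icc R (2 * R)) (ω : E n) :
    ball (r • ω) (1 / 8) ⊆ seg R ω := fun _ hx => ⟨r, hr, hx⟩

theorem fiber_vol {R : ℝ} {ω : E n} (hω : ‖ω‖ = 1) (x : E n) :
    volume {r ∈ Ioc R (2 * R) | dist x (r • ω) < 1 / 8} ≤ (seg R ω).indicator 1 x := by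
  by_cases hx : x ∈ seg R ω
  · rw [indicator_of_mem hx]
    obtain ⟨r0, hr0, hd⟩ := hx
    have hsub : {r ∈ Ioc R (2 * R) | dist x (r • ω) < 1 / 8} ⊆ closedBall r0 (1 / 2) := by
      rintro r ⟨_, hr⟩
      rw [mem_closedBall, Real.dist_eq]
      have h1 : |r - r0| = dist (r • ω) (r0 • ω) := by
        rw [dist_eq_norm, ← sub_smul, norm_smul, hω, mul_one, Real.norm_eq_abs]
      rw [h1]
      have h2 := dist_triangle_left (r • ω) (r0 • ω) x
      linarith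
    refine (measure_mono hsub).trans ?_
    rw [Real.volume_closedBall]
    simp
  · rw [indicator_of_notMem hx]
    have : {r ∈ Ioc R (2 * R) | dist x (r • ω) < 1 / 8} = ∅ := by
      ext r
      simp only [mem_empty_iff_false, iff_false]
      rintro ⟨hr1, hr2⟩
      exact hx ⟨r, ⟨hr1.1.le, hr1.2⟩, hr2⟩
    rw [this, measure_empty]

/-- Fubini for the averages along the ray -/
theorem ray_avg {R : ℝ} {ω : E n} (hω : ‖ω‖ = 1) (f : E n → ℝ≥0∞) (hf : Measurable f) :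
    ∫⁻ r in Ioc R (2 * R), ∫⁻ x in ball (r • ω) (1 / 8), f x ≤ ∫⁻ x in seg R ω, f x := by
  have hcont : Continuous fun p : ℝ × E n => dist p.2 (p.1 • ω) := by fun_prop
  have hms : MeasurableSet {p : ℝ × E n | p.1 ∈ Ioc R (2 * R) ∧ dist p.2 (p.1 • ω) < 1 / 8} :=
    (measurable_fst measurableSet_Ioc).inter (measurableSet_lt hcont.measurable measurable_const)
  set A : Set (ℝ × E n) := {p | p.1 ∈ Ioc R (2 * R) ∧ dist p.2 (p.1 • ω) < 1 / 8} with hA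
  have h1 : ∫⁻ r in Ioc R (2 * R), ∫⁻ x in ball (r • ω) (1 / 8), f x =
      ∫⁻ r, ∫⁻ x, A.indicator (fun p => f p.2) (r, x) := by
    rw [← lintegral_indicator measurableSet_Ioc]
    refine lintegral_congr fun r => ?_
    by_cases hr : r ∈ Ioc R (2 * R)
    · rw [indicator_of_mem hr, ← lintegral_indicator measurableSet_ball]
      refine lintegral_congr fun x => ?_
      by_cases hx : x ∈ ball (r • ω) (1 / 8)
      · have hxA : (r, x) ∈ A := ⟨hr, hx⟩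
        rw [indicator_of_mem hx, indicator_of_mem hxA]
      · have hxA : (r, x) ∉ A := fun h => hx h.2
        rw [indicator_of_notMem hx, indicator_of_notMem hxA]
    · rw [indicator_of_notMem hr]
      symm
      rw [lintegral_eq_zero_iff']
      · refine Eventually.of_forall fun x => ?_
        have hxA : (r, x) ∉ A := fun h => hr h.1
        change A.indicator (fun p => f p.2) (r, x) = 0
        rw [indicator_of_notMem hxA]
      · exact (((hf.comp measurable_snd).indicator hms).comp measurable_prodMk_left).aemeasurable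
  have hmeas : Measurable (A.indicator fun p : ℝ × E n => f p.2) :=
    (hf.comp measurable_snd).indicator hms
  have hm' : AEMeasurable (Function.uncurry fun (r : ℝ) (x : E n) =>
      A.indicator (fun p : ℝ × E n => f p.2) (r, x)) (volume.prod volume) := hmeas.aemeasurable
  rw [h1, lintegral_lintegral_swap hm',
    ← lintegral_indicator (seg_open R ω).measurableSet]
  refine lintegral_mono fun x => ?_
  have h2 : ∀ r, A.indicator (fun p => f p.2) (r, x) =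
      {r ∈ Ioc R (2 * R) | dist x (r • ω) < 1 / 8}.indicator (fun _ => f x) r := by
    intro r
    by_cases hr : r ∈ {r ∈ Ioc R (2 * R) | dist x (r • ω) < 1 / 8}
    · rw [indicator_of_mem hr, indicator_of_mem (show (r, x) ∈ A from hr)]
    · rw [indicator_of_notMem hr, indicator_of_notMem (show (r, x) ∉ A from hr)]
  simp only [h2]
  have hms2 : MeasurableSet {r ∈ Ioc R (2 * R) | dist x (r • ω) < 1 / 8} := by
    have h3 : MeasurableSet {r : ℝ | dist x (r • ω) < 1 / 8} :=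
      measurableSet_lt (by fun_prop : Continuous fun r : ℝ => dist x (r • ω)).measurable
        measurable_const
    exact measurableSet_Ioc.inter h3
  rw [lintegral_indicator hms2, setLIntegral_const]
  calc f x * volume {r ∈ Ioc R (2 * R) | dist x (r • ω) < 1 / 8}
      ≤ f x * (seg R ω).indicator 1 x := by
        gcongr
        exact fiber_vol hω x
    _ = (seg R ω).indicator (fun x => f x) x := by
        by_cases hx : x ∈ seg R ω
        · rw [indicator_of_mem hx, indicator_of_mem hx]; simp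
        · rw [indicator_of_notMem hx, indicator_of_notMem hx, mul_zero]

/-- the integral along a ray over a dyadic interval -/
noncomputable def RI (g : sphere (0 : E n) 1 → ℂ) (p : ℝ) (j : ℕ) (ω : E n) : ℝ≥0∞ :=
  ∫⁻ r in Ioc ((2 : ℝ) ^ j) (2 * 2 ^ j), ‖ft g (r • ω)‖ₑ ^ p * ENNReal.ofReal (r ^ (n - 1))

theorem ray_Lp (C0 : ℝ≥0∞) (hC0 : C0 ≠ ⊤) (g : sphere (0 : E n) 1 → ℂ)
    (hg : Integrable g (sigma n))
    (hMV : ∀ x : E n, ‖ft g x‖ₑ ^ (2 : ℝ) ≤ C0 * ∫⁻ ξ in ball x (1 / 8), ‖ft g ξ‖ₑ ^ (2 : ℝ))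
    (p : ℝ) (hp : 2 ≤ p) (j : ℕ) (ω : E n) (hω : ‖ω‖ = 1) :
    RI g p j ω ≤ ENNReal.ofReal ((2 * 2 ^ j) ^ (n - 1)) *
      (C0 * ∫⁻ ξ in seg (2 ^ j) ω, ‖ft g ξ‖ₑ ^ (2 : ℝ)) ^ (p / 2) := by
  set R : ℝ := 2 ^ j with hR
  set A := C0 * ∫⁻ ξ in seg R ω, ‖ft g ξ‖ₑ ^ (2 : ℝ) with hA
  have hfm : Measurable fun ξ => ‖ft g ξ‖ₑ ^ (2 : ℝ) := (ft_cont hg).measurable.enorm.pow_const _
  have hsup : ∀ r ∈ Ioc R (2 * R), ‖ft g (r • ω)‖ₑ ^ (2 : ℝ) ≤ A := by
    intro r hr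
    refine (hMV _).trans ?_
    rw [hA]
    gcongr
    exact sub_seg ⟨hr.1.le, hr.2⟩ ω
  have hL2 : ∫⁻ r in Ioc R (2 * R), ‖ft g (r • ω)‖ₑ ^ (2 : ℝ) ≤ A := by
    calc ∫⁻ r in Ioc R (2 * R), ‖ft g (r • ω)‖ₑ ^ (2 : ℝ)
        ≤ ∫⁻ r in Ioc R (2 * R), C0 * ∫⁻ ξ in ball (r • ω) (1 / 8), ‖ft g ξ‖ₑ ^ (2 : ℝ) :=
          lintegral_mono fun r => hMV _
      _ = C0 * ∫⁻ r in Ioc R (2 * R), ∫⁻ ξ in ball (r • ω) (1 / 8), ‖ft g ξ‖ₑ ^ (2 : ℝ) :=
          lintegral_const_mul' _ _ hC0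
      _ ≤ A := by
          rw [hA]
          gcongr
          exact ray_avg hω _ hfm
  have hpt : ∀ r ∈ Ioc R (2 * R), ‖ft g (r • ω)‖ₑ ^ p * ENNReal.ofReal (r ^ (n - 1)) ≤
      (A ^ (p / 2 - 1) * ENNReal.ofReal ((2 * R) ^ (n - 1))) * ‖ft g (r • ω)‖ₑ ^ (2 : ℝ) := by
    intro r hr
    have hR0 : 0 ≤ R := by positivity
    have hr0 : 0 ≤ r := hR0.trans hr.1.le
    have h1 : ‖ft g (r • ω)‖ₑ ^ p ≤ A ^ (p / 2 - 1) * ‖ft g (r • ω)‖ₑ ^ (2 : ℝ) := by
      calc ‖ft g (r • ω)‖ₑ ^ p = (‖ft g (r • ω)‖ₑ ^ (2 : ℝ)) ^ (p / 2 - 1) *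
            (‖ft g (r • ω)‖ₑ ^ (2 : ℝ)) := by
            rw [← ENNReal.rpow_mul, ← ENNReal.rpow_add_of_nonneg _ _ (by linarith) (by norm_num)]
            congr 1; ring
        _ ≤ _ := mul_le_mul' (ENNReal.rpow_le_rpow (hsup r hr) (by linarith)) le_rfl
    have h2 : ENNReal.ofReal (r ^ (n - 1)) ≤ ENNReal.ofReal ((2 * R) ^ (n - 1)) :=
      ENNReal.ofReal_le_ofReal (pow_le_pow_left₀ hr0 hr.2 _)
    calc ‖ft g (r • ω)‖ₑ ^ p * ENNReal.ofReal (r ^ (n - 1))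
        ≤ (A ^ (p / 2 - 1) * ‖ft g (r • ω)‖ₑ ^ (2 : ℝ)) * ENNReal.ofReal ((2 * R) ^ (n - 1)) :=
          mul_le_mul' h1 h2
      _ = _ := by ring
  by_cases hAt : A = ⊤
  · rw [hAt, ENNReal.top_rpow_of_pos (by linarith), ENNReal.mul_top]
    · exact le_top
    · simp; positivity
  have hAp : A ^ (p / 2 - 1) * ENNReal.ofReal ((2 * R) ^ (n - 1)) ≠ ⊤ :=
    ENNReal.mul_ne_top (ENNReal.rpow_ne_top_of_nonneg (by linarith) hAt) ENNReal.ofReal_ne_top
  calc RI g p j ω ≤ ∫⁻ r in Ioc R (2 * R),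
        (A ^ (p / 2 - 1) * ENNReal.ofReal ((2 * R) ^ (n - 1))) * ‖ft g (r • ω)‖ₑ ^ (2 : ℝ) :=
        setLIntegral_mono' measurableSet_Ioc hpt
    _ = (A ^ (p / 2 - 1) * ENNReal.ofReal ((2 * R) ^ (n - 1))) *
        ∫⁻ r in Ioc R (2 * R), ‖ft g (r • ω)‖ₑ ^ (2 : ℝ) := lintegral_const_mul' _ _ hAp
    _ ≤ (A ^ (p / 2 - 1) * ENNReal.ofReal ((2 * R) ^ (n - 1))) * A := by gcongr
    _ = ENNReal.ofReal ((2 * R) ^ (n - 1)) * (A ^ (p / 2 - 1) * A) := by ring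
    _ = _ := by
        congr 1
        nth_rewrite 2 [← ENNReal.rpow_one A]
        rw [← ENNReal.rpow_add_of_nonneg _ _ (by linarith) (by norm_num)]
        congr 1; ring

theorem seg_disj (j : ℕ) {ω ω' : E n} (hω : ‖ω‖ = 1) (hω' : ‖ω'‖ = 1)
    (hd : (1 / 2 : ℝ) ^ j ≤ dist ω ω') : Disjoint (seg ((2 : ℝ) ^ j) ω) (seg ((2 : ℝ) ^ j) ω') := by
  rw [Set.disjoint_left]
  rintro x ⟨r, hr, h1⟩ ⟨s, hs, h2⟩
  set R : ℝ := 2 ^ j with hR
  have hR0 : 0 < R := by positivity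
  have h3 : dist (r • ω) (s • ω') < 1 / 4 := by
    have := dist_triangle_left (r • ω) (s • ω') x
    linarith
  have h4 : 1 ≤ dist (r • ω) (s • ω') ^ 2 := by
    rw [dist_eq_norm]
    rw [dist_eq_norm] at hd
    have e1 : ‖r • ω - s • ω'‖ ^ 2 = (r - s) ^ 2 + r * s * ‖ω - ω'‖ ^ 2 := by
      rw [norm_sub_sq_real, norm_sub_sq_real, norm_smul, norm_smul, hω, hω',
        real_inner_smul_left, real_inner_smul_right, Real.norm_eq_abs, Real.norm_eq_abs]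
      rw [mul_one, mul_one, sq_abs, sq_abs]
      ring
    rw [e1]
    have h5 : R * R ≤ r * s := mul_le_mul hr.1 hs.1 hR0.le (hR0.le.trans hr.1)
    have h6 : ((1 / 2 : ℝ) ^ j) ^ 2 ≤ ‖ω - ω'‖ ^ 2 := pow_le_pow_left₀ (by positivity) hd 2
    have h7 : R * R * ((1 / 2 : ℝ) ^ j) ^ 2 = 1 := by
      have : R * (1 / 2) ^ j = 1 := by rw [hR, ← mul_pow]; norm_num
      calc R * R * ((1 / 2 : ℝ) ^ j) ^ 2 = (R * (1 / 2) ^ j) ^ 2 := by ring
        _ = 1 := by rw [this]; norm_num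
    calc (1 : ℝ) = R * R * ((1 / 2 : ℝ) ^ j) ^ 2 := h7.symm
      _ ≤ r * s * ‖ω - ω'‖ ^ 2 := mul_le_mul h5 h6 (by positivity) (by
          exact mul_nonneg (hR0.le.trans hr.1) (hR0.le.trans hs.1))
      _ ≤ _ := by nlinarith [sq_nonneg (r - s)]
  have h5 : dist (r • ω) (s • ω') ^ 2 < 1 := by
    have h0 : 0 ≤ dist (r • ω) (s • ω') := dist_nonneg
    nlinarith
  linarith

theorem seg_sub (j : ℕ) {ω : E n} (hω : ‖ω‖ = 1) :
    seg ((2 : ℝ) ^ j) ω ⊆ ball (0 : E n) (3 * 2 ^ j) := by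
  rintro x ⟨r, hr, h1⟩
  rw [mem_ball_zero_iff]
  have h2 : ‖r • ω‖ ≤ 2 * 2 ^ j := by
    rw [norm_smul, hω, mul_one, Real.norm_eq_abs, abs_of_nonneg]
    · exact hr.2
    · exact (by positivity : (0:ℝ) ≤ 2 ^ j).trans hr.1
  have h3 : ‖x‖ ≤ ‖x - r • ω‖ + ‖r • ω‖ := by
    calc ‖x‖ = ‖(x - r • ω) + r • ω‖ := by rw [sub_add_cancel]
      _ ≤ _ := norm_add_le _ _
  rw [dist_eq_norm] at h1
  have h4 : (1 : ℝ) ≤ 2 ^ j := one_le_pow₀ (by norm_num)
  linarith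

end Pool.Agent.X93.ST
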