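import Mathlib
import Pool.Agent.X93.ST.Rays
set_option autoImplicit false

/-! The dimension of the set of exceptional directions. -/

namespace Pool.Agent.X93.ST

open MeasureTheory Set Metric Complex Filter Topology
open scoped ENNReal NNReal RealInnerProductSpace
open Pool.Agent.Results.MP_6cbfb8_an.RidgeDensities (sigma ft)
open Pool.Agent.H789R2.FR (sg sg_finite)

variable {n : ℕ}

/-- the integral along the whole ray -/
noncomputable def RA (g : sphere (0 : E n) 1 → ℂ) (p : ℝ) (ω : E n) : ℝ≥0∞ :=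
  ∫⁻ r in Ioi (0 : ℝ), ‖ft g (r • ω)‖ₑ ^ p * ENNReal.ofReal (r ^ (n - 1))

/-- the bad directions at scale `2^j` -/
def badS (g : sphere (0 : E n) 1 → ℂ) (p γ : ℝ) (j : ℕ) : Set (E n) :=
  {ω | ‖ω‖ = 1 ∧ ENNReal.ofReal ((2 ^ j) ^ (-γ)) < RI g p j ω}

theorem count (hn : 2 ≤ n) (g : sphere (0 : E n) 1 → ℂ) (hg : MemLp g 2 (sigma n)) (p : ℝ)
    (hp : 2 ≤ p) (γ : ℝ) : ∃ C : ℝ, ∀ j : ℕ, ∀ F : Finset (E n), ↑F ⊆ badS g p γ j →
      SepF ((1 / 2) ^ j) F →
      (F.card : ℝ) ≤ C * (2 ^ j) ^ (1 + 2 * ((n : ℝ) - 1) / p + 2 * γ / p) := by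
  have hn1 : (2 : ℝ) ≤ n := by exact_mod_cast hn
  have hgi : Integrable g (sigma n) := hg.integrable (by norm_num)
  obtain ⟨C1, hC1, hAH⟩ := AH n hn
  obtain ⟨C0, hC0, hMV⟩ := MV n (by omega)
  set G2 : ℝ≥0∞ := ∫⁻ x, ‖g x‖ₑ ^ (2 : ℝ) ∂(sigma n) with hG2
  have hG2t : G2 ≠ ⊤ := by
    have := (eLpNorm_lt_top_iff_lintegral_rpow_enorm_lt_top (by norm_num) (by norm_num)).1 hg.2
    simpa [hG2] using this.ne
  set K : ℝ := C0 * (C1 * 3) * G2.toReal * 2 ^ (2 * ((n : ℝ) - 1) / p) with hK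
  refine ⟨K, fun j F hF hsep => ?_⟩
  set R : ℝ := 2 ^ j with hR
  have hR0 : 0 < R := by positivity
  have hp0 : 0 < p := by linarith
  have hF1 : ∀ ω ∈ F, ‖ω‖ = 1 := fun ω hω => (hF hω).1
  have hF2 : ∀ ω ∈ F, ENNReal.ofReal (R ^ (-γ)) < RI g p j ω := fun ω hω => (hF hω).2
  -- sum over the segments
  have hsum : ∑ ω ∈ F, ∫⁻ ξ in seg R ω, ‖ft g ξ‖ₑ ^ (2 : ℝ) ≤
      ENNReal.ofReal (C1 * (3 * R)) * G2 := by
    rw [← lintegral_biUnion_finset (s := F) (t := fun ω => seg R ω)]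
    · refine (lintegral_mono_set (iUnion₂_subset fun ω hω => seg_sub j (hF1 ω hω))).trans ?_
      exact hAH g hg (3 * R) (by positivity)
    · intro ω hω ω' hω' hne
      exact seg_disj j (hF1 ω hω) (hF1 ω' hω') (hsep ω hω ω' hω' hne)
    · exact fun ω _ => (seg_open R ω).measurableSet
  have hone : ∀ ω ∈ F, ENNReal.ofReal (R ^ (-(2 * γ / p))) ≤
      ENNReal.ofReal ((2 * R) ^ (2 * ((n : ℝ) - 1) / p)) *
        (ENNReal.ofReal C0 * ∫⁻ ξ in seg R ω, ‖ft g ξ‖ₑ ^ (2 : ℝ)) := by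
    intro ω hω
    have h1 := ray_Lp (ENNReal.ofReal C0) ENNReal.ofReal_ne_top g hgi (hMV g hgi) p hp j ω
      (hF1 ω hω)
    have h2 := ENNReal.rpow_le_rpow ((hF2 ω hω).le.trans h1) (show 0 ≤ 2 / p by positivity)
    rw [ENNReal.mul_rpow_of_nonneg _ _ (by positivity), ← ENNReal.rpow_mul,
      show p / 2 * (2 / p) = 1 by field_simp, ENNReal.rpow_one,
      ENNReal.ofReal_rpow_of_nonneg (by positivity) (by positivity),
      ENNReal.ofReal_rpow_of_nonneg (by positivity) (by positivity)] at h2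
    have e1 : (R ^ (-γ)) ^ (2 / p) = R ^ (-(2 * γ / p)) := by
      rw [← Real.rpow_mul hR0.le]
      congr 1; ring
    have e2 : ((2 * R) ^ (n - 1)) ^ (2 / p) = (2 * R) ^ (2 * ((n : ℝ) - 1) / p) := by
      rw [← Real.rpow_natCast, ← Real.rpow_mul (by positivity), Nat.cast_sub (by omega)]
      congr 1; push_cast; ring
    rw [e1, e2] at h2
    exact h2
  have htot : (F.card : ℝ≥0∞) * ENNReal.ofReal (R ^ (-(2 * γ / p))) ≤
      ENNReal.ofReal ((2 * R) ^ (2 * ((n : ℝ) - 1) / p)) *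
        (ENNReal.ofReal C0 * (ENNReal.ofReal (C1 * (3 * R)) * G2)) := by
    calc (F.card : ℝ≥0∞) * ENNReal.ofReal (R ^ (-(2 * γ / p)))
        = ∑ _ω ∈ F, ENNReal.ofReal (R ^ (-(2 * γ / p))) := by
          rw [Finset.sum_const, nsmul_eq_mul]
      _ ≤ ∑ ω ∈ F, ENNReal.ofReal ((2 * R) ^ (2 * ((n : ℝ) - 1) / p)) *
        (ENNReal.ofReal C0 * ∫⁻ ξ in seg R ω, ‖ft g ξ‖ₑ ^ (2 : ℝ)) := Finset.sum_le_sum hone
      _ = ENNReal.ofReal ((2 * R) ^ (2 * ((n : ℝ) - 1) / p)) *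
        (ENNReal.ofReal C0 * ∑ ω ∈ F, ∫⁻ ξ in seg R ω, ‖ft g ξ‖ₑ ^ (2 : ℝ)) := by
          rw [← Finset.mul_sum, ← Finset.mul_sum]
      _ ≤ _ := by gcongr
  have hreal : (F.card : ℝ) * R ^ (-(2 * γ / p)) ≤
      (2 * R) ^ (2 * ((n : ℝ) - 1) / p) * (C0 * (C1 * (3 * R) * G2.toReal)) := by
    have h1 : ENNReal.ofReal ((F.card : ℝ) * R ^ (-(2 * γ / p))) ≤
        ENNReal.ofReal ((2 * R) ^ (2 * ((n : ℝ) - 1) / p) * (C0 * (C1 * (3 * R) * G2.toReal))) := by
      rw [ENNReal.ofReal_mul (by positivity), ENNReal.ofReal_natCast,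
        ENNReal.ofReal_mul (show 0 ≤ (2 * R) ^ (2 * ((n : ℝ) - 1) / p) by positivity),
        ENNReal.ofReal_mul hC0.le, ENNReal.ofReal_mul (show 0 ≤ C1 * (3 * R) by positivity),
        ENNReal.ofReal_toReal hG2t]
      exact htot
    exact (ENNReal.ofReal_le_ofReal_iff (by positivity)).1 h1
  have e3 : R ^ (1 + 2 * ((n : ℝ) - 1) / p + 2 * γ / p) =
      R * R ^ (2 * ((n : ℝ) - 1) / p) * R ^ (2 * γ / p) := by
    rw [Real.rpow_add hR0, Real.rpow_add hR0, Real.rpow_one]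
  rw [e3]
  have e4 : R ^ (-(2 * γ / p)) * R ^ (2 * γ / p) = 1 := by
    rw [← Real.rpow_add hR0, neg_add_cancel, Real.rpow_zero]
  have hRp : 0 < R ^ (2 * γ / p) := by positivity
  calc (F.card : ℝ) = (F.card : ℝ) * R ^ (-(2 * γ / p)) * R ^ (2 * γ / p) := by
        rw [mul_assoc, e4, mul_one]
    _ ≤ ((2 * R) ^ (2 * ((n : ℝ) - 1) / p) * (C0 * (C1 * (3 * R) * G2.toReal))) *
        R ^ (2 * γ / p) := by gcongr
    _ = _ := by
        rw [Real.mul_rpow (by norm_num) hR0.le, hK]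
        ring

/-- a direction which is bad at finitely many scales only is good -/
theorem good_dir (g : sphere (0 : E n) 1 → ℂ) (_hgi : Integrable g (sigma n)) (p : ℝ) (hp : 0 ≤ p)
    (γ : ℝ) (hγ : 0 < γ) (ω : E n) (hω : ‖ω‖ = 1)
    (h : ¬ ∃ᶠ j in atTop, ω ∈ badS g p γ j) : RA g p ω < ⊤ := by
  rw [not_frequently, eventually_atTop] at h
  obtain ⟨J, hJ⟩ := h
  have hJ' : ∀ j, J ≤ j → RI g p j ω ≤ ENNReal.ofReal ((2 ^ j) ^ (-γ)) := by
    intro j hj
    by_contra hc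
    push Not at hc
    exact hJ j hj ⟨hω, hc⟩
  have hcov : Ioi (0 : ℝ) ⊆ Ioc 0 (2 ^ J) ∪ ⋃ i : ℕ, Ioc ((2 : ℝ) ^ (J + i)) (2 * 2 ^ (J + i)) := by
    intro r hr
    rcases le_or_gt r (2 ^ J) with h1 | h1
    · exact Or.inl ⟨hr, h1⟩
    · right
      have hex : ∃ m : ℕ, r ≤ 2 ^ m := by
        obtain ⟨m, hm⟩ := pow_unbounded_of_one_lt r (one_lt_two)
        exact ⟨m, hm.le⟩
      classical
      set m := Nat.find hex with hm
      have hm1 : r ≤ 2 ^ m := Nat.find_spec hex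
      have hmJ : J < m := by
        by_contra hc
        push Not at hc
        have : (2 : ℝ) ^ m ≤ 2 ^ J := pow_le_pow_right₀ (by norm_num) hc
        linarith
      have hm2 : 2 ^ (m - 1) < r := by
        by_contra hc
        push Not at hc
        have := Nat.find_min' hex hc
        omega
      refine mem_iUnion.2 ⟨m - 1 - J, ?_⟩
      have e1 : J + (m - 1 - J) = m - 1 := by omega
      rw [e1]
      refine ⟨hm2, ?_⟩
      have e2 : (2 : ℝ) * 2 ^ (m - 1) = 2 ^ m := by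
        rw [← pow_succ']; congr 1; omega
      rw [e2]; exact hm1
  have h1 : RA g p ω ≤ (∫⁻ r in Ioc (0 : ℝ) (2 ^ J), ‖ft g (r • ω)‖ₑ ^ p *
      ENNReal.ofReal (r ^ (n - 1))) + ∑' i : ℕ, RI g p (J + i) ω := by
    unfold RA
    refine (lintegral_mono_set hcov).trans ((lintegral_union_le _ _ _).trans ?_)
    gcongr
    exact lintegral_iUnion_le _ _
  refine lt_of_le_of_lt h1 (ENNReal.add_lt_top.2 ⟨?_, ?_⟩)
  · set B : ℝ := ∫ x, ‖g x‖ ∂(sigma n) with hB
    have hB0 : 0 ≤ B := integral_nonneg fun _ => norm_nonneg _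
    calc ∫⁻ r in Ioc (0 : ℝ) (2 ^ J), ‖ft g (r • ω)‖ₑ ^ p * ENNReal.ofReal (r ^ (n - 1))
        ≤ ∫⁻ _r in Ioc (0 : ℝ) (2 ^ J), ENNReal.ofReal (B ^ p) *
            ENNReal.ofReal ((2 ^ J) ^ (n - 1)) := by
          refine setLIntegral_mono' measurableSet_Ioc fun r hr => ?_
          refine mul_le_mul' ?_ (ENNReal.ofReal_le_ofReal (pow_le_pow_left₀ hr.1.le hr.2 _))
          rw [← ofReal_norm, ENNReal.ofReal_rpow_of_nonneg (norm_nonneg _) hp]
          exact ENNReal.ofReal_le_ofReal (Real.rpow_le_rpow (norm_nonneg _) (ft_norm_le _ _) hp)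
      _ < ⊤ := by
          rw [setLIntegral_const, Real.volume_Ioc]
          exact ENNReal.mul_lt_top (ENNReal.mul_lt_top ENNReal.ofReal_lt_top
            ENNReal.ofReal_lt_top) ENNReal.ofReal_lt_top
  · set ρ : ℝ := (2 : ℝ) ^ (-γ) with hρ
    have hρ0 : 0 < ρ := by positivity
    have hρ1 : ρ < 1 := by
      rw [hρ]
      exact Real.rpow_lt_one_of_one_lt_of_neg (by norm_num) (by linarith)
    calc ∑' i : ℕ, RI g p (J + i) ω ≤ ∑' i : ℕ, ENNReal.ofReal (ρ ^ J * ρ ^ i) := by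
          refine ENNReal.tsum_le_tsum fun i => (hJ' (J + i) (by omega)).trans (le_of_eq ?_)
          congr 1
          rw [← pow_add, hρ, ← Real.rpow_natCast, ← Real.rpow_natCast, ← Real.rpow_mul (by norm_num),
            ← Real.rpow_mul (by norm_num), mul_comm]
      _ = ENNReal.ofReal (∑' i : ℕ, ρ ^ J * ρ ^ i) := by
          rw [ENNReal.ofReal_tsum_of_nonneg (fun i => by positivity)
            ((summable_geometric_of_lt_one hρ0.le hρ1).mul_left _)]
      _ < ⊤ := ENNReal.ofReal_lt_top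

theorem dim_dirs (hn : 2 ≤ n) (g : sphere (0 : E n) 1 → ℂ) (hg : MemLp g 2 (sigma n)) (p : ℝ)
    (hp : 2 ≤ p) : dimH {ω : E n | ‖ω‖ = 1 ∧ RA g p ω = ⊤} ≤
      ENNReal.ofReal (1 + 2 * ((n : ℝ) - 1) / p) := by
  have hn1 : (2 : ℝ) ≤ n := by exact_mod_cast hn
  have hp0 : 0 < p := by linarith
  have hgi : Integrable g (sigma n) := hg.integrable (by norm_num)
  refine ENNReal.le_of_forall_pos_le_add fun ε hε _ => ?_
  have hε' : (0 : ℝ) < ε := hε
  set γ : ℝ := ε * p / 2 with hγ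
  have hγ0 : 0 < γ := by positivity
  obtain ⟨C, hC⟩ := count hn g hg p hp γ
  have h0 : 0 ≤ 2 * ((n : ℝ) - 1) / p := by
    apply div_nonneg _ hp0.le; linarith
  have h1 := dim_sep (badS g p γ) C (1 + 2 * ((n : ℝ) - 1) / p + 2 * γ / p) (by positivity) hC
  have h2 : {ω : E n | ‖ω‖ = 1 ∧ RA g p ω = ⊤} ⊆ {ω | ∃ᶠ j in atTop, ω ∈ badS g p γ j} := by
    rintro ω ⟨hω, hT⟩
    by_contra hc
    exact (good_dir g hgi p hp0.le γ hγ0 ω hω hc).ne hT
  refine (dimH_mono h2).trans (h1.trans (le_of_eq ?_))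
  have e1 : 2 * γ / p = ε := by rw [hγ]; field_simp
  rw [e1, ENNReal.ofReal_add (by positivity) hε'.le, ENNReal.ofReal_coe_nnreal]

/-- the surface measure of a cap -/
theorem cap_le (hn : 2 ≤ n) : ∃ C : ℝ, 0 < C ∧ ∀ y : E n, ‖y‖ = 1 → ∀ d : ℝ, 0 < d →
    sg n (closedBall y d) ≤ ENNReal.ofReal (C * d ^ ((n : ℝ) - 1)) := by
  obtain ⟨C, hC, h⟩ := Pool.Agent.H789R2.FR.D_upper n hn
  have hf : IsFiniteMeasure (sg n) := sg_finite n
  refine ⟨Real.exp (1 / 2) * C, by positivity, fun y hy d hd => ?_⟩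
  have h1 := h (1 / d ^ 2) (by positivity) y hy
  have e1 : C * (1 / d ^ 2) ^ (-((n : ℝ) - 1) / 2) = C * d ^ ((n : ℝ) - 1) := by
    congr 1
    rw [one_div, ← Real.rpow_natCast, ← Real.rpow_neg hd.le, ← Real.rpow_mul hd.le]
    congr 1
    push_cast; ring
  rw [e1] at h1
  have hms : MeasurableSet (closedBall y d) := isClosed_closedBall.measurableSet
  have h2 : Real.exp (-(1 / 2)) * (sg n).real (closedBall y d) ≤
      Pool.Agent.H789R2.FR.D (1 / d ^ 2) y := by
    unfold Pool.Agent.H789R2.FR.D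
    have h3 : Real.exp (-(1 / 2)) * (sg n).real (closedBall y d) =
        ∫ w, (closedBall y d).indicator (fun _ => Real.exp (-(1 / 2))) w ∂(sg n) := by
      rw [integral_indicator hms, setIntegral_const, smul_eq_mul, mul_comm]
    rw [h3]
    refine integral_mono_of_nonneg (Eventually.of_forall fun w => ?_) ?_
      (Eventually.of_forall fun w => ?_)
    · exact indicator_nonneg (fun _ _ => by positivity) w
    · refine Integrable.of_bound (C := 1) ?_ (Eventually.of_forall fun w => ?_)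
      · exact (by fun_prop : Continuous fun w : E n =>
          Real.exp (-(1 / d ^ 2 / 2) * ‖y - w‖ ^ 2)).aestronglyMeasurable
      · rw [Real.norm_eq_abs, abs_of_pos (Real.exp_pos _)]
        apply Real.exp_le_one_iff.2
        have : 0 ≤ 1 / d ^ 2 / 2 * ‖y - w‖ ^ 2 := by positivity
        linarith
    · by_cases hw : w ∈ closedBall y d
      · rw [indicator_of_mem hw]
        apply Real.exp_le_exp.2
        rw [mem_closedBall, dist_comm, dist_eq_norm] at hw
        have h4 : ‖y - w‖ ^ 2 ≤ d ^ 2 := pow_le_pow_left₀ (norm_nonneg _) hw 2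
        have h5 : 1 / d ^ 2 / 2 * ‖y - w‖ ^ 2 ≤ 1 / 2 := by
          rw [div_div, div_mul_eq_mul_div, one_mul, div_le_div_iff₀ (by positivity) (by norm_num)]
          linarith
        linarith
      · rw [indicator_of_notMem hw]; positivity
  rw [← ENNReal.ofReal_toReal (measure_ne_top (sg n) (closedBall y d))]
  apply ENNReal.ofReal_le_ofReal
  have h3 : (sg n).real (closedBall y d) = Real.exp (1 / 2) *
      (Real.exp (-(1 / 2)) * (sg n).real (closedBall y d)) := by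
    rw [← mul_assoc, ← Real.exp_add, add_neg_cancel, Real.exp_zero, one_mul]
  change (sg n).real (closedBall y d) ≤ _
  rw [h3]
  refine (mul_le_mul_of_nonneg_left (h2.trans h1) (Real.exp_pos _).le).trans (le_of_eq ?_)
  ring

theorem sg_null (hn : 2 ≤ n) (B : Set (E n)) (hB : dimH B < ENNReal.ofReal ((n : ℝ) - 1)) :
    sg n B = 0 := by
  have hn1 : (2 : ℝ) ≤ n := by exact_mod_cast hn
  have hf : IsFiniteMeasure (sg n) := sg_finite n
  obtain ⟨C, hC, hcap⟩ := cap_le hn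
  have hle : (ENNReal.ofReal C)⁻¹ • sg n ≤ Measure.hausdorffMeasure ((n : ℝ) - 1) := by
    refine Measure.le_hausdorffMeasure _ _ 1 one_pos fun s hs => ?_
    rw [Measure.smul_apply, smul_eq_mul]
    by_cases hne : (s ∩ sphere (0 : E n) 1).Nonempty
    · obtain ⟨y, hy, hy1⟩ := hne
      rw [mem_sphere_zero_iff_norm] at hy1
      have hst : ediam s ≠ ⊤ := ne_top_of_le_ne_top ENNReal.one_ne_top hs
      have key : ∀ d : ℝ, (ediam s).toReal < d →
          (ENNReal.ofReal C)⁻¹ * sg n s ≤ ENNReal.ofReal (d ^ ((n : ℝ) - 1)) := by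
        intro d hd
        have hd0 : 0 < d := lt_of_le_of_lt ENNReal.toReal_nonneg hd
        have h1 : s ⊆ closedBall y d := by
          intro x hx
          rw [mem_closedBall]
          have h2 : edist x y ≤ ediam s := Metric.edist_le_ediam_of_mem hx hy
          rw [edist_dist] at h2
          have h3 := ENNReal.toReal_mono hst h2
          rw [ENNReal.toReal_ofReal dist_nonneg] at h3
          linarith
        calc (ENNReal.ofReal C)⁻¹ * sg n s
            ≤ (ENNReal.ofReal C)⁻¹ * ENNReal.ofReal (C * d ^ ((n : ℝ) - 1)) := by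
              gcongr
              exact (measure_mono h1).trans (hcap y hy1 d hd0)
          _ = _ := by
              rw [ENNReal.ofReal_mul hC.le, ← mul_assoc, ENNReal.inv_mul_cancel
                (by simpa using hC) ENNReal.ofReal_ne_top, one_mul]
      have hlim : Tendsto (fun k : ℕ => ENNReal.ofReal
          (((ediam s).toReal + 1 / ((k : ℝ) + 1)) ^ ((n : ℝ) - 1))) atTop
          (𝓝 (ENNReal.ofReal (((ediam s).toReal + 0) ^ ((n : ℝ) - 1)))) := by
        refine (ENNReal.continuous_ofReal.tendsto _).comp ?_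
        have hc : ContinuousAt (fun t : ℝ => t ^ ((n : ℝ) - 1)) ((ediam s).toReal + 0) :=
          Real.continuousAt_rpow_const _ _ (Or.inr (by linarith))
        exact hc.tendsto.comp (tendsto_const_nhds.add tendsto_one_div_add_atTop_nhds_zero_nat)
      have h2 := ge_of_tendsto' hlim fun k => key _ (by
        have : (0 : ℝ) < 1 / ((k : ℝ) + 1) := by positivity
        linarith)
      rw [add_zero, ← ENNReal.ofReal_rpow_of_nonneg ENNReal.toReal_nonneg (by linarith),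
        ENNReal.ofReal_toReal hst] at h2
      exact h2
    · have h0 : sg n s = 0 := by
        have hae := Pool.Agent.H789R2.FR.sg_ae n
        rw [ae_iff] at hae
        refine measure_mono_null (fun x hx => ?_) hae
        intro hx1
        exact hne ⟨x, hx, mem_sphere_zero_iff_norm.2 hx1⟩
      rw [h0, mul_zero]; exact zero_le
  have h1 : (Measure.hausdorffMeasure ((n : ℝ) - 1) : Measure (E n)) B = 0 := by
    have h2 : ((n : ℝ) - 1) = ((Real.toNNReal ((n : ℝ) - 1) : ℝ≥0) : ℝ) := by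
      rw [Real.coe_toNNReal _ (by linarith)]
    rw [h2]
    exact hausdorffMeasure_of_dimH_lt hB
  have h2 := hle B
  rw [h1, Measure.smul_apply, smul_eq_mul, nonpos_iff_eq_zero, mul_eq_zero] at h2
  rcases h2 with h2 | h2
  · simp at h2
  · exact h2

theorem ae_dirs (hn : 3 ≤ n) (g : sphere (0 : E n) 1 → ℂ) (hg : MemLp g 2 (sigma n)) (p : ℝ)
    (hp : 2 * ((n : ℝ) - 1) / (n - 2) < p) : ∀ᵐ ω : sphere (0 : E n) 1 ∂(sigma n),
      RA g p (ω : E n) < ⊤ := by
  have hn1 : (3 : ℝ) ≤ n := by exact_mod_cast hn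
  rw [div_lt_iff₀ (by linarith)] at hp
  have hp2 : 2 ≤ p := by nlinarith
  have h1 := dim_dirs (by omega) g hg p hp2
  have h2 : dimH {ω : E n | ‖ω‖ = 1 ∧ RA g p ω = ⊤} < ENNReal.ofReal ((n : ℝ) - 1) := by
    refine lt_of_le_of_lt h1 ?_
    rw [ENNReal.ofReal_lt_ofReal_iff (by linarith)]
    have h3 : 2 * ((n : ℝ) - 1) / p < (n : ℝ) - 2 := by
      rw [div_lt_iff₀ (by linarith)]; linarith
    linarith
  have h3 := sg_null (by omega) _ h2
  rw [ae_iff]
  have h4 : sigma n ((Subtype.val : sphere (0 : E n) 1 → E n) ⁻¹'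
      {ω : E n | ‖ω‖ = 1 ∧ RA g p ω = ⊤}) ≤ sg n {ω : E n | ‖ω‖ = 1 ∧ RA g p ω = ⊤} :=
    Measure.le_map_apply measurable_subtype_coe.aemeasurable _
  refine measure_mono_null (fun ω hω => ?_) (nonpos_iff_eq_zero.1 (h4.trans h3.le))
  have h5 : ¬ RA g p (ω : E n) < ⊤ := hω
  exact ⟨mem_sphere_zero_iff_norm.1 ω.2, not_lt_top_iff.1 h5⟩

end Pool.Agent.X93.ST
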