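import Mathlib
import Pool.Agent.X93.ST.Base
import Pool.Agent.X93.ST.Ridge
import Pool.Agent.X93.ST.Dense
import Pool.Agent.H438R2.BR.T10
import Pool.Agent.TH335.RF.P2
set_option autoImplicit false

/-! Trigonometric polynomials in the space of square integrable densities. -/

namespace Pool.Agent.X93.ST

open MeasureTheory Set Metric Complex Filter Topology
open scoped ENNReal NNReal RealInnerProductSpace
open Pool.Agent.Results.MP_6cbfb8_an.RidgeDensities (sigma ft)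
open Pool.Agent.H789R2.FR (sg)

/-- square integrable densities -/
noncomputable abbrev HH (n : ℕ) := Lp ℂ 2 (sigma n)

theorem ex_memLp {n : ℕ} (η : E n) :
    MemLp (fun x : sphere (0 : E n) 1 => Complex.exp ((⟪η, (x : E n)⟫ : ℝ) * I)) 2 (sigma n) := by
  refine MemLp.of_bound (C := 1) ?_ (Eventually.of_forall fun x => ?_)
  · exact (by fun_prop : Continuous fun x : sphere (0 : E n) 1 =>
      Complex.exp ((⟪η, (x : E n)⟫ : ℝ) * I)).aestronglyMeasurable
  · rw [Complex.norm_exp_ofReal_mul_I]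

/-- the exponential as a square integrable density -/
noncomputable def ee {n : ℕ} (η : E n) : HH n := (ex_memLp η).toLp

theorem ee_ae {n : ℕ} (η : E n) :
    (ee η : sphere (0 : E n) 1 → ℂ) =ᵐ[sigma n] fun x => Complex.exp ((⟪η, (x : E n)⟫ : ℝ) * I) :=
  (ex_memLp η).coeFn_toLp

theorem inner_ee {n : ℕ} (η η' : E n) : inner ℂ (ee η) (ee η') =
    ∫ x, Complex.exp ((⟪η' - η, (x : E n)⟫ : ℝ) * I) ∂(sigma n) := by
  rw [L2.inner_def]
  refine integral_congr_ae ?_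
  filter_upwards [ee_ae η, ee_ae η'] with x h1 h2
  rw [h1, h2, RCLike.inner_apply, ← Complex.exp_conj, ← Complex.exp_add, inner_sub_left]
  congr 1
  simp only [map_mul, Complex.conj_ofReal, Complex.conj_I]
  push_cast; ring

theorem norm_ee {n : ℕ} (η : E n) : ‖ee η‖ ^ 2 = (sigma n).real univ := by
  have h := inner_self_eq_norm_sq_to_K (𝕜 := ℂ) (ee η)
  rw [inner_ee, sub_self] at h
  simp only [inner_zero_left, ofReal_zero, zero_mul, Complex.exp_zero, integral_const] at h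
  have h2 : ((‖ee η‖ ^ 2 : ℝ) : ℂ) = (((sigma n).real univ : ℝ) : ℂ) := by
    rw [Complex.ofReal_pow]
    simpa using h.symm
  exact_mod_cast h2

/-- decay of the Fourier transform of the sphere -/
theorem decay (n : ℕ) (hn : 2 ≤ n) : ∀ δ : ℝ, 0 < δ → ∃ R : ℝ, ∀ ξ : E n, R ≤ ‖ξ‖ →
    ‖∫ x, Complex.exp ((⟪ξ, (x : E n)⟫ : ℝ) * I) ∂(sigma n)‖ ≤ δ := by
  intro δ hδ
  have hn' : (2 : ℝ) ≤ n := by exact_mod_cast hn
  obtain ⟨c, C, hC, h⟩ := Pool.Agent.TH335.RF.phi_asym n hn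
  set s : ℝ := -((n : ℝ) - 1) / 2 with hs
  have hs0 : s < 0 := by rw [hs]; linarith
  set A : ℝ := (sg (n - 1)).real univ with hA
  have hA0 : 0 ≤ A := measureReal_nonneg
  set D : ℝ := A * (C + 2 * ‖c‖) with hD
  have hD0 : 0 ≤ D := by positivity
  have hlim : Tendsto (fun t : ℝ => D * t ^ s) atTop (𝓝 (D * 0)) := by
    have h1 := tendsto_rpow_neg_atTop (y := -s) (by linarith)
    rw [neg_neg] at h1
    exact h1.const_mul D
  rw [mul_zero] at hlim
  obtain ⟨R, hR⟩ := eventually_atTop.1 (hlim.eventually (gt_mem_nhds hδ))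
  refine ⟨max R 1, fun ξ hξ => ?_⟩
  have ht : 0 < ‖ξ‖ := lt_of_lt_of_le one_pos ((le_max_right R 1).trans hξ)
  have h1 : ∫ x, Complex.exp ((⟪ξ, (x : E n)⟫ : ℝ) * I) ∂(sigma n) =
      ∫ v, Complex.exp (-((⟪-ξ, v⟫ : ℝ) : ℂ) * I) ∂(sg n) := by
    unfold sg
    rw [integral_map measurable_subtype_coe.aemeasurable
      (by fun_prop : Continuous fun v : E n =>
        Complex.exp (-((⟪-ξ, v⟫ : ℝ) : ℂ) * I)).aestronglyMeasurable]
    refine integral_congr_ae (Eventually.of_forall fun x => ?_)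
    simp only [inner_neg_left]
    push_cast
    congr 1; ring
  rw [h1, Pool.Agent.H438R2.BR.sphere_ft n hn, norm_neg, norm_mul, Complex.norm_real,
    Real.norm_eq_abs, abs_of_nonneg measureReal_nonneg]
  have h2 := h ‖ξ‖ ht
  have hts : 0 < ‖ξ‖ ^ s := Real.rpow_pos_of_pos ht _
  have h3 : ‖Pool.Agent.H438R2.BR.Phi n ‖ξ‖‖ ≤ (C + 2 * ‖c‖) * ‖ξ‖ ^ s := by
    calc ‖Pool.Agent.H438R2.BR.Phi n ‖ξ‖‖ = ‖(Pool.Agent.H438R2.BR.Phi n ‖ξ‖ -
          ((‖ξ‖ ^ s : ℝ) : ℂ) * Pool.Agent.TH335.RF.mt c ‖ξ‖) +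
          ((‖ξ‖ ^ s : ℝ) : ℂ) * Pool.Agent.TH335.RF.mt c ‖ξ‖‖ := by rw [sub_add_cancel]
      _ ≤ C * (‖ξ‖ ^ s / (1 + ‖ξ‖)) + ‖ξ‖ ^ s * (2 * ‖c‖) := by
          refine (norm_add_le _ _).trans (add_le_add h2 ?_)
          rw [norm_mul, Complex.norm_real, Real.norm_eq_abs, abs_of_pos hts]
          exact mul_le_mul_of_nonneg_left (Pool.Agent.TH335.RF.norm_mt c _) hts.le
      _ ≤ C * ‖ξ‖ ^ s + ‖ξ‖ ^ s * (2 * ‖c‖) := by
          gcongr
          exact div_le_self hts.le (by linarith)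
      _ = _ := by ring
  calc A * ‖Pool.Agent.H438R2.BR.Phi n ‖ξ‖‖ ≤ A * ((C + 2 * ‖c‖) * ‖ξ‖ ^ s) := by gcongr
    _ = D * ‖ξ‖ ^ s := by rw [hD]; ring
    _ ≤ δ := (hR _ ((le_max_left R 1).trans hξ)).le

/-- trigonometric polynomials with coefficient sum at most `K` -/
def tp {n : ℕ} (v : HH n) (K : ℝ) : Prop :=
  ∃ (L : ℕ) (c : Fin L → ℂ) (η : Fin L → E n), v = ∑ j, c j • ee (η j) ∧ ∑ j, ‖c j‖ ≤ K

variable {n : ℕ}

theorem tp.mono {v : HH n} {K K' : ℝ} (h : tp v K) (hK : K ≤ K') : tp v K' := by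
  obtain ⟨L, c, η, h1, h2⟩ := h
  exact ⟨L, c, η, h1, h2.trans hK⟩

theorem tp.nonneg {v : HH n} {K : ℝ} (h : tp v K) : 0 ≤ K := by
  obtain ⟨L, c, η, h1, h2⟩ := h
  exact (Finset.sum_nonneg fun _ _ => norm_nonneg _).trans h2

theorem tp_zero : tp (0 : HH n) 0 := ⟨0, fun i => i.elim0, fun i => i.elim0, by simp, by simp⟩

theorem tp_ee (η : E n) : tp (ee η) 1 := ⟨1, fun _ => 1, fun _ => η, by simp, by simp⟩

theorem tp.add {v w : HH n} {K K' : ℝ} (hv : tp v K) (hw : tp w K') : tp (v + w) (K + K') := by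
  obtain ⟨L, c, η, h1, h2⟩ := hv
  obtain ⟨L', c', η', h1', h2'⟩ := hw
  refine ⟨L + L', Fin.append c c', Fin.append η η', ?_, ?_⟩
  · rw [Fin.sum_univ_add, h1, h1']
    simp only [Fin.append_left, Fin.append_right]
  · rw [Fin.sum_univ_add]
    simp only [Fin.append_left, Fin.append_right]
    exact add_le_add h2 h2'

theorem tp.smul {v : HH n} {K : ℝ} (hv : tp v K) (a : ℂ) : tp (a • v) (‖a‖ * K) := by
  obtain ⟨L, c, η, h1, h2⟩ := hv
  refine ⟨L, fun j => a * c j, η, ?_, ?_⟩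
  · rw [h1, Finset.smul_sum]
    refine Finset.sum_congr rfl fun j _ => ?_
    rw [mul_smul]
  · simp only [norm_mul]
    rw [← Finset.mul_sum]
    exact mul_le_mul_of_nonneg_left h2 (norm_nonneg _)

theorem tp.neg {v : HH n} {K : ℝ} (hv : tp v K) : tp (-v) K := by
  have h := hv.smul (-1)
  rwa [neg_one_smul, norm_neg, norm_one, one_mul] at h

theorem tp.sub {v w : HH n} {K K' : ℝ} (hv : tp v K) (hw : tp w K') : tp (v - w) (K + K') := by
  rw [sub_eq_add_neg]; exact hv.add hw.neg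

theorem tp_sum {ι : Type} (s : Finset ι) (v : ι → HH n) (K : ι → ℝ) (h : ∀ i ∈ s, tp (v i) (K i)) :
    tp (∑ i ∈ s, v i) (∑ i ∈ s, K i) := by
  classical
  induction s using Finset.induction_on with
  | empty => simpa using tp_zero
  | insert i s hi ih =>
    rw [Finset.sum_insert hi, Finset.sum_insert hi]
    exact (h i (Finset.mem_insert_self i s)).add
      (ih fun j hj => h j (Finset.mem_insert_of_mem hj))

/-- exponentials of high frequency are almost orthogonal to trigonometric polynomials -/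
theorem far_one (hn : 2 ≤ n) {v : HH n} {K : ℝ} (hv : tp v K) (δ : ℝ) (hδ : 0 < δ) :
    ∃ R : ℝ, ∀ η : E n, R ≤ ‖η‖ → ‖inner ℂ v (ee η)‖ ≤ δ := by
  obtain ⟨L, c, ζ, h1, h2⟩ := hv
  have hK : 0 ≤ K := (Finset.sum_nonneg fun _ _ => norm_nonneg _).trans h2
  obtain ⟨R, hR⟩ := decay n hn (δ / (K + 1)) (by positivity)
  refine ⟨R + ∑ j, ‖ζ j‖, fun η hη => ?_⟩
  rw [h1, sum_inner]
  refine (norm_sum_le _ _).trans ?_
  calc ∑ j, ‖inner ℂ (c j • ee (ζ j)) (ee η)‖ ≤ ∑ j, ‖c j‖ * (δ / (K + 1)) := by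
        refine Finset.sum_le_sum fun j _ => ?_
        rw [inner_smul_left, norm_mul, RCLike.norm_conj]
        refine mul_le_mul_of_nonneg_left ?_ (norm_nonneg _)
        rw [inner_ee]
        apply hR
        have h3 : ‖ζ j‖ ≤ ∑ j, ‖ζ j‖ :=
          Finset.single_le_sum (f := fun j => ‖ζ j‖) (fun _ _ => norm_nonneg _)
            (Finset.mem_univ j)
        have h4 := norm_sub_norm_le η (ζ j)
        linarith
    _ = (∑ j, ‖c j‖) * (δ / (K + 1)) := by rw [Finset.sum_mul]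
    _ ≤ K * (δ / (K + 1)) := by gcongr
    _ ≤ δ := by
        rw [mul_div_assoc', div_le_iff₀ (by positivity)]
        nlinarith

end Pool.Agent.X93.ST
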