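import Mathlib
import Pool.Agent.X93.ST.ON
set_option autoImplicit false

/-! Mixing with exponentials of high frequency: an Olevskii type construction. -/

namespace Pool.Agent.X93.ST

open MeasureTheory Set Metric Complex Filter Topology
open scoped ENNReal NNReal RealInnerProductSpace Classical
open Pool.Agent.Results.MP_6cbfb8_an.RidgeDensities (sigma ft)

variable {n : ℕ}

/-- finite orthonormal set -/
def ONS (B : Finset (HH n)) : Prop := ∀ v ∈ B, ∀ w ∈ B, inner ℂ v w = (if v = w then 1 else 0 : ℂ)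

/-- all elements are trigonometric polynomials -/
def tpS (B : Finset (HH n)) : Prop := ∀ v ∈ B, ∃ K, tp v K

theorem ONS.norm {B : Finset (HH n)} (hB : ONS B) {v : HH n} (hv : v ∈ B) : ‖v‖ = 1 := by
  have h := hB v hv v hv
  rw [if_pos rfl, inner_self_eq_norm_sq_to_K] at h
  have h2 : (‖v‖ : ℝ) ^ 2 = 1 := by
    have : ((‖v‖ ^ 2 : ℝ) : ℂ) = 1 := by
      rw [Complex.ofReal_pow]; simpa using h
    exact_mod_cast this
  nlinarith [norm_nonneg v, sq_nonneg (‖v‖ - 1)]

theorem ONS_singleton {v : HH n} (hv : ‖v‖ = 1) : ONS ({v} : Finset (HH n)) := by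
  intro a ha b hb
  rw [Finset.mem_singleton] at ha hb
  subst ha; subst hb
  rw [if_pos rfl, inner_self_eq_norm_sq_to_K, hv]
  simp

theorem ONS.union {B W : Finset (HH n)} (hB : ONS B) (hW : ONS W)
    (h : ∀ b ∈ B, ∀ w ∈ W, inner ℂ b w = (0 : ℂ)) : ONS (B ∪ W) := by
  have hne : ∀ b ∈ B, ∀ w ∈ W, b ≠ w := by
    rintro b hb w hw rfl
    have h1 := h b hb b hw
    rw [inner_self_eq_zero] at h1
    have h2 := hB.norm hb
    rw [h1, norm_zero] at h2
    exact zero_ne_one h2
  intro a ha b hb
  rw [Finset.mem_union] at ha hb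
  rcases ha with ha | ha <;> rcases hb with hb | hb
  · exact hB a ha b hb
  · rw [if_neg (hne a ha b hb)]; exact h a ha b hb
  · rw [if_neg (hne b hb a ha).symm, ← inner_conj_symm, h b hb a ha, map_zero]
  · exact hW a ha b hb

theorem inner_sum_ONS {B : Finset (HH n)} (hB : ONS B) (f : HH n → ℂ) {b : HH n} (hb : b ∈ B) :
    inner ℂ b (∑ b' ∈ B, f b' • b') = f b := by
  rw [inner_sum, Finset.sum_eq_single b]
  · rw [inner_smul_right, hB b hb b hb, if_pos rfl, mul_one]
  · intro b' hb' hne
    rw [inner_smul_right, hB b hb b' hb', if_neg hne.symm, mul_zero]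
  · exact fun h => absurd hb h

theorem far (hn : 2 ≤ n) (B : Finset (HH n)) (hB : ONS B) (hT : tpS B) :
    ∃ u : HH n, ‖u‖ = 1 ∧ (∀ b ∈ B, inner ℂ b u = (0 : ℂ)) ∧
      tp u (4 / Real.sqrt ((sigma n).real univ)) := by
  have hS0 : 0 < (sigma n).real univ := by
    have h := Pool.Agent.Helper36.SphMeas.toSphere_univ_ne_zero (d := n) (by omega)
    exact ENNReal.toReal_pos h (measure_ne_top _ _)
  set s : ℝ := Real.sqrt ((sigma n).real univ) with hs
  have hs0 : 0 < s := Real.sqrt_pos.2 hS0
  choose! K hK using hT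
  have hK0 : ∀ b ∈ B, 0 ≤ K b := fun b hb => (hK b hb).nonneg
  set Q : ℝ := ∑ b ∈ B, K b with hQ
  have hQ0 : 0 ≤ Q := Finset.sum_nonneg hK0
  set δ : ℝ := min (s / (2 * ((B.card : ℝ) + 1))) (1 / (Q + 1)) with hδ
  have hδ0 : 0 < δ := lt_min (by positivity) (by positivity)
  have hfar : ∀ b ∈ B, ∃ R : ℝ, ∀ η : E n, R ≤ ‖η‖ → ‖inner ℂ b (ee η)‖ ≤ δ := fun b hb =>
    far_one hn (hK b hb) δ hδ0
  choose! R hR using hfar
  set η : E n := EuclideanSpace.single ⟨0, by omega⟩ (∑ b ∈ B, |R b|) with hη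
  have hηn : ‖η‖ = ∑ b ∈ B, |R b| := by
    rw [hη]
    simp only [PiLp.norm_single, Real.norm_eq_abs]
    exact abs_of_nonneg (Finset.sum_nonneg fun _ _ => abs_nonneg _)
  have hsm : ∀ b ∈ B, ‖inner ℂ b (ee η)‖ ≤ δ := by
    intro b hb
    apply hR b hb
    rw [hηn]
    exact (le_abs_self _).trans (Finset.single_le_sum (f := fun b => |R b|)
      (fun _ _ => abs_nonneg _) hb)
  set w : HH n := ee η - ∑ b ∈ B, inner ℂ b (ee η) • b with hw
  have hwo : ∀ b ∈ B, inner ℂ b w = (0 : ℂ) := by
    intro b hb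
    rw [hw, inner_sub_right, inner_sum_ONS hB (fun b => inner ℂ b (ee η)) hb, sub_self]
  have hen : ‖ee η‖ = s := by
    rw [hs, ← norm_ee η, Real.sqrt_sq (norm_nonneg _)]
  have hwn : s / 2 ≤ ‖w‖ := by
    have h1 : ‖∑ b ∈ B, inner ℂ b (ee η) • b‖ ≤ s / 2 := by
      refine (norm_sum_le _ _).trans ?_
      calc ∑ b ∈ B, ‖inner ℂ b (ee η) • b‖ ≤ ∑ b ∈ B, δ := by
            refine Finset.sum_le_sum fun b hb => ?_
            rw [norm_smul, hB.norm hb, mul_one]
            exact hsm b hb
        _ = B.card * δ := by rw [Finset.sum_const, nsmul_eq_mul]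
        _ ≤ B.card * (s / (2 * ((B.card : ℝ) + 1))) := by
            gcongr; exact min_le_left _ _
        _ ≤ s / 2 := by
            rw [mul_div_assoc', div_le_div_iff₀ (by positivity) two_pos]
            nlinarith [hs0, (Nat.cast_nonneg B.card : (0:ℝ) ≤ B.card)]
    have h2 := norm_sub_norm_le (ee η) (∑ b ∈ B, inner ℂ b (ee η) • b)
    rw [hen] at h2
    linarith
  have hw0 : 0 < ‖w‖ := by linarith
  have hwt : tp w 2 := by
    have h1 : tp (∑ b ∈ B, inner ℂ b (ee η) • b) (∑ b ∈ B, ‖inner ℂ b (ee η)‖ * K b) := by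
      have : ∀ (s : Finset (HH n)), s ⊆ B → tp (∑ b ∈ s, inner ℂ b (ee η) • b)
          (∑ b ∈ s, ‖inner ℂ b (ee η)‖ * K b) := by
        intro s
        induction s using Finset.induction_on with
        | empty => intro _; simpa using tp_zero
        | insert i s hi ih =>
          intro hs
          rw [Finset.sum_insert hi, Finset.sum_insert hi]
          exact ((hK i (hs (Finset.mem_insert_self i s))).smul _).add
            (ih ((Finset.subset_insert i s).trans hs))
      exact this B subset_rfl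
    refine ((tp_ee η).sub h1).mono ?_
    have h2 : ∑ b ∈ B, ‖inner ℂ b (ee η)‖ * K b ≤ 1 := by
      calc ∑ b ∈ B, ‖inner ℂ b (ee η)‖ * K b ≤ ∑ b ∈ B, δ * K b :=
            Finset.sum_le_sum fun b hb => mul_le_mul_of_nonneg_right (hsm b hb) (hK0 b hb)
        _ = δ * Q := by rw [← Finset.mul_sum]
        _ ≤ 1 / (Q + 1) * Q := by gcongr; exact min_le_right _ _
        _ ≤ 1 := by rw [div_mul_eq_mul_div, one_mul, div_le_one (by positivity)]; linarith
    linarith
  refine ⟨((‖w‖⁻¹ : ℝ) : ℂ) • w, ?_, ?_, ?_⟩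
  · rw [norm_smul, Complex.norm_real, Real.norm_eq_abs, abs_of_pos (by positivity),
      inv_mul_cancel₀ hw0.ne']
  · intro b hb
    rw [inner_smul_right, hwo b hb, mul_zero]
  · refine (hwt.smul _).mono ?_
    rw [Complex.norm_real, Real.norm_eq_abs, abs_of_pos (by positivity), inv_mul_eq_div,
      div_le_div_iff₀ hw0 hs0]
    linarith

theorem r_sq : ((((Real.sqrt 2)⁻¹ : ℝ) : ℂ)) * (((Real.sqrt 2)⁻¹ : ℝ) : ℂ) = 1 / 2 := by
  rw [← Complex.ofReal_mul, ← mul_inv, Real.mul_self_sqrt (by norm_num)]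
  push_cast; norm_num

theorem mix (K0 : ℝ) (hfar : ∀ B : Finset (HH n), ONS B → tpS B →
    ∃ u : HH n, ‖u‖ = 1 ∧ (∀ b ∈ B, inner ℂ b u = (0 : ℂ)) ∧ tp u K0) (k : ℕ) :
    ∀ B : Finset (HH n), ONS B → tpS B → ∀ (v : HH n) (a : ℝ), ‖v‖ = 1 →
      (∀ b ∈ B, inner ℂ b v = (0 : ℂ)) → tp v a →
      ∃ W : Finset (HH n), ONS W ∧ (∀ b ∈ B, ∀ w ∈ W, inner ℂ b w = (0 : ℂ)) ∧
        v ∈ Submodule.span ℂ (W : Set (HH n)) ∧
        ∀ w ∈ W, tp w (a * (Real.sqrt 2)⁻¹ ^ k +
          K0 * ∑ i ∈ Finset.range k, (Real.sqrt 2)⁻¹ ^ (i + 1)) := by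
  induction k with
  | zero =>
    intro B hB hT v a hv hvB hva
    refine ⟨{v}, ONS_singleton hv, ?_, ?_, ?_⟩
    · intro b hb w hw
      rw [Finset.mem_singleton] at hw
      subst hw
      exact hvB b hb
    · rw [Finset.coe_singleton]; exact Submodule.mem_span_singleton_self v
    · intro w hw
      rw [Finset.mem_singleton] at hw
      subst hw
      simpa using hva
  | succ k ih =>
    intro B hB hT v a hv hvB hva
    set r : ℝ := (Real.sqrt 2)⁻¹ with hr
    have hr0 : 0 < r := by positivity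
    have hTv : tpS (B ∪ {v}) := by
      intro b hb
      rw [Finset.mem_union, Finset.mem_singleton] at hb
      rcases hb with hb | rfl
      · exact hT b hb
      · exact ⟨a, hva⟩
    obtain ⟨u, hu, huo, hut⟩ := hfar (B ∪ {v}) (hB.union (ONS_singleton hv) (by
      intro b hb w hw
      rw [Finset.mem_singleton] at hw
      subst hw
      exact hvB b hb)) hTv
    have huB : ∀ b ∈ B, inner ℂ b u = (0 : ℂ) := fun b hb => huo b (Finset.mem_union_left _ hb)
    have huv : inner ℂ v u = (0 : ℂ) := huo v (Finset.mem_union_right _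
      (Finset.mem_singleton_self v))
    have hvu : inner ℂ u v = (0 : ℂ) := by rw [← inner_conj_symm, huv, map_zero]
    have hvv : inner ℂ v v = (1 : ℂ) := by
      rw [inner_self_eq_norm_sq_to_K, hv]; simp
    have huu : inner ℂ u u = (1 : ℂ) := by
      rw [inner_self_eq_norm_sq_to_K, hu]; simp
    set vp : HH n := (r : ℂ) • (v + u) with hvp
    set vm : HH n := (r : ℂ) • (v - u) with hvm
    have hrr : (r : ℂ) * (r : ℂ) = 1 / 2 := r_sq
    have hnp : ‖vp‖ = 1 := by
      have h1 : inner ℂ vp vp = (1 : ℂ) := by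
        rw [hvp, inner_smul_left, inner_smul_right, inner_add_left, inner_add_right,
          inner_add_right, hvv, huu, huv, hvu, Complex.conj_ofReal]
        linear_combination 2 * hrr
      rw [inner_self_eq_norm_sq_to_K] at h1
      have h2 : (‖vp‖ : ℝ) ^ 2 = 1 := by
        have : ((‖vp‖ ^ 2 : ℝ) : ℂ) = 1 := by
          rw [Complex.ofReal_pow]; simpa using h1
        exact_mod_cast this
      nlinarith [norm_nonneg vp, sq_nonneg (‖vp‖ - 1)]
    have hnm : ‖vm‖ = 1 := by
      have h1 : inner ℂ vm vm = (1 : ℂ) := by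
        rw [hvm, inner_smul_left, inner_smul_right, inner_sub_left, inner_sub_right,
          inner_sub_right, hvv, huu, huv, hvu, Complex.conj_ofReal]
        linear_combination 2 * hrr
      rw [inner_self_eq_norm_sq_to_K] at h1
      have h2 : (‖vm‖ : ℝ) ^ 2 = 1 := by
        have : ((‖vm‖ ^ 2 : ℝ) : ℂ) = 1 := by
          rw [Complex.ofReal_pow]; simpa using h1
        exact_mod_cast this
      nlinarith [norm_nonneg vm, sq_nonneg (‖vm‖ - 1)]
    have hmp : inner ℂ vm vp = (0 : ℂ) := by
      rw [hvm, hvp, inner_smul_left, inner_smul_right, inner_sub_left, inner_add_right,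
        inner_add_right, hvv, huu, huv, hvu, Complex.conj_ofReal]
      ring
    have hBp : ∀ b ∈ B, inner ℂ b vp = (0 : ℂ) := by
      intro b hb
      rw [hvp, inner_smul_right, inner_add_right, hvB b hb, huB b hb]; simp
    have hBm : ∀ b ∈ B, inner ℂ b vm = (0 : ℂ) := by
      intro b hb
      rw [hvm, inner_smul_right, inner_sub_right, hvB b hb, huB b hb]; simp
    have htp : tp vp (r * (a + K0)) := by
      refine ((hva.add hut).smul _).mono ?_
      rw [Complex.norm_real, Real.norm_eq_abs, abs_of_pos hr0]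
    have htm : tp vm (r * (a + K0)) := by
      refine ((hva.sub hut).smul _).mono ?_
      rw [Complex.norm_real, Real.norm_eq_abs, abs_of_pos hr0]
    -- first application
    have hB1 : ONS (B ∪ {vm}) := hB.union (ONS_singleton hnm) (by
      intro b hb w hw
      rw [Finset.mem_singleton] at hw
      subst hw
      exact hBm b hb)
    have hT1 : tpS (B ∪ {vm}) := by
      intro b hb
      rw [Finset.mem_union, Finset.mem_singleton] at hb
      rcases hb with hb | rfl
      · exact hT b hb
      · exact ⟨_, htm⟩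
    obtain ⟨Wp, hWp1, hWp2, hWp3, hWp4⟩ := ih (B ∪ {vm}) hB1 hT1 vp (r * (a + K0)) hnp (by
      intro b hb
      rw [Finset.mem_union, Finset.mem_singleton] at hb
      rcases hb with hb | rfl
      · exact hBp b hb
      · exact hmp) htp
    -- second application
    have hB2 : ONS (B ∪ Wp) := hB.union hWp1 fun b hb w hw =>
      hWp2 b (Finset.mem_union_left _ hb) w hw
    have hT2 : tpS (B ∪ Wp) := by
      intro b hb
      rw [Finset.mem_union] at hb
      rcases hb with hb | hb
      · exact hT b hb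
      · exact ⟨_, hWp4 b hb⟩
    obtain ⟨Wm, hWm1, hWm2, hWm3, hWm4⟩ := ih (B ∪ Wp) hB2 hT2 vm (r * (a + K0)) hnm (by
      intro b hb
      rw [Finset.mem_union] at hb
      rcases hb with hb | hb
      · exact hBm b hb
      · rw [← inner_conj_symm, hWp2 vm (Finset.mem_union_right _
          (Finset.mem_singleton_self vm)) b hb, map_zero]) htm
    refine ⟨Wp ∪ Wm, ?_, ?_, ?_, ?_⟩
    · exact hWp1.union hWm1 fun b hb w hw => hWm2 b (Finset.mem_union_right _ hb) w hw
    · intro b hb w hw
      rw [Finset.mem_union] at hw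
      rcases hw with hw | hw
      · exact hWp2 b (Finset.mem_union_left _ hb) w hw
      · exact hWm2 b (Finset.mem_union_left _ hb) w hw
    · have h1 : v = (r : ℂ) • vp + (r : ℂ) • vm := by
        rw [hvp, hvm, smul_smul, smul_smul, ← smul_add, hrr]
        rw [show v + u + (v - u) = (2 : ℂ) • v by rw [two_smul]; abel, smul_smul]
        norm_num
      rw [h1]
      refine Submodule.add_mem _ (Submodule.smul_mem _ _ ?_) (Submodule.smul_mem _ _ ?_)
      · exact Submodule.span_mono (by rw [Finset.coe_union]; exact subset_union_left) hWp3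
      · exact Submodule.span_mono (by rw [Finset.coe_union]; exact subset_union_right) hWm3
    · have hval : r * (a + K0) * r ^ k + K0 * ∑ i ∈ Finset.range k, r ^ (i + 1) =
          a * r ^ (k + 1) + K0 * ∑ i ∈ Finset.range (k + 1), r ^ (i + 1) := by
        rw [Finset.sum_range_succ, pow_succ]
        ring
      intro w hw
      rw [← hval]
      rw [Finset.mem_union] at hw
      rcases hw with hw | hw
      · exact hWp4 w hw
      · exact hWm4 w hw

end Pool.Agent.X93.ST
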