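import Mathlib
import Pool.Agent.X93.ST.ON2
set_option autoImplicit false

/-! An orthonormal basis of trigonometric polynomials with bounded coefficient sums. -/

namespace Pool.Agent.X93.ST

open MeasureTheory Set Metric Complex Filter Topology
open scoped ENNReal NNReal RealInnerProductSpace Classical
open Pool.Agent.Results.MP_6cbfb8_an.RidgeDensities (sigma ft)

variable {n : ℕ}

theorem r_sum (k : ℕ) : ∑ i ∈ Finset.range k, (Real.sqrt 2)⁻¹ ^ (i + 1) ≤ 3 := by
  have hr : (Real.sqrt 2)⁻¹ ≤ 3 / 4 := by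
    rw [inv_le_comm₀ (by positivity) (by norm_num)]
    apply Real.le_sqrt_of_sq_le
    norm_num
  have h1 : ∑ i ∈ Finset.range k, (Real.sqrt 2)⁻¹ ^ (i + 1) ≤
      ∑ i ∈ Finset.range k, (3 / 4 : ℝ) ^ (i + 1) := by
    refine Finset.sum_le_sum fun i _ => ?_
    exact pow_le_pow_left₀ (by positivity) hr _
  have h2 : ∀ k : ℕ, ∑ i ∈ Finset.range k, (3 / 4 : ℝ) ^ (i + 1) = 3 * (1 - (3 / 4) ^ k) := by
    intro k
    induction k with
    | zero => simp
    | succ k ih => rw [Finset.sum_range_succ, ih, pow_succ]; ring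
  rw [h2] at h1
  have : (0 : ℝ) ≤ (3 / 4) ^ k := by positivity
  linarith

theorem step (hn : 2 ≤ n) : ∃ K1 : ℝ, 0 < K1 ∧ ∀ B : Finset (HH n), ONS B → (∀ b ∈ B, tp b K1) →
    ∀ ψ : HH n, (∃ a, tp ψ a) → ∃ B' : Finset (HH n), B ⊆ B' ∧ ONS B' ∧ (∀ b ∈ B', tp b K1) ∧
      ψ ∈ Submodule.span ℂ (B' : Set (HH n)) := by
  set K0 : ℝ := 4 / Real.sqrt ((sigma n).real univ) with hK0
  have hK00 : 0 ≤ K0 := by positivity
  refine ⟨1 + K0 * 3, by positivity, ?_⟩
  rintro B hB hT ψ ⟨a, ha⟩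
  have hTS : tpS B := fun b hb => ⟨_, hT b hb⟩
  set u0 : HH n := ψ - ∑ b ∈ B, inner ℂ b ψ • b with hu0
  have huo : ∀ b ∈ B, inner ℂ b u0 = (0 : ℂ) := by
    intro b hb
    rw [hu0, inner_sub_right, inner_sum_ONS hB (fun b => inner ℂ b ψ) hb, sub_self]
  have hψ : ψ = u0 + ∑ b ∈ B, inner ℂ b ψ • b := by rw [hu0, sub_add_cancel]
  have hmemB : ∀ B' : Finset (HH n), B ⊆ B' →
      ∑ b ∈ B, inner ℂ b ψ • b ∈ Submodule.span ℂ (B' : Set (HH n)) := by
    intro B' hBB
    refine Submodule.sum_mem _ fun b hb => Submodule.smul_mem _ _ ?_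
    exact Submodule.subset_span (Finset.mem_coe.2 (hBB hb))
  by_cases h0 : u0 = 0
  · refine ⟨B, subset_rfl, hB, hT, ?_⟩
    rw [hψ, h0, zero_add]
    exact hmemB B subset_rfl
  have hn0 : 0 < ‖u0‖ := norm_pos_iff.2 h0
  obtain ⟨a1, ha1⟩ : ∃ a1, tp u0 a1 := by
    have h1 : ∀ s : Finset (HH n), s ⊆ B → ∃ a2, tp (∑ b ∈ s, inner ℂ b ψ • b) a2 := by
      intro s
      induction s using Finset.induction_on with
      | empty => intro _; exact ⟨0, by simpa using tp_zero⟩
      | insert i s hi ih =>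
        intro hs
        obtain ⟨a2, ha2⟩ := ih ((Finset.subset_insert i s).trans hs)
        have h2 := ((hT i (hs (Finset.mem_insert_self i s))).smul (inner ℂ i ψ)).add ha2
        exact ⟨_, by rw [Finset.sum_insert hi]; exact h2⟩
    obtain ⟨a2, ha2⟩ := h1 B subset_rfl
    exact ⟨_, ha.sub ha2⟩
  set v : HH n := ((‖u0‖⁻¹ : ℝ) : ℂ) • u0 with hv
  have hvn : ‖v‖ = 1 := by
    rw [hv, norm_smul, Complex.norm_real, Real.norm_eq_abs, abs_of_pos (by positivity),
      inv_mul_cancel₀ hn0.ne']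
  have hvo : ∀ b ∈ B, inner ℂ b v = (0 : ℂ) := by
    intro b hb
    rw [hv, inner_smul_right, huo b hb, mul_zero]
  have hvt := ha1.smul ((‖u0‖⁻¹ : ℝ) : ℂ)
  rw [← hv] at hvt
  set a3 : ℝ := ‖((‖u0‖⁻¹ : ℝ) : ℂ)‖ * a1 with ha3
  have ha30 : 0 ≤ a3 := hvt.nonneg
  obtain ⟨k, hk⟩ : ∃ k : ℕ, a3 * (Real.sqrt 2)⁻¹ ^ k ≤ 1 := by
    obtain ⟨k, hk⟩ := exists_pow_lt_of_lt_one (show 0 < 1 / (a3 + 1) by positivity)
      (show (Real.sqrt 2)⁻¹ < 1 by
        rw [inv_lt_one₀ (by positivity)]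
        apply Real.lt_sqrt_of_sq_lt
        norm_num)
    refine ⟨k, ?_⟩
    calc a3 * (Real.sqrt 2)⁻¹ ^ k ≤ a3 * (1 / (a3 + 1)) := by gcongr
      _ ≤ 1 := by rw [mul_one_div, div_le_one (by positivity)]; linarith
  obtain ⟨W, hW1, hW2, hW3, hW4⟩ := mix K0 (fun B hB hT => far hn B hB hT) k B hB hTS v a3 hvn hvo
    hvt
  refine ⟨B ∪ W, Finset.subset_union_left, hB.union hW1 hW2, ?_, ?_⟩
  · intro b hb
    rw [Finset.mem_union] at hb
    rcases hb with hb | hb
    · exact hT b hb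
    · refine (hW4 b hb).mono ?_
      have := mul_le_mul_of_nonneg_left (r_sum k) hK00
      linarith
  · rw [hψ]
    refine Submodule.add_mem _ ?_ (hmemB _ Finset.subset_union_left)
    have h1 : u0 = ((‖u0‖ : ℝ) : ℂ) • v := by
      rw [hv, smul_smul, ← Complex.ofReal_mul, mul_inv_cancel₀ hn0.ne', Complex.ofReal_one,
        one_smul]
    rw [h1]
    refine Submodule.smul_mem _ _ (Submodule.span_mono ?_ hW3)
    rw [Finset.coe_union]; exact subset_union_right

theorem norm_le_of_bound {v : HH n} {C : ℝ} (hC : 0 ≤ C) (h : ∀ᵐ x ∂(sigma n), ‖v x‖ ≤ C) :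
    ‖v‖ ≤ ((measureUnivNNReal (sigma n) : ℝ) ^ (1 / 2 : ℝ)) * C := by
  have h1 := Lp.norm_le_of_ae_bound hC h
  convert h1 using 2
  simp

theorem ee_cont : Continuous (ee : E n → HH n) := by
  set M : ℝ := (measureUnivNNReal (sigma n) : ℝ) ^ (1 / 2 : ℝ) with hM
  have hM0 : 0 ≤ M := by positivity
  have h1 : ∀ η η' : E n, ‖ee η - ee η'‖ ≤ M * ‖η - η'‖ := by
    intro η η'
    refine norm_le_of_bound (norm_nonneg _) ?_
    filter_upwards [Lp.coeFn_sub (ee η) (ee η'), ee_ae η, ee_ae η'] with x hx h1 h2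
    rw [hx, Pi.sub_apply, h1, h2]
    have e1 : Complex.exp ((⟪η, (x : E n)⟫ : ℝ) * I) - Complex.exp ((⟪η', (x : E n)⟫ : ℝ) * I) =
        Complex.exp ((⟪η', (x : E n)⟫ : ℝ) * I) *
          (Complex.exp (I * ((⟪η - η', (x : E n)⟫ : ℝ) : ℂ)) - 1) := by
      rw [mul_sub, ← Complex.exp_add, mul_one, inner_sub_left]
      congr 2
      push_cast; ring
    rw [e1, norm_mul, Complex.norm_exp_ofReal_mul_I, one_mul]
    refine Real.norm_exp_I_mul_ofReal_sub_one_le.trans ?_
    rw [Real.norm_eq_abs]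
    refine (abs_real_inner_le_norm _ _).trans ?_
    have : ‖(x : E n)‖ = 1 := mem_sphere_zero_iff_norm.1 x.2
    rw [this, mul_one]
  have h2 : LipschitzWith (Real.toNNReal M) (ee : E n → HH n) := by
    refine LipschitzWith.of_dist_le_mul fun η η' => ?_
    rw [dist_eq_norm, dist_eq_norm, Real.coe_toNNReal _ hM0]
    exact h1 η η'
  exact h2.continuous

theorem coeFn_sum' {ι : Type} (s : Finset ι) (f : ι → HH n) :
    ((∑ i ∈ s, f i : HH n) : sphere (0 : E n) 1 → ℂ) =ᵐ[sigma n] fun x => ∑ i ∈ s, f i x := by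
  induction s using Finset.induction_on with
  | empty =>
    simp only [Finset.sum_empty]
    filter_upwards [Lp.coeFn_zero ℂ 2 (sigma n)] with x hx
    rw [hx]; rfl
  | insert i s hi ih =>
    rw [Finset.sum_insert hi]
    filter_upwards [Lp.coeFn_add (f i) (∑ i ∈ s, f i), ih] with x h1 h2
    rw [h1, Pi.add_apply, h2, Finset.sum_insert hi]

theorem span_dense (V : Submodule ℂ (HH n)) (hV : ∀ η : E n, ee η ∈ V.topologicalClosure) :
    ⊤ ≤ V.topologicalClosure := by
  intro v _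
  have hcl : IsClosed (V.topologicalClosure : Set (HH n)) := V.isClosed_topologicalClosure
  have hd := ContinuousMap.toLp_denseRange ℂ (sigma n) ℂ (p := 2) (by norm_num)
  have hsub : range (ContinuousMap.toLp 2 (sigma n) ℂ : C(sphere (0 : E n) 1, ℂ) →L[ℂ] HH n) ⊆
      (V.topologicalClosure : Set (HH n)) := by
    rintro _ ⟨ψ, rfl⟩
    rw [← hcl.closure_eq, Metric.mem_closure_iff]
    intro δ hδ
    set M : ℝ := (measureUnivNNReal (sigma n) : ℝ) ^ (1 / 2 : ℝ) with hM
    have hM0 : 0 ≤ M := by positivity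
    obtain ⟨L, c, η, ht⟩ := trig_dense ψ (δ / (2 * (M + 1))) (by positivity)
    refine ⟨∑ j, c j • ee (η j), Submodule.sum_mem _ fun j _ =>
      Submodule.smul_mem _ _ (hV (η j)), ?_⟩
    rw [dist_eq_norm]
    refine lt_of_le_of_lt (norm_le_of_bound (C := δ / (2 * (M + 1))) (by positivity) ?_) ?_
    · have h1 : (∑ j, c j • ee (η j) : HH n) =ᵐ[sigma n] fun x => trig c η x := by
        have h2 : ∀ᵐ x ∂(sigma n), ∀ j : Fin L, (c j • ee (η j) : HH n) x =
            c j * Complex.exp ((⟪η j, (x : E n)⟫ : ℝ) * I) := by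
          rw [ae_all_iff]
          intro j
          filter_upwards [Lp.coeFn_smul (c j) (ee (η j)), ee_ae (η j)] with x h3 h4
          rw [h3, Pi.smul_apply, h4, smul_eq_mul]
        have h5 := coeFn_sum' (Finset.univ : Finset (Fin L))
          (fun j => (c j • ee (η j) : HH n))
        filter_upwards [h2, h5] with x h3 h4
        rw [h4]
        unfold trig
        exact Finset.sum_congr rfl fun j _ => h3 j
      filter_upwards [Lp.coeFn_sub (ContinuousMap.toLp 2 (sigma n) ℂ ψ : HH n)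
        (∑ j, c j • ee (η j)), h1, ContinuousMap.coeFn_toLp (p := 2) (𝕜 := ℂ) (sigma n) ψ]
        with x h3 h4 h5
      rw [h3, Pi.sub_apply, h4, h5]
      exact ht x
    · rw [← hM, mul_div_assoc', div_lt_iff₀ (by positivity)]
      nlinarith
  have h2 : closure (range (ContinuousMap.toLp 2 (sigma n) ℂ :
      C(sphere (0 : E n) 1, ℂ) →L[ℂ] HH n)) ⊆ (V.topologicalClosure : Set (HH n)) :=
    closure_minimal hsub hcl
  exact h2 (hd v)

/-- the orthonormal basis -/
theorem basis (hn : 2 ≤ n) : ∃ K : ℝ, 0 < K ∧ ∃ b : HilbertBasis ℕ ℂ (HH n), ∀ k, tp (b k) K := by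
  obtain ⟨K, hK, hstep⟩ := step (n := n) hn
  refine ⟨K, hK, ?_⟩
  set η : ℕ → E n := TopologicalSpace.denseSeq (E n) with hη
  have hηd : DenseRange η := TopologicalSpace.denseRange_denseSeq (E n)
  let X := {B : Finset (HH n) // ONS B ∧ ∀ b ∈ B, tp b K}
  have hex : ∀ (m : ℕ) (B : X), ∃ B' : X, B.1 ⊆ B'.1 ∧
      ee (η m) ∈ Submodule.span ℂ (B'.1 : Set (HH n)) := by
    intro m B
    obtain ⟨B', h1, h2, h3, h4⟩ := hstep B.1 B.2.1 B.2.2 (ee (η m)) ⟨1, tp_ee _⟩
    exact ⟨⟨B', h2, h3⟩, h1, h4⟩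
  choose nx hnx1 hnx2 using hex
  let Bs : ℕ → X := fun m => Nat.rec ⟨∅, by intro v hv; simp at hv, by simp⟩ (fun m B => nx m B) m
  have hBs : ∀ m, Bs (m + 1) = nx m (Bs m) := fun m => rfl
  have hmono : Monotone fun m => (Bs m).1 := by
    refine monotone_nat_of_le_succ fun m => ?_
    rw [hBs]
    exact hnx1 m (Bs m)
  set U : Set (HH n) := ⋃ m, ((Bs m).1 : Set (HH n)) with hU
  have hUc : U.Countable := countable_iUnion fun m => (Bs m).1.countable_toSet
  have hUt : ∀ u ∈ U, tp u K := by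
    intro u hu
    obtain ⟨m, hm⟩ := mem_iUnion.1 hu
    exact (Bs m).2.2 u hm
  have hUo : Orthonormal ℂ (Subtype.val : U → HH n) := by
    rw [orthonormal_subtype_iff_ite]
    intro v hv w hw
    obtain ⟨m, hm⟩ := mem_iUnion.1 hv
    obtain ⟨m', hm'⟩ := mem_iUnion.1 hw
    exact (Bs (max m m')).2.1 v (hmono (le_max_left m m') hm) w (hmono (le_max_right m m') hm')
  set V : Submodule ℂ (HH n) := Submodule.span ℂ U with hV
  have hVt : ⊤ ≤ V.topologicalClosure := by
    refine span_dense V fun ζ => ?_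
    have hcl : IsClosed (ee ⁻¹' (V.topologicalClosure : Set (HH n)) : Set (E n)) :=
      V.isClosed_topologicalClosure.preimage ee_cont
    have h1 : range η ⊆ (ee ⁻¹' (V.topologicalClosure : Set (HH n)) : Set (E n)) := by
      rintro _ ⟨m, rfl⟩
      refine V.le_topologicalClosure ?_
      refine Submodule.span_mono ?_ (hnx2 m (Bs m))
      rw [← hBs]
      exact subset_iUnion (fun m => ((Bs m).1 : Set (HH n))) (m + 1)
    have h2 := closure_minimal h1 hcl
    exact h2 (hηd ζ)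
  have hUi : U.Infinite := by
    intro hfin
    set B := hfin.toFinset with hB
    have hBo : ONS B := by
      intro v hv w hw
      rw [hB, Set.Finite.mem_toFinset] at hv hw
      exact (orthonormal_subtype_iff_ite.1 hUo) v hv w hw
    obtain ⟨u, hu1, hu2, -⟩ := far hn B hBo fun b hb => ⟨K, hUt b (hfin.mem_toFinset.1 hb)⟩
    have h1 : V ≤ (Submodule.span ℂ {u})ᗮ := by
      rw [hV, Submodule.span_le]
      intro b hb
      rw [SetLike.mem_coe, Submodule.mem_orthogonal_singleton_iff_inner_left]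
      exact hu2 b (hfin.mem_toFinset.2 hb)
    have h2 : V.topologicalClosure ≤ (Submodule.span ℂ {u})ᗮ :=
      Submodule.topologicalClosure_minimal _ h1 (Submodule.isClosed_orthogonal _)
    have h3 : u ∈ (Submodule.span ℂ {u})ᗮ := h2 (hVt trivial)
    rw [Submodule.mem_orthogonal_singleton_iff_inner_left, inner_self_eq_zero] at h3
    rw [h3, norm_zero] at hu1
    exact zero_ne_one hu1
  haveI : Countable U := hUc.to_subtype
  haveI : Infinite U := hUi.to_subtype
  obtain ⟨e⟩ : Nonempty (ℕ ≃ U) := nonempty_equiv_of_countable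
  have hw : Orthonormal ℂ fun k : ℕ => ((e k : U) : HH n) := hUo.comp e e.injective
  have hr : range (fun k : ℕ => ((e k : U) : HH n)) = U := by
    ext x
    constructor
    · rintro ⟨k, rfl⟩; exact (e k).2
    · intro hx; exact ⟨e.symm ⟨x, hx⟩, by simp⟩
  refine ⟨HilbertBasis.mk hw (by rw [hr]; exact hVt), fun k => ?_⟩
  rw [HilbertBasis.coe_mk]
  exact hUt _ (e k).2

end Pool.Agent.X93.ST
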