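import Mathlib
import Pool.Agent.X93.ST.Mom
import Pool.Agent.X93.ST.Corr
import Pool.Agent.X93.ST.ON3
set_option autoImplicit false

/-! Random signs. -/

namespace Pool.Agent.X93.ST

open MeasureTheory Set Metric Complex Filter Topology ProbabilityTheory
open scoped ENNReal NNReal RealInnerProductSpace
open Pool.Agent.Results.MP_6cbfb8_an.RidgeDensities (sigma ft)

/-- real sign -/
noncomputable def sgR (t : Bool) : ℝ := if t then 1 else -1

/-- complex sign -/
noncomputable def sgC (t : Bool) : ℂ := if t then 1 else -1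

theorem sgC_eq (t : Bool) : sgC t = (sgR t : ℂ) := by unfold sgC sgR; split_ifs <;> simp

theorem sgC_norm (t : Bool) : ‖sgC t‖ = 1 := by unfold sgC; split_ifs <;> simp

section

variable {Ω : Type} [MeasurableSpace Ω] {P : Measure Ω} [IsProbabilityMeasure P]

theorem law (β : ℕ → Ω → Bool) (hβ : ∀ k, Measurable (β k)) (hind : iIndepFun β P)
    (hfair : ∀ k, P {ω | β k ω = true} = 1 / 2) (N : ℕ) (F : (Fin N → Bool) → ℝ≥0∞) :
    ∫⁻ ω, F (fun i => β i ω) ∂P = ∑ z : Fin N → Bool, F z * (1 / 2) ^ N := by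
  have h1 : iIndepFun (fun i : Fin N => β i) P := hind.precomp Fin.val_injective
  have h2 := (iIndepFun_iff_map_fun_eq_pi_map fun i : Fin N => (hβ i).aemeasurable).1 h1
  have hm : Measurable fun ω => fun i : Fin N => β i ω := measurable_pi_lambda _ fun i => hβ i
  have h3 : ∀ (i : Fin N) (t : Bool), P.map (β i) {t} = 1 / 2 := by
    intro i t
    rw [Measure.map_apply (hβ i) (measurableSet_singleton t)]
    have h4 := hfair i
    cases t with
    | true => exact h4
    | false =>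
      have h5 : (β (i : ℕ) ⁻¹' {false}) = {ω | β i ω = true}ᶜ := by
        ext ω
        simp
      have hms : MeasurableSet {ω | β i ω = true} := hβ i (measurableSet_singleton true)
      rw [h5, prob_compl_eq_one_sub hms, h4]
      norm_num
  have hp : ∀ i : Fin N, IsProbabilityMeasure (P.map (β i)) := fun i =>
    Measure.isProbabilityMeasure_map (hβ i).aemeasurable
  have h4 : ∫⁻ ω, F (fun i => β i ω) ∂P =
      ∫⁻ z, F z ∂(P.map fun ω => fun i : Fin N => β i ω) := by
    rw [lintegral_map (measurable_of_finite F) hm]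
  rw [h4, h2, lintegral_fintype]
  refine Finset.sum_congr rfl fun z _ => ?_
  rw [Measure.pi_singleton]
  congr 1
  rw [Finset.prod_congr rfl fun i _ => h3 i (z i)]
  simp

theorem moment (β : ℕ → Ω → Bool) (hβ : ∀ k, Measurable (β k)) (hind : iIndepFun β P)
    (hfair : ∀ k, P {ω | β k ω = true} = 1 / 2) (N : ℕ) (a : ℕ → ℂ) (p : ℝ) (hp0 : 0 < p)
    (hp : p ≤ 4) : ∫⁻ ω, ‖∑ k ∈ Finset.range N, sgC (β k ω) * a k‖ₑ ^ p ∂P ≤
      ENNReal.ofReal (4 ^ (p / 4) * (∑ k ∈ Finset.range N, ‖a k‖ ^ 2) ^ (p / 2)) := by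
  have h1 := law β hβ hind hfair N (fun z => ‖RS sgR (fun i : Fin N => a i) z‖ₑ ^ p)
  have h2 : ∀ ω, (∑ k ∈ Finset.range N, sgC (β k ω) * a k) =
      RS sgR (fun i : Fin N => a i) (fun i => β i ω) := by
    intro ω
    unfold RS
    rw [Finset.sum_range]
    refine Finset.sum_congr rfl fun i _ => ?_
    rw [sgC_eq]
  simp_rw [h2]
  rw [h1, ← Finset.sum_mul]
  simp_rw [enorm_rpow _ hp0.le]
  rw [← ENNReal.ofReal_sum_of_nonneg fun _ _ => by positivity]
  have h3 := upper (Ω := Bool) sgR (by simp [sgR]) 1 le_rfl (by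
    intro w; unfold sgR; split_ifs <;> simp) (fun i : Fin N => a i) p hp0 hp
  rw [Fintype.card_bool] at h3
  have h4 : ((1 : ℝ≥0∞) / 2) ^ N = ENNReal.ofReal ((1 / 2) ^ N) := by
    rw [ENNReal.ofReal_pow (by norm_num), ENNReal.ofReal_div_of_pos (by norm_num)]
    simp
  rw [h4, ← ENNReal.ofReal_mul (Finset.sum_nonneg fun _ _ => by positivity)]
  apply ENNReal.ofReal_le_ofReal
  have h5 : A2 (fun i : Fin N => a i) = ∑ k ∈ Finset.range N, ‖a k‖ ^ 2 := by
    unfold A2
    rw [Finset.sum_range]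
  rw [← h5]
  calc (∑ z, ‖RS sgR (fun i : Fin N => a i) z‖ ^ p) * (1 / 2) ^ N
      ≤ (((2 : ℕ) : ℝ) ^ N * ((4 * 1 ^ 5) ^ (p / 4) * A2 (fun i : Fin N => a i) ^ (p / 2))) *
        (1 / 2) ^ N := by gcongr
    _ = _ := by
        have h6 : (2 : ℝ) ^ N * (1 / 2) ^ N = 1 := by rw [← mul_pow]; norm_num
        push_cast
        rw [one_pow, mul_one]
        linear_combination (4 ^ (p / 4) * A2 (fun i : Fin N => a i) ^ (p / 2)) * h6

end

variable {n : ℕ}

/-- the transform as a functional -/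
theorem ft_inner (v : HH n) (ξ : E n) : ft v ξ = inner ℂ (ee ((2 * Real.pi) • ξ)) v := by
  rw [L2.inner_def]
  unfold ft
  refine integral_congr_ae ?_
  filter_upwards [ee_ae ((2 * Real.pi) • ξ)] with x h1
  rw [h1, RCLike.inner_apply, ← Complex.exp_conj, mul_comm]
  congr 1
  simp only [map_mul, Complex.conj_ofReal, Complex.conj_I]
  rw [real_inner_smul_left, real_inner_comm]
  congr 1
  push_cast; ring

theorem ft_tp (hn : 3 ≤ n) (p : ℝ) (hp : 2 * (n : ℝ) / (n - 1) < p) (K : ℝ) :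
    ∃ D : ℝ, 0 < D ∧ ∀ v : HH n, tp v K → ∫⁻ ξ, ‖ft v ξ‖ₑ ^ p ≤ ENNReal.ofReal (D ^ p) := by
  have hn1 : (1 : ℝ) < n := by exact_mod_cast (by omega : 1 < n)
  have hpc : 2 < 2 * (n : ℝ) / (n - 1) := by
    rw [lt_div_iff₀ (by linarith)]; linarith
  obtain ⟨C, hC, h⟩ := ridge n hn p hp
  refine ⟨C * (|K| + 1), by positivity, ?_⟩
  rintro v ⟨L, c, η, hv, hK⟩
  set e : E n := EuclideanSpace.single ⟨0, by omega⟩ 1 with he0
  have he : ‖e‖ = 1 := by rw [he0]; simp
  have h1 := (h L c η e he (fun _ => 1) measurable_const 1 (fun _ => by simp)).2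
  have h2 : ft v = ft (tr c η e fun _ => 1) := by
    funext ξ
    unfold ft
    refine integral_congr_ae ?_
    have h3 : ∀ᵐ x ∂(sigma n), ∀ j : Fin L, (c j • ee (η j) : HH n) x =
        c j * Complex.exp ((⟪η j, (x : E n)⟫ : ℝ) * I) := by
      rw [ae_all_iff]
      intro j
      filter_upwards [Lp.coeFn_smul (c j) (ee (η j)), ee_ae (η j)] with x h3 h4
      rw [h3, Pi.smul_apply, h4, smul_eq_mul]
    have h5 := coeFn_sum' (Finset.univ : Finset (Fin L)) (fun j => (c j • ee (η j) : HH n))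
    rw [← hv] at h5
    filter_upwards [h3, h5] with x h3 h4
    rw [h4]
    unfold tr trig
    rw [mul_one, Finset.sum_congr rfl fun j _ => h3 j]
  rw [h2]
  rw [eLpNorm_eq_lintegral_rpow_enorm_toReal (by simp; linarith) (by simp),
    ENNReal.toReal_ofReal (by linarith)] at h1
  have h3 := ENNReal.rpow_le_rpow h1 (show 0 ≤ p by linarith)
  rw [← ENNReal.rpow_mul, one_div, inv_mul_cancel₀ (by linarith), ENNReal.rpow_one] at h3
  refine h3.trans ?_
  rw [← ENNReal.ofReal_rpow_of_nonneg (by positivity) (by linarith)]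
  apply ENNReal.rpow_le_rpow _ (by linarith)
  apply ENNReal.ofReal_le_ofReal
  have h4 : ∑ j, ‖c j‖ ≤ |K| + 1 := by
    have := le_abs_self K
    linarith
  rw [one_mul]
  gcongr

theorem ft_L2 (v : HH n) (ξ : E n) : ‖ft v ξ‖ ≤ Real.sqrt ((sigma n).real univ) * ‖v‖ := by
  rw [ft_inner]
  refine (norm_inner_le_norm _ _).trans (le_of_eq ?_)
  rw [← norm_ee ((2 * Real.pi) • ξ), Real.sqrt_sq (norm_nonneg _)]

theorem ft_HH_cont (v : HH n) : Continuous (ft (v : sphere (0 : E n) 1 → ℂ)) := by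
  have : (ft (v : sphere (0 : E n) 1 → ℂ)) = fun ξ => inner ℂ (ee ((2 * Real.pi) • ξ)) v :=
    funext fun ξ => ft_inner v ξ
  rw [this]
  exact (ee_cont.comp (by fun_prop)).inner continuous_const

end Pool.Agent.X93.ST
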