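import Mathlib
import Pool.Agent.X93.ST.Sgn
set_option autoImplicit false

/-! Random sign changes in an orthonormal basis of trigonometric polynomials. -/

namespace Pool.Agent.X93.ST

open MeasureTheory Set Metric Complex Filter Topology ProbabilityTheory
open scoped ENNReal NNReal RealInnerProductSpace
open Pool.Agent.Results.MP_6cbfb8_an.RidgeDensities (sigma ft)

variable {n : ℕ}

/-- the density with changed signs of the coefficients -/
noncomputable def signed (b : HilbertBasis ℕ ℂ (HH n)) (g : HH n) (s : ℕ → Bool) : HH n :=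
  ∑' k, (sgC (s k) * inner ℂ (b k) g) • b k

theorem signed_mem (b : HilbertBasis ℕ ℂ (HH n)) (g : HH n) (s : ℕ → Bool) :
    Memℓp (fun k => sgC (s k) * inner ℂ (b k) g) 2 := by
  have h1 := (lp.memℓp (b.repr g)).summable (by norm_num)
  refine memℓp_gen (h1.congr fun k => ?_)
  rw [norm_mul, sgC_norm, one_mul, b.repr_apply_apply]

theorem signed_hasSum (b : HilbertBasis ℕ ℂ (HH n)) (g : HH n) (s : ℕ → Bool) :
    HasSum (fun k => (sgC (s k) * inner ℂ (b k) g) • b k) (signed b g s) := by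
  have h := b.hasSum_repr_symm ⟨_, signed_mem b g s⟩
  exact h.summable.hasSum

theorem signed_norm (b : HilbertBasis ℕ ℂ (HH n)) (g : HH n) (s : ℕ → Bool) :
    ‖signed b g s‖ = ‖g‖ := by
  have h := b.hasSum_repr_symm ⟨_, signed_mem b g s⟩
  have h1 : signed b g s = b.repr.symm ⟨_, signed_mem b g s⟩ := h.tsum_eq
  rw [h1, LinearIsometryEquiv.norm_map, ← b.repr.norm_map g, lp.norm_eq_tsum_rpow (by norm_num),
    lp.norm_eq_tsum_rpow (by norm_num)]
  congr 1
  refine tsum_congr fun k => ?_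
  congr 1
  rw [b.repr_apply_apply]
  simp only [norm_mul, sgC_norm, one_mul]

theorem lim_partial (b : HilbertBasis ℕ ℂ (HH n)) (g : HH n) (s : ℕ → Bool) (ξ : E n) :
    Tendsto (fun N => ∑ k ∈ Finset.range N, sgC (s k) * (inner ℂ (b k) g * ft (b k) ξ)) atTop
      (𝓝 (ft (signed b g s) ξ)) := by
  have h1 := (innerSL ℂ (ee ((2 * Real.pi) • ξ))).hasSum (signed_hasSum b g s)
  have h2 := h1.tendsto_sum_nat
  simp only [innerSL_apply_apply, inner_smul_right] at h2
  rw [← ft_inner] at h2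
  refine h2.congr fun N => ?_
  refine Finset.sum_congr rfl fun k _ => ?_
  rw [ft_inner]
  ring

section

variable {Ω : Type} [MeasurableSpace Ω] {P : Measure Ω} [IsProbabilityMeasure P]

theorem part_meas (b : HilbertBasis ℕ ℂ (HH n)) (g : HH n) (β : ℕ → Ω → Bool)
    (hβ : ∀ k, Measurable (β k)) (N : ℕ) : Measurable fun z : Ω × E n =>
      ∑ k ∈ Finset.range N, sgC (β k z.1) * (inner ℂ (b k) g * ft (b k) z.2) := by
  refine Finset.measurable_fun_sum _ fun k _ => ?_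
  have h1 : Measurable fun z : Ω × E n => sgC (β k z.1) :=
    (measurable_of_finite sgC).comp ((hβ k).comp measurable_fst)
  have h2 : Measurable fun z : Ω × E n => ft (b k) z.2 :=
    (ft_HH_cont (b k)).measurable.comp measurable_snd
  exact h1.mul (h2.const_mul _)

theorem signed_meas (b : HilbertBasis ℕ ℂ (HH n)) (g : HH n) (β : ℕ → Ω → Bool)
    (hβ : ∀ k, Measurable (β k)) : Measurable fun z : Ω × E n =>
      ft (signed b g fun k => β k z.1) z.2 :=
  measurable_of_tendsto_metrizable (part_meas b g β hβ)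
    (tendsto_pi_nhds.2 fun z => lim_partial b g (fun k => β k z.1) z.2)

theorem expectation_low (K p : ℝ) (hp1 : 2 ≤ p) (hp2 : p ≤ 4) (D : ℝ) (hD0 : 0 < D)
    (hD : ∀ v : HH n, tp v K → ∫⁻ ξ, ‖ft v ξ‖ₑ ^ p ≤ ENNReal.ofReal (D ^ p))
    (b : HilbertBasis ℕ ℂ (HH n)) (hb : ∀ k, tp (b k) K) (β : ℕ → Ω → Bool)
    (hβ : ∀ k, Measurable (β k)) (hind : iIndepFun β P)
    (hfair : ∀ k, P {ω | β k ω = true} = 1 / 2) (g : HH n) :
    ∫⁻ z : Ω × E n, ‖ft (signed b g fun k => β k z.1) z.2‖ₑ ^ p ∂(P.prod volume) ≤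
      ENNReal.ofReal (4 ^ (p / 4) * D ^ p * ‖g‖ ^ p) := by
  have hp0 : 0 < p := by linarith
  set Φ : ℕ → Ω × E n → ℂ := fun N z =>
    ∑ k ∈ Finset.range N, sgC (β k z.1) * (inner ℂ (b k) g * ft (b k) z.2) with hΦ
  have hΦm : ∀ N, Measurable (Φ N) := part_meas b g β hβ
  have hΦe : ∀ N, Measurable fun z => ‖Φ N z‖ₑ ^ p := fun N => (hΦm N).enorm.pow_const p
  have hlim : ∀ z : Ω × E n, Tendsto (fun N => ‖Φ N z‖ₑ ^ p) atTop
      (𝓝 (‖ft (signed b g fun k => β k z.1) z.2‖ₑ ^ p)) := fun z =>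
    ((ENNReal.continuous_rpow_const.tendsto _).comp ((continuous_enorm.tendsto _).comp
      (lim_partial b g (fun k => β k z.1) z.2)))
  have hN : ∀ N, ∫⁻ z : Ω × E n, ‖Φ N z‖ₑ ^ p ∂(P.prod volume) ≤
      ENNReal.ofReal (4 ^ (p / 4) * D ^ p * ‖g‖ ^ p) := by
    intro N
    rw [lintegral_prod_symm _ (hΦe N).aemeasurable]
    set G : ℝ := ‖g‖ ^ 2 with hG
    have hG0 : 0 ≤ G := by positivity
    have hbes : ∑ k ∈ Finset.range N, ‖inner ℂ (b k) g‖ ^ 2 ≤ G :=
      b.orthonormal.sum_inner_products_le g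
    have hpt : ∀ ξ : E n, ∫⁻ ω, ‖Φ N (ω, ξ)‖ₑ ^ p ∂P ≤
        ENNReal.ofReal (4 ^ (p / 4) * G ^ (p / 2 - 1)) *
          ∑ k ∈ Finset.range N, ENNReal.ofReal (‖inner ℂ (b k) g‖ ^ 2) * ‖ft (b k) ξ‖ₑ ^ p := by
      intro ξ
      refine (moment β hβ hind hfair N (fun k => inner ℂ (b k) g * ft (b k) ξ) p hp0 hp2).trans ?_
      have h1 : ∑ k ∈ Finset.range N, ENNReal.ofReal (‖inner ℂ (b k) g‖ ^ 2) *
          ‖ft (b k) ξ‖ₑ ^ p =
          ENNReal.ofReal (∑ k ∈ Finset.range N, ‖inner ℂ (b k) g‖ ^ 2 * ‖ft (b k) ξ‖ ^ p) := by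
        rw [ENNReal.ofReal_sum_of_nonneg fun _ _ => by positivity]
        refine Finset.sum_congr rfl fun k _ => ?_
        rw [ENNReal.ofReal_mul (by positivity), enorm_rpow _ hp0.le]
      rw [h1, ← ENNReal.ofReal_mul (by positivity)]
      apply ENNReal.ofReal_le_ofReal
      rw [mul_assoc]
      refine mul_le_mul_of_nonneg_left ?_ (by positivity)
      set w : ℕ → ℝ := fun k => ‖inner ℂ (b k) g‖ ^ 2 with hw
      set f : ℕ → ℝ := fun k => ‖ft (b k) ξ‖ ^ 2 with hf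
      have hw0 : ∀ k, 0 ≤ w k := fun k => by positivity
      have hf0 : ∀ k, 0 ≤ f k := fun k => by positivity
      have h2 := Real.inner_le_weight_mul_Lp_of_nonneg (Finset.range N)
        (show 1 ≤ p / 2 by linarith) w f hw0 hf0
      have h3 : ∑ k ∈ Finset.range N, ‖inner ℂ (b k) g * ft (b k) ξ‖ ^ 2 =
          ∑ k ∈ Finset.range N, w k * f k := by
        refine Finset.sum_congr rfl fun k _ => ?_
        rw [norm_mul, mul_pow]
      rw [h3]
      have hW0 : 0 ≤ ∑ k ∈ Finset.range N, w k := Finset.sum_nonneg fun k _ => hw0 k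
      have hWf0 : 0 ≤ ∑ k ∈ Finset.range N, w k * f k ^ (p / 2) :=
        Finset.sum_nonneg fun k _ => mul_nonneg (hw0 k) (Real.rpow_nonneg (hf0 k) _)
      have h4 := Real.rpow_le_rpow (Finset.sum_nonneg fun k _ => mul_nonneg (hw0 k) (hf0 k)) h2
        (show 0 ≤ p / 2 by linarith)
      rw [Real.mul_rpow (by positivity) (by positivity), ← Real.rpow_mul hW0,
        ← Real.rpow_mul hWf0, inv_mul_cancel₀ (by linarith), Real.rpow_one] at h4
      refine h4.trans ?_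
      have h5 : (1 - (p / 2)⁻¹) * (p / 2) = p / 2 - 1 := by field_simp
      rw [h5]
      have h6 : ∀ k, f k ^ (p / 2) = ‖ft (b k) ξ‖ ^ p := by
        intro k
        rw [hf]
        simp only
        rw [← Real.rpow_natCast, ← Real.rpow_mul (norm_nonneg _)]
        congr 1
        push_cast; ring
      simp only [h6]
      refine mul_le_mul_of_nonneg_right ?_ (Finset.sum_nonneg fun k _ => by positivity)
      exact Real.rpow_le_rpow hW0 hbes (by linarith)
    calc ∫⁻ ξ, ∫⁻ ω, ‖Φ N (ω, ξ)‖ₑ ^ p ∂P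
        ≤ ∫⁻ ξ, ENNReal.ofReal (4 ^ (p / 4) * G ^ (p / 2 - 1)) *
          ∑ k ∈ Finset.range N, ENNReal.ofReal (‖inner ℂ (b k) g‖ ^ 2) * ‖ft (b k) ξ‖ₑ ^ p :=
          lintegral_mono hpt
      _ = ENNReal.ofReal (4 ^ (p / 4) * G ^ (p / 2 - 1)) *
          ∑ k ∈ Finset.range N, ENNReal.ofReal (‖inner ℂ (b k) g‖ ^ 2) *
            ∫⁻ ξ, ‖ft (b k) ξ‖ₑ ^ p := by
          have hm : ∀ k, Measurable fun ξ => ‖ft (b k) ξ‖ₑ ^ p := fun k =>
            (ft_HH_cont (b k)).measurable.enorm.pow_const p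
          rw [lintegral_const_mul' _ _ ENNReal.ofReal_ne_top,
            lintegral_finsetSum _ fun k _ => (hm k).const_mul _]
          congr 1
          refine Finset.sum_congr rfl fun k _ => ?_
          rw [lintegral_const_mul' _ _ ENNReal.ofReal_ne_top]
      _ ≤ ENNReal.ofReal (4 ^ (p / 4) * G ^ (p / 2 - 1)) *
          ∑ k ∈ Finset.range N, ENNReal.ofReal (‖inner ℂ (b k) g‖ ^ 2) *
            ENNReal.ofReal (D ^ p) := by
          gcongr with k _
          exact hD _ (hb k)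
      _ = ENNReal.ofReal (4 ^ (p / 4) * G ^ (p / 2 - 1) *
          ((∑ k ∈ Finset.range N, ‖inner ℂ (b k) g‖ ^ 2) * D ^ p)) := by
          rw [ENNReal.ofReal_mul (show 0 ≤ 4 ^ (p / 4) * G ^ (p / 2 - 1) by positivity),
            ← Finset.sum_mul, ENNReal.ofReal_mul (Finset.sum_nonneg fun _ _ => by positivity),
            ENNReal.ofReal_sum_of_nonneg fun _ _ => by positivity]
      _ ≤ _ := by
          apply ENNReal.ofReal_le_ofReal
          have h1 : G ^ (p / 2 - 1) * G = ‖g‖ ^ p := by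
            calc G ^ (p / 2 - 1) * G = G ^ (p / 2 - 1) * G ^ (1 : ℝ) := by rw [Real.rpow_one]
              _ = G ^ (p / 2) := by
                rw [← Real.rpow_add_of_nonneg hG0 (by linarith) (by norm_num)]
                congr 1; ring
              _ = ‖g‖ ^ p := by
                rw [hG, ← Real.rpow_natCast, ← Real.rpow_mul (norm_nonneg _)]
                congr 1
                push_cast; ring
          calc 4 ^ (p / 4) * G ^ (p / 2 - 1) *
              ((∑ k ∈ Finset.range N, ‖inner ℂ (b k) g‖ ^ 2) * D ^ p)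
              ≤ 4 ^ (p / 4) * G ^ (p / 2 - 1) * (G * D ^ p) := by gcongr
            _ = 4 ^ (p / 4) * D ^ p * (G ^ (p / 2 - 1) * G) := by ring
            _ = _ := by rw [h1]
  calc ∫⁻ z : Ω × E n, ‖ft (signed b g fun k => β k z.1) z.2‖ₑ ^ p ∂(P.prod volume)
      = ∫⁻ z : Ω × E n, liminf (fun N => ‖Φ N z‖ₑ ^ p) atTop ∂(P.prod volume) :=
        lintegral_congr fun z => (hlim z).liminf_eq.symm
    _ ≤ liminf (fun N => ∫⁻ z : Ω × E n, ‖Φ N z‖ₑ ^ p ∂(P.prod volume)) atTop :=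
        lintegral_liminf_le hΦe
    _ ≤ _ := liminf_le_of_frequently_le' (Eventually.of_forall hN).frequently

/-- monotonicity in the exponent -/
theorem mono_exp {X : Type} [MeasurableSpace X] (μ : Measure X) (u : X → ℂ) (M : ℝ)
    (hM : ∀ x, ‖u x‖ ≤ M) (p q : ℝ) (hp : 0 ≤ p) (hpq : p ≤ q) :
    ∫⁻ x, ‖u x‖ₑ ^ q ∂μ ≤ ENNReal.ofReal (M ^ (q - p)) * ∫⁻ x, ‖u x‖ₑ ^ p ∂μ := by
  rw [← lintegral_const_mul' _ _ ENNReal.ofReal_ne_top]
  refine lintegral_mono fun x => ?_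
  simp only
  rw [enorm_rpow _ (hp.trans hpq), enorm_rpow _ hp]
  have hM0 : 0 ≤ M := (norm_nonneg _).trans (hM x)
  rw [← ENNReal.ofReal_mul (by positivity)]
  apply ENNReal.ofReal_le_ofReal
  calc ‖u x‖ ^ q = ‖u x‖ ^ (q - p) * ‖u x‖ ^ p := by
        rw [← Real.rpow_add_of_nonneg (norm_nonneg _) (by linarith) hp]
        congr 1; ring
    _ ≤ _ := by
        refine mul_le_mul_of_nonneg_right ?_ (by positivity)
        exact Real.rpow_le_rpow (norm_nonneg _) (hM x) (by linarith)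

end

/-- the theorem -/
theorem random_signs (hn : 3 ≤ n) : ∃ K : ℝ, 0 < K ∧ ∃ b : HilbertBasis ℕ ℂ (HH n),
    (∀ k, ∃ (L : ℕ) (c : Fin L → ℂ) (η : Fin L → E n), ∑ j, ‖c j‖ ≤ K ∧
      ∀ᵐ x ∂(sigma n), b k x = ∑ j, c j * Complex.exp ((⟪η j, (x : E n)⟫ : ℝ) * I)) ∧
    (∀ (g : HH n) (s : ℕ → Bool),
      HasSum (fun k => (sgC (s k) * inner ℂ (b k) g) • b k) (signed b g s)) ∧
    (∀ p : ℝ, 2 * (n : ℝ) / (n - 1) < p → ∃ C : ℝ, 0 < C ∧
      ∀ (Ω : Type) (_ : MeasurableSpace Ω) (P : Measure Ω) (_ : IsProbabilityMeasure P)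
        (β : ℕ → Ω → Bool), (∀ k, Measurable (β k)) → iIndepFun β P →
        (∀ k, P {ω | β k ω = true} = 1 / 2) → ∀ g : HH n,
        ∫⁻ ω, (∫⁻ ξ, ‖ft (signed b g fun k => β k ω) ξ‖ₑ ^ p) ∂P ≤
          ENNReal.ofReal (C * ‖g‖ ^ p)) ∧
    (∀ (Ω : Type) (_ : MeasurableSpace Ω) (P : Measure Ω) (_ : IsProbabilityMeasure P)
        (β : ℕ → Ω → Bool), (∀ k, Measurable (β k)) → iIndepFun β P →
        (∀ k, P {ω | β k ω = true} = 1 / 2) → ∀ g : HH n,
        ∀ᵐ ω ∂P, ∀ p : ℝ, 2 * (n : ℝ) / (n - 1) < p →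
          MemLp (ft (signed b g fun k => β k ω)) (ENNReal.ofReal p)) := by
  have hn1 : (1 : ℝ) < n := by exact_mod_cast (by omega : 1 < n)
  have hn3 : (3 : ℝ) ≤ n := by exact_mod_cast hn
  set pc : ℝ := 2 * (n : ℝ) / (n - 1) with hpc
  have hpc2 : 2 < pc := by
    rw [hpc, lt_div_iff₀ (by linarith)]; linarith
  have hpc3 : pc ≤ 3 := by
    rw [hpc, div_le_iff₀ (by linarith)]; linarith
  obtain ⟨K, hK, b, hb⟩ := basis (n := n) (by omega)
  set S : ℝ := Real.sqrt ((sigma n).real univ) with hS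
  -- the main bound for all exponents
  have key : ∀ p : ℝ, pc < p → ∃ C : ℝ, 0 < C ∧
      ∀ (Ω : Type) (_ : MeasurableSpace Ω) (P : Measure Ω) (_ : IsProbabilityMeasure P)
        (β : ℕ → Ω → Bool), (∀ k, Measurable (β k)) → iIndepFun β P →
        (∀ k, P {ω | β k ω = true} = 1 / 2) → ∀ g : HH n,
        ∫⁻ z : Ω × E n, ‖ft (signed b g fun k => β k z.1) z.2‖ₑ ^ p ∂(P.prod volume) ≤
          ENNReal.ofReal (C * ‖g‖ ^ p) := by
    intro p hp
    rcases le_or_gt p 4 with h4 | h4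
    · obtain ⟨D, hD0, hD⟩ := ft_tp hn p hp K
      exact ⟨4 ^ (p / 4) * D ^ p, by positivity, fun Ω _ P _ β hβ hind hfair g =>
        expectation_low K p (by linarith) h4 D hD0 hD b hb β hβ hind hfair g⟩
    · obtain ⟨D, hD0, hD⟩ := ft_tp hn 4 (by linarith) K
      refine ⟨(S + 1) ^ (p - 4) * (4 ^ ((4 : ℝ) / 4) * D ^ (4 : ℝ)), by positivity,
        fun Ω _ P _ β hβ hind hfair g => ?_⟩
      have h1 := expectation_low K 4 (by norm_num) le_rfl D hD0 hD b hb β hβ hind hfair g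
      have h2 := mono_exp (P.prod (volume : Measure (E n)))
        (fun z : Ω × E n => ft (signed b g fun k => β k z.1) z.2) (S * ‖g‖) (fun z => by
          refine (ft_L2 _ _).trans ?_
          rw [signed_norm]) 4 p (by norm_num) h4.le
      refine h2.trans ?_
      calc _ ≤ ENNReal.ofReal ((S * ‖g‖) ^ (p - 4)) *
            ENNReal.ofReal (4 ^ ((4 : ℝ) / 4) * D ^ (4 : ℝ) * ‖g‖ ^ (4 : ℝ)) := by gcongr
        _ = ENNReal.ofReal ((S * ‖g‖) ^ (p - 4) *
            (4 ^ ((4 : ℝ) / 4) * D ^ (4 : ℝ) * ‖g‖ ^ (4 : ℝ))) := by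
            rw [← ENNReal.ofReal_mul (by positivity)]
        _ ≤ _ := by
            apply ENNReal.ofReal_le_ofReal
            have hS0 : 0 ≤ S := Real.sqrt_nonneg _
            rw [Real.mul_rpow hS0 (norm_nonneg _)]
            have h3 : ‖g‖ ^ (p - 4) * ‖g‖ ^ (4 : ℝ) = ‖g‖ ^ p := by
              rw [← Real.rpow_add_of_nonneg (norm_nonneg _) (by linarith) (by norm_num)]
              congr 1; ring
            calc S ^ (p - 4) * ‖g‖ ^ (p - 4) *
                  (4 ^ ((4 : ℝ) / 4) * D ^ (4 : ℝ) * ‖g‖ ^ (4 : ℝ))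
                = S ^ (p - 4) * (4 ^ ((4 : ℝ) / 4) * D ^ (4 : ℝ)) *
                  (‖g‖ ^ (p - 4) * ‖g‖ ^ (4 : ℝ)) := by ring
              _ ≤ (S + 1) ^ (p - 4) * (4 ^ ((4 : ℝ) / 4) * D ^ (4 : ℝ)) *
                  (‖g‖ ^ (p - 4) * ‖g‖ ^ (4 : ℝ)) := by
                  gcongr
                  linarith
              _ = _ := by rw [h3]
  refine ⟨K, hK, b, ?_, fun g s => signed_hasSum b g s, ?_, ?_⟩
  · intro k
    obtain ⟨L, c, η, hv, hc⟩ := hb k
    refine ⟨L, c, η, hc, ?_⟩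
    have h3 : ∀ᵐ x ∂(sigma n), ∀ j : Fin L, (c j • ee (η j) : HH n) x =
        c j * Complex.exp ((⟪η j, (x : E n)⟫ : ℝ) * I) := by
      rw [ae_all_iff]
      intro j
      filter_upwards [Lp.coeFn_smul (c j) (ee (η j)), ee_ae (η j)] with x h3 h4
      rw [h3, Pi.smul_apply, h4, smul_eq_mul]
    have h5 := coeFn_sum' (Finset.univ : Finset (Fin L)) (fun j => (c j • ee (η j) : HH n))
    rw [← hv] at h5
    filter_upwards [h3, h5] with x h3 h4
    rw [h4]
    exact Finset.sum_congr rfl fun j _ => h3 j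
  · intro p hp
    obtain ⟨C, hC, h⟩ := key p hp
    refine ⟨C, hC, fun Ω _ P _ β hβ hind hfair g => ?_⟩
    have h1 := h Ω _ P inferInstance β hβ hind hfair g
    rwa [lintegral_prod _ ((signed_meas b g β hβ).enorm.pow_const p).aemeasurable] at h1
  · intro Ω _ P _ β hβ hind hfair g
    set pk : ℕ → ℝ := fun k => pc + 1 / ((k : ℝ) + 1) with hpk
    have hpk1 : ∀ k, pc < pk k := fun k => by
      have : 0 < 1 / ((k : ℝ) + 1) := by positivity
      simp only [hpk]; linarith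
    have hfin : ∀ k, ∀ᵐ ω ∂P, ∫⁻ ξ, ‖ft (signed b g fun k => β k ω) ξ‖ₑ ^ (pk k) < ⊤ := by
      intro k
      obtain ⟨C, hC, h⟩ := key (pk k) (hpk1 k)
      have h1 := h Ω _ P inferInstance β hβ hind hfair g
      have hm := (signed_meas b g β hβ).enorm.pow_const (pk k)
      rw [lintegral_prod _ hm.aemeasurable] at h1
      exact ae_lt_top hm.lintegral_prod_right' (lt_of_le_of_lt h1 ENNReal.ofReal_lt_top).ne
    filter_upwards [ae_all_iff.2 hfin] with ω hω p hp
    obtain ⟨k, hk⟩ := exists_nat_gt (1 / (p - pc))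
    have hpp : 0 < p - pc := by linarith
    have hkp : pk k ≤ p := by
      have h1 : 1 / ((k : ℝ) + 1) ≤ p - pc := by
        rw [div_le_iff₀ (by positivity)]
        rw [div_lt_iff₀ hpp] at hk
        nlinarith
      simp only [hpk]; linarith
    refine ⟨(ft_HH_cont _).aestronglyMeasurable, ?_⟩
    have hp0 : 0 < p := by linarith
    rw [eLpNorm_lt_top_iff_lintegral_rpow_enorm_lt_top (by simpa using hp0) (by simp),
      ENNReal.toReal_ofReal hp0.le]
    refine lt_of_le_of_lt (mono_exp volume _ (S * ‖g‖) (fun ξ => by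
      refine (ft_L2 _ _).trans ?_
      rw [signed_norm]) (pk k) p (by linarith [hpk1 k]) hkp) ?_
    exact ENNReal.mul_lt_top ENNReal.ofReal_lt_top (hω k)

end Pool.Agent.X93.ST
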