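import Mathlib
import Pool.Agent.X93.ST.RandMain
set_option autoImplicit false

/-! Random signs, in terms of functions. -/

namespace Pool.Agent.X93.ST.RFin

open MeasureTheory Metric ProbabilityTheory
open scoped ENNReal RealInnerProductSpace

open Pool.Agent.Results.MP_6cbfb8_an.RidgeDensities (sigma ft)
open Pool.Agent.X93.ST (E)

/-- densities on the unit sphere -/
abbrev Den (n : ℕ) := sphere (0 : E n) 1 → ℂ

/-- the scalar product `⟨φ, g⟩` in `L²(σ)` -/
noncomputable def coef {n : ℕ} (φ g : Den n) : ℂ := ∫ x, (starRingEnd ℂ) (φ x) * g x ∂(sigma n)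

/-- `φ` is an orthonormal basis of `L²(σ)` -/
def IsBasis {n : ℕ} (φ : ℕ → Den n) : Prop :=
  (∀ k, MemLp (φ k) 2 (sigma n)) ∧ (∀ j k, coef (φ j) (φ k) = if j = k then 1 else 0) ∧
    ∀ g : Den n, MemLp g 2 (sigma n) → (∀ k, coef (φ k) g = 0) → ∀ᵐ x ∂(sigma n), g x = 0

/-- a trigonometric polynomial on the sphere, with absolute coefficient sum at most `K` -/
def IsTrig {n : ℕ} (K : ℝ) (v : Den n) : Prop :=
  ∃ (L : ℕ) (c : Fin L → ℂ) (η : Fin L → E n), ∑ j, ‖c j‖ ≤ K ∧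
    ∀ x, v x = ∑ j, c j * Complex.exp ((⟪η j, (x : E n)⟫ : ℝ) * Complex.I)

/-- `true` stands for the sign `+`, `false` for the sign `-` -/
noncomputable def sgn (t : Bool) : ℂ := if t then 1 else -1

/-- `h` is the density obtained from `g` by changing the signs of its coefficients in the basis
`φ`, by the signs `s` -/
def Changed {n : ℕ} (φ : ℕ → Den n) (s : ℕ → Bool) (g h : Den n) : Prop :=
  MemLp h 2 (sigma n) ∧ ∀ k, coef (φ k) h = sgn (s k) * coef (φ k) g

/-- independent fair signs on a probability space -/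
def FairSigns {Ω : Type} [MeasurableSpace Ω] (P : Measure Ω) (β : ℕ → Ω → Bool) : Prop :=
  IsProbabilityMeasure P ∧ (∀ k, Measurable (β k)) ∧ iIndepFun β P ∧
    ∀ k, P {ω | β k ω = true} = 1 / 2

/-- the expectation of the `p`-th power of the `L^p` norm is at most `C ‖g‖_2^p` -/
def MeanBound {n : ℕ} (φ : ℕ → Den n) (p C : ℝ) : Prop :=
  ∀ (Ω : Type) (_ : MeasurableSpace Ω) (P : Measure Ω) (β : ℕ → Ω → Bool), FairSigns P β →
    ∀ g : Den n, MemLp g 2 (sigma n) →
    ∀ h : Ω → Den n, (∀ ω, Changed φ (fun k => β k ω) g (h ω)) →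
      ∫⁻ ω, (∫⁻ ξ, ‖ft (h ω) ξ‖ₑ ^ p) ∂P ≤ ENNReal.ofReal C * (eLpNorm g 2 (sigma n)) ^ p

/-- almost surely the Fourier transform is in `L^p` for every `p > 2n/(n-1)` -/
def AlmostSure {n : ℕ} (φ : ℕ → Den n) : Prop :=
  ∀ (Ω : Type) (_ : MeasurableSpace Ω) (P : Measure Ω) (β : ℕ → Ω → Bool), FairSigns P β →
    ∀ g : Den n, MemLp g 2 (sigma n) →
    ∀ h : Ω → Den n, (∀ ω, Changed φ (fun k => β k ω) g (h ω)) →
      ∀ᵐ ω ∂P, ∀ p : ℝ, 2 * (n : ℝ) / (n - 1) < p → MemLp (ft (h ω)) (ENNReal.ofReal p)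

/-! ### Proof -/

theorem coef_inner {n : ℕ} (b : Lp ℂ 2 (sigma n)) (φ : Den n) (hb : ∀ᵐ x ∂(sigma n), b x = φ x)
    (g : Den n) (hg : MemLp g 2 (sigma n)) : coef φ g = inner ℂ b hg.toLp := by
  rw [L2.inner_def]
  unfold coef
  refine integral_congr_ae ?_
  filter_upwards [hb, hg.coeFn_toLp] with x h1 h2
  rw [h1, h2, RCLike.inner_apply, mul_comm]

theorem basis_ext {n : ℕ} (b : HilbertBasis ℕ ℂ (Lp ℂ 2 (sigma n))) (v w : Lp ℂ 2 (sigma n))
    (h : ∀ k, inner ℂ (b k) v = inner ℂ (b k) w) : v = w := by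
  apply b.repr.injective
  ext k
  rw [b.repr_apply_apply, b.repr_apply_apply, h k]

/-- **Theorem.** For every `n ≥ 3` there is an orthonormal basis `φ` of `L²(σ)` consisting of
trigonometric polynomials with absolute coefficient sums at most `K` such that, for every `g` in
`L²(σ)` and independent fair signs, the density with changed signs (it exists for all signs) has
the following properties:

* for every `p > 2n/(n-1)` the expectation of the `p`-th power of the `L^p(ℝ^n)` norm of its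
  Fourier transform is at most `C ‖g‖_2^p`, where `C` depends on `n` and `p` only;
* almost surely its Fourier transform is in `L^p(ℝ^n)` for all `p > 2n/(n-1)`. -/
theorem final (n : ℕ) (hn : 3 ≤ n) : ∃ K : ℝ, 0 < K ∧ ∃ φ : ℕ → Den n,
    IsBasis φ ∧ (∀ k, IsTrig K (φ k)) ∧
    (∀ (g : Den n), MemLp g 2 (sigma n) → ∀ s : ℕ → Bool, ∃ h : Den n, Changed φ s g h) ∧
    (∀ p : ℝ, 2 * (n : ℝ) / (n - 1) < p → ∃ C : ℝ, 0 < C ∧ MeanBound φ p C) ∧
    AlmostSure φ := by
  have hn1 : (1 : ℝ) < n := by exact_mod_cast (by omega : 1 < n)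
  have hpc : 2 < 2 * (n : ℝ) / (n - 1) := by
    rw [lt_div_iff₀ (by linarith)]; linarith
  obtain ⟨K, hK, b, h1, h2, h3, h4⟩ := Pool.Agent.X93.ST.random_signs hn
  choose L c η hc hb using h1
  set φ : ℕ → Den n := fun k x =>
    ∑ j, c k j * Complex.exp ((⟪η k j, (x : E n)⟫ : ℝ) * Complex.I) with hφ
  have hbφ : ∀ k, ∀ᵐ x ∂(sigma n), b k x = φ k x := fun k => hb k
  have hφm : ∀ k, MemLp (φ k) 2 (sigma n) := fun k => (Lp.memLp (b k)).ae_eq (hbφ k)
  have hφb : ∀ k, (hφm k).toLp = b k := by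
    intro k
    apply Lp.ext
    filter_upwards [(hφm k).coeFn_toLp, hbφ k] with x e1 e2
    rw [e1, e2]
  have hco : ∀ (k : ℕ) (g : Den n) (hg : MemLp g 2 (sigma n)),
      coef (φ k) g = inner ℂ (b k) hg.toLp := fun k g hg => coef_inner (b k) (φ k) (hbφ k) g hg
  have hsig : ∀ (g : Den n) (hg : MemLp g 2 (sigma n)) (s : ℕ → Bool) (k : ℕ),
      inner ℂ (b k) (Pool.Agent.X93.ST.signed b hg.toLp s) = sgn (s k) * coef (φ k) g := by
    intro g hg s k
    have e1 := (innerSL ℂ (b k)).hasSum (h2 hg.toLp s)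
    simp only [innerSL_apply_apply, inner_smul_right] at e1
    have e2 := hasSum_single (f := fun i => Pool.Agent.X93.ST.sgC (s i) *
      inner ℂ (b i) hg.toLp * inner ℂ (b k) (b i)) k (fun i hi => by
        rw [orthonormal_iff_ite.1 b.orthonormal k i, if_neg (Ne.symm hi), mul_zero])
    rw [orthonormal_iff_ite.1 b.orthonormal k k, if_pos rfl, mul_one] at e2
    rw [e1.unique e2, hco k g hg]
    rfl
  have hch : ∀ (g : Den n) (hg : MemLp g 2 (sigma n)) (s : ℕ → Bool) (h : Den n),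
      Changed φ s g h → ft h = ft (Pool.Agent.X93.ST.signed b hg.toLp s : Den n) := by
    intro g hg s h hh
    have e1 : hh.1.toLp = Pool.Agent.X93.ST.signed b hg.toLp s := by
      apply basis_ext b
      intro k
      rw [hsig g hg s k, ← hco k h hh.1, hh.2 k]
    rw [← e1]
    funext ξ
    unfold ft
    refine integral_congr_ae ?_
    filter_upwards [hh.1.coeFn_toLp] with x e2
    rw [e2]
  refine ⟨K, hK, φ, ⟨hφm, ?_, ?_⟩, fun k => ⟨L k, c k, η k, hc k, fun x => rfl⟩, ?_, ?_, ?_⟩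
  · intro j k
    rw [hco j (φ k) (hφm k), hφb k]
    exact orthonormal_iff_ite.1 b.orthonormal j k
  · intro g hg h0
    have e1 : hg.toLp = (0 : Lp ℂ 2 (sigma n)) := by
      apply basis_ext b
      intro k
      rw [← hco k g hg, h0 k, inner_zero_right]
    have e2 := hg.coeFn_toLp
    rw [e1] at e2
    filter_upwards [e2, Lp.coeFn_zero ℂ 2 (sigma n)] with x e3 e4
    rw [← e3, e4]; rfl
  · intro g hg s
    refine ⟨(Pool.Agent.X93.ST.signed b hg.toLp s : Lp ℂ 2 (sigma n)), Lp.memLp _, fun k => ?_⟩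
    rw [hco k _ (Lp.memLp _), Lp.toLp_coeFn, hsig g hg s k]
  · intro p hp
    obtain ⟨C, hC, h⟩ := h3 p hp
    refine ⟨C, hC, fun Ω _ P β hβ g hg f hf => ?_⟩
    have e1 := h Ω _ P hβ.1 β hβ.2.1 hβ.2.2.1 hβ.2.2.2 hg.toLp
    have e2 : ENNReal.ofReal (C * ‖hg.toLp‖ ^ p) =
        ENNReal.ofReal C * (eLpNorm g 2 (sigma n)) ^ p := by
      rw [ENNReal.ofReal_mul hC.le, Lp.norm_toLp, ← ENNReal.ofReal_rpow_of_nonneg
        ENNReal.toReal_nonneg (by linarith), ENNReal.ofReal_toReal hg.2.ne]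
    rw [e2] at e1
    refine le_trans (le_of_eq ?_) e1
    refine lintegral_congr fun ω => ?_
    rw [hch g hg _ _ (hf ω)]
  · intro Ω _ P β hβ g hg f hf
    have e1 := h4 Ω _ P hβ.1 β hβ.2.1 hβ.2.2.1 hβ.2.2.2 hg.toLp
    filter_upwards [e1] with ω hω p hp
    rw [hch g hg _ _ (hf ω)]
    exact hω p hp

end Pool.Agent.X93.ST.RFin
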