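import Mathlib
import Pool.Agent.X93.ST.Step
set_option autoImplicit false

/-! The correction theorem. -/

namespace Pool.Agent.X93.ST

open MeasureTheory Set Metric Complex Filter Topology
open scoped ENNReal NNReal RealInnerProductSpace
open Pool.Agent.Results.MP_6cbfb8_an.RidgeDensities (sigma ft)

/-- the residual -/
noncomputable def resid {n : ℕ} (H : ℕ → (sphere (0 : E n) 1 → ℂ) → (sphere (0 : E n) 1 → ℂ))
    (M : ℝ) (φ : sphere (0 : E n) 1 → ℂ) : ℕ → (sphere (0 : E n) 1 → ℂ)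
  | 0 => φ
  | k + 1 => fun x => if ‖resid H M φ k x - H k (resid H M φ k) x‖ ≤ M / 4 ^ (k + 1) then
      resid H M φ k x - H k (resid H M φ k) x else 0

theorem correction (n : ℕ) (hn : 3 ≤ n) : ∃ C : ℝ, 0 < C ∧
    ∀ g : sphere (0 : E n) 1 → ℂ, Measurable g → ∀ M : ℝ, 0 < M → ∀ ε : ℝ, 0 < ε → ε ≤ 1 →
    ∀ p₀ : ℝ, 2 * (n : ℝ) / (n - 1) < p₀ → ∀ η : ℝ, 0 < η →
    ∃ h : sphere (0 : E n) 1 → ℂ, Measurable h ∧ (∀ x, ‖h x‖ ≤ C * M / ε) ∧
      sigma n {x | h x ≠ g x} ≤ ENNReal.ofReal ε + sigma n {x | M < ‖g x‖} ∧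
      (∀ p : ℝ, 2 * (n : ℝ) / (n - 1) < p → MemLp (ft h) (ENNReal.ofReal p)) ∧
      ∀ r : ℝ≥0∞, ENNReal.ofReal p₀ ≤ r → eLpNorm (ft h) r volume ≤ ENNReal.ofReal η := by
  obtain ⟨C, hC, hstep⟩ := one_step n hn
  refine ⟨4 * C, by positivity, ?_⟩
  intro g hg M hM ε hε hε1 p₀ hp₀ η hη
  have hn1 : (1 : ℝ) < n := by exact_mod_cast (by omega : 1 < n)
  have hn3 : (3 : ℝ) ≤ n := by exact_mod_cast hn
  set pc : ℝ := 2 * (n : ℝ) / (n - 1) with hpc
  have hpc2 : 2 < pc := by
    rw [hpc, lt_div_iff₀ (by linarith)]; linarith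
  have hpc3 : pc ≤ 3 := by
    rw [hpc, div_le_iff₀ (by linarith)]; linarith
  set P : ℝ := min p₀ 4 with hP
  have hP1 : pc < P := lt_min hp₀ (by linarith)
  set pk : ℕ → ℝ := fun k => pc + (P - pc) / 2 ^ k with hpk
  have hpk1 : ∀ k, pc < pk k := by
    intro k
    have : 0 < (P - pc) / 2 ^ k := div_pos (by linarith) (by positivity)
    simp only [hpk]; linarith
  have hpk2 : ∀ k, pk k ≤ P := by
    intro k
    have : (P - pc) / 2 ^ k ≤ P - pc := div_le_self (by linarith) (one_le_pow₀ (by norm_num))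
    simp only [hpk]; linarith
  -- the steps
  have hex : ∀ (k : ℕ) (ψ : sphere (0 : E n) 1 → ℂ), ∃ h : sphere (0 : E n) 1 → ℂ,
      Measurable ψ → (∀ x, ‖ψ x‖ ≤ M / 4 ^ k) →
      Measurable h ∧ (∀ x, ‖h x‖ ≤ C * (M / 4 ^ k) / (ε / 2 ^ (k + 1))) ∧
      sigma n {x | M / 4 ^ (k + 1) < ‖ψ x - h x‖} ≤ ENNReal.ofReal (ε / 2 ^ (k + 1)) ∧
      (∀ r : ℝ, pc < r → MemLp (ft h) (ENNReal.ofReal r)) ∧
      ∀ r : ℝ≥0∞, ENNReal.ofReal (pk k) ≤ r →
        eLpNorm (ft h) r volume ≤ ENNReal.ofReal (η / 2 ^ (k + 1)) := by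
    intro k ψ
    by_cases hψ : Measurable ψ ∧ ∀ x, ‖ψ x‖ ≤ M / 4 ^ k
    · obtain ⟨h, hh⟩ := hstep (pk k) (hpk1 k) ((hpk2 k).trans (min_le_right _ _)) (M / 4 ^ k)
        (by positivity) ψ hψ.1 hψ.2 (ε / 2 ^ (k + 1)) (by positivity)
        ((div_le_self hε.le (one_le_pow₀ (by norm_num))).trans hε1) (M / 4 ^ (k + 1))
        (by positivity) (η / 2 ^ (k + 1)) (by positivity)
      exact ⟨h, fun _ _ => hh⟩
    · exact ⟨0, fun h1 h2 => absurd ⟨h1, h2⟩ hψ⟩
  choose H hH using hex
  set φ : sphere (0 : E n) 1 → ℂ := fun x => if ‖g x‖ ≤ M then g x else 0 with hφ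
  have hφm : Measurable φ := Measurable.ite (measurableSet_le hg.norm measurable_const) hg
    measurable_const
  have hφb : ∀ x, ‖φ x‖ ≤ M := by
    intro x
    simp only [hφ]
    split_ifs with h
    · exact h
    · rw [norm_zero]; exact hM.le
  set ψ : ℕ → (sphere (0 : E n) 1 → ℂ) := resid H M φ with hψ
  have hinv : ∀ k, Measurable (ψ k) ∧ ∀ x, ‖ψ k x‖ ≤ M / 4 ^ k := by
    intro k
    induction k with
    | zero =>
      refine ⟨hφm, fun x => ?_⟩
      rw [pow_zero, div_one]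
      exact hφb x
    | succ k ih =>
      have h1 := (hH k (ψ k) ih.1 ih.2).1
      refine ⟨?_, fun x => ?_⟩
      · exact Measurable.ite (measurableSet_le (ih.1.sub h1).norm measurable_const)
          (ih.1.sub h1) measurable_const
      · change ‖if ‖ψ k x - H k (ψ k) x‖ ≤ M / 4 ^ (k + 1) then
          ψ k x - H k (ψ k) x else 0‖ ≤ _
        split_ifs with h
        · exact h
        · rw [norm_zero]; positivity
  set hk : ℕ → (sphere (0 : E n) 1 → ℂ) := fun k => H k (ψ k) with hhk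
  have hkp := fun k => hH k (ψ k) (hinv k).1 (hinv k).2
  have hkm : ∀ k, Measurable (hk k) := fun k => (hkp k).1
  have hkb : ∀ k x, ‖hk k x‖ ≤ (4 * C * M / ε) / 2 / 2 ^ k := by
    intro k x
    refine ((hkp k).2.1 x).trans (le_of_eq ?_)
    have h4 : (4 : ℝ) ^ k = 2 ^ k * 2 ^ k := by rw [← mul_pow]; norm_num
    rw [h4, pow_succ]
    field_simp
    norm_num
  have hgeo : HasSum (fun k : ℕ => (4 * C * M / ε) / 2 / 2 ^ k) (4 * C * M / ε) :=
    hasSum_geometric_two' _
  have hsum : ∀ x, Summable fun k => hk k x := fun x =>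
    Summable.of_norm_bounded hgeo.summable fun k => hkb k x
  set h : sphere (0 : E n) 1 → ℂ := fun x => ∑' k, hk k x with hh
  have hhm : Measurable h := by
    have h1 : ∀ x, Tendsto (fun K => ∑ k ∈ Finset.range K, hk k x) atTop (𝓝 (h x)) := fun x =>
      (hsum x).hasSum.tendsto_sum_nat
    exact measurable_of_tendsto_metrizable
      (fun K => Finset.measurable_fun_sum _ fun k _ => hkm k) (tendsto_pi_nhds.2 h1)
  have hhb : ∀ x, ‖h x‖ ≤ 4 * C * M / ε := by
    intro x
    exact tsum_of_norm_bounded hgeo fun k => hkb k x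
  have hki : ∀ k, Integrable (hk k) (sigma n) := fun k => int_of_bdd (hkm k) (hkb k)
  have hhi : Integrable h (sigma n) := int_of_bdd hhm hhb
  -- convergence of the transforms
  have hlim : ∀ ξ, Tendsto (fun K => ∑ k ∈ Finset.range K, ft (hk k) ξ) atTop (𝓝 (ft h ξ)) := by
    intro ξ
    have h1 : HasSum (fun k => ft (hk k) ξ) (ft h ξ) := by
      unfold ft
      have h2 := hasSum_integral_of_summable_integral_norm
        (μ := sigma n) (F := fun k x => Complex.exp (-(2 * Real.pi * ⟪(x : E n), ξ⟫ : ℝ) * I) *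
          hk k x) (fun k => ker_int (hki k) ξ) ?_
      · have h3 : (fun x : sphere (0 : E n) 1 =>
            Complex.exp (-(2 * Real.pi * ⟪(x : E n), ξ⟫ : ℝ) * I) * h x) =
            fun x : sphere (0 : E n) 1 => ∑' k, Complex.exp (-(2 * Real.pi * ⟪(x : E n), ξ⟫ : ℝ) * I) * hk k x := by
          funext x
          simp only [hh]
          rw [tsum_mul_left]
        rw [h3]
        exact h2
      · refine Summable.of_nonneg_of_le (fun k => integral_nonneg fun x => norm_nonneg _)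
          (fun k => ?_) (hgeo.summable.mul_right ((sigma n).real univ))
        calc ∫ x, ‖Complex.exp (-(2 * Real.pi * ⟪(x : E n), ξ⟫ : ℝ) * I) * hk k x‖ ∂(sigma n)
            = ∫ x, ‖hk k x‖ ∂(sigma n) := by
              refine integral_congr_ae (Eventually.of_forall fun x => ?_)
              simp only [norm_mul]
              rw [ker_norm, one_mul]
          _ ≤ _ := int_norm_le (hkm k) (hkb k)
    exact h1.tendsto_sum_nat
  have hcont : ∀ k, Continuous (ft (hk k)) := fun k => ft_cont (hki k)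
  have hfatou : ∀ (r B : ℝ≥0∞) (K0 : ℕ), (∀ K, K0 ≤ K →
      eLpNorm (fun ξ => ∑ k ∈ Finset.range K, ft (hk k) ξ) r volume ≤ B) →
      eLpNorm (ft h) r volume ≤ B := by
    intro r B K0 hB
    have h1 := Lp.eLpNorm_lim_le_liminf_eLpNorm (p := r) (μ := (volume : Measure (E n)))
      (f := fun K ξ => ∑ k ∈ Finset.range K, ft (hk k) ξ)
      (fun K => (continuous_finsetSum _ fun k _ => hcont k).aestronglyMeasurable) (ft h)
      (Eventually.of_forall hlim)
    refine h1.trans ?_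
    refine liminf_le_of_frequently_le' ?_
    exact (eventually_atTop.2 ⟨K0, hB⟩).frequently
  have hgeoη : HasSum (fun k : ℕ => η / 2 / 2 ^ k) η := hasSum_geometric_two' _
  have hpart : ∀ (s : Finset ℕ), ∑ k ∈ s, ENNReal.ofReal (η / 2 ^ (k + 1)) ≤
      ENNReal.ofReal η := by
    intro s
    rw [← ENNReal.ofReal_sum_of_nonneg fun _ _ => by positivity]
    apply ENNReal.ofReal_le_ofReal
    have h1 : ∀ k : ℕ, η / 2 ^ (k + 1) = η / 2 / 2 ^ k := by
      intro k; rw [pow_succ]; field_simp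
    rw [Finset.sum_congr rfl fun k _ => h1 k]
    exact sum_le_hasSum s (fun k _ => by positivity) hgeoη
  refine ⟨h, hhm, hhb, ?_, ?_, ?_⟩
  · -- the exceptional set
    have hsub : {x | h x ≠ g x} ⊆ (⋃ k, {x | M / 4 ^ (k + 1) < ‖ψ k x - hk k x‖}) ∪
        {x | M < ‖g x‖} := by
      intro x hx
      by_contra hc
      rw [mem_union, not_or, mem_iUnion, not_exists] at hc
      simp only [mem_ofPred_eq, not_lt] at hc hx
      obtain ⟨h1, h2⟩ := hc
      apply hx
      have h3 : ∀ k, ψ (k + 1) x = ψ k x - hk k x := by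
        intro k
        change (if ‖ψ k x - H k (ψ k) x‖ ≤ M / 4 ^ (k + 1) then
          ψ k x - H k (ψ k) x else 0) = _
        rw [if_pos (h1 k)]
      have h4 : ∀ K, ∑ k ∈ Finset.range K, hk k x = φ x - ψ K x := by
        intro K
        induction K with
        | zero => simp [hψ, resid]
        | succ K ih => rw [Finset.sum_range_succ, ih, h3 K]; ring
      have h5 : Tendsto (fun K => ψ K x) atTop (𝓝 0) := by
        rw [tendsto_zero_iff_norm_tendsto_zero]
        refine squeeze_zero (fun K => norm_nonneg _) (fun K => (hinv K).2 x) ?_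
        have h6 : Tendsto (fun K : ℕ => M * (1 / 4 : ℝ) ^ K) atTop (𝓝 (M * 0)) :=
          (tendsto_pow_atTop_nhds_zero_of_lt_one (by norm_num) (by norm_num)).const_mul M
        rw [mul_zero] at h6
        refine h6.congr fun K => ?_
        rw [one_div, inv_pow]; rfl
      have h7 : Tendsto (fun K => ∑ k ∈ Finset.range K, hk k x) atTop (𝓝 (φ x - 0)) := by
        simp_rw [h4]
        exact tendsto_const_nhds.sub h5
      have h8 : h x = φ x - 0 := tendsto_nhds_unique (hsum x).hasSum.tendsto_sum_nat h7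
      rw [h8, sub_zero, hφ]
      simp only
      rw [if_pos h2]
    refine (measure_mono hsub).trans ((measure_union_le _ _).trans ?_)
    gcongr
    refine (measure_iUnion_le _).trans ?_
    have h1 : ∀ k : ℕ, ε / 2 ^ (k + 1) = ε / 2 / 2 ^ k := by
      intro k; rw [pow_succ]; field_simp
    calc ∑' k, sigma n {x | M / 4 ^ (k + 1) < ‖ψ k x - hk k x‖}
        ≤ ∑' k : ℕ, ENNReal.ofReal (ε / 2 / 2 ^ k) :=
          ENNReal.tsum_le_tsum fun k => by
            rw [← h1 k]; exact (hkp k).2.2.1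
      _ = ENNReal.ofReal ε := by
          rw [← ENNReal.ofReal_tsum_of_nonneg (fun k => by positivity)
            (hasSum_geometric_two' ε).summable, (hasSum_geometric_two' ε).tsum_eq]
  · intro p hp
    -- a K0 with pk K0 ≤ p
    obtain ⟨K0, hK0⟩ : ∃ K0, ∀ k, K0 ≤ k → pk k ≤ p := by
      obtain ⟨K0, hK0⟩ := exists_pow_lt_of_lt_one (show 0 < (p - pc) / (P - pc) from
        div_pos (by linarith) (by linarith)) (show (1 / 2 : ℝ) < 1 by norm_num)
      refine ⟨K0, fun k hk => ?_⟩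
      have h1 : (1 / 2 : ℝ) ^ k ≤ (1 / 2) ^ K0 :=
        pow_le_pow_of_le_one (by norm_num) (by norm_num) hk
      have h2 : (1 / 2 : ℝ) ^ k < (p - pc) / (P - pc) := lt_of_le_of_lt h1 hK0
      rw [lt_div_iff₀ (by linarith)] at h2
      simp only [hpk]
      rw [one_div, inv_pow, inv_mul_eq_div] at h2
      linarith
    have hr1 : 1 ≤ ENNReal.ofReal p := by
      rw [← ENNReal.ofReal_one]; exact ENNReal.ofReal_le_ofReal (by linarith)
    refine ⟨(ft_cont hhi).aestronglyMeasurable, ?_⟩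
    set B0 : ℝ≥0∞ := ∑ k ∈ Finset.range K0, eLpNorm (ft (hk k)) (ENNReal.ofReal p) volume with hB0
    have hB0' : B0 < ⊤ := by
      rw [hB0, ENNReal.sum_lt_top]
      exact fun k _ => ((hkp k).2.2.2.1 p hp).2
    refine lt_of_le_of_lt (hfatou (ENNReal.ofReal p) (B0 + ENNReal.ofReal η) K0 fun K hK => ?_)
      (ENNReal.add_lt_top.2 ⟨hB0', ENNReal.ofReal_lt_top⟩)
    have h1 := eLpNorm_sum_le (μ := (volume : Measure (E n))) (s := Finset.range K)
      (f := fun k => ft (hk k)) (fun k _ => (hcont k).aestronglyMeasurable) hr1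
    have h2 : (∑ k ∈ Finset.range K, ft (hk k)) =
        fun ξ => ∑ k ∈ Finset.range K, ft (hk k) ξ := by
      funext ξ; rw [Finset.sum_apply]
    rw [h2] at h1
    refine h1.trans ?_
    rw [← Finset.sum_range_add_sum_Ico _ hK]
    refine add_le_add le_rfl ?_
    refine le_trans (Finset.sum_le_sum fun k hk' => ?_) (hpart (Finset.Ico K0 K))
    refine (hkp k).2.2.2.2 _ (ENNReal.ofReal_le_ofReal ?_)
    exact hK0 k (Finset.mem_Ico.1 hk').1
  · intro r hr
    have hr1 : 1 ≤ r := by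
      refine le_trans ?_ hr
      rw [← ENNReal.ofReal_one]; exact ENNReal.ofReal_le_ofReal (by linarith)
    refine hfatou r (ENNReal.ofReal η) 0 fun K _ => ?_
    have h1 := eLpNorm_sum_le (μ := (volume : Measure (E n))) (s := Finset.range K)
      (f := fun k => ft (hk k)) (fun k _ => (hcont k).aestronglyMeasurable) hr1
    have h2 : (∑ k ∈ Finset.range K, ft (hk k)) =
        fun ξ => ∑ k ∈ Finset.range K, ft (hk k) ξ := by
      funext ξ; rw [Finset.sum_apply]
    rw [h2] at h1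
    refine h1.trans (le_trans (Finset.sum_le_sum fun k _ => ?_) (hpart (Finset.range K)))
    refine (hkp k).2.2.2.2 r ?_
    refine le_trans (ENNReal.ofReal_le_ofReal ?_) hr
    exact (hpk2 k).trans (min_le_left _ _)

end Pool.Agent.X93.ST
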